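import Pool.Agent.T6.H44.PG.Glu

/-!
Closed words with at least a given number of enclosed cells: rotation to a bottom edge and
lengthening.
-/

set_option autoImplicit false

namespace Pool.Agent.T6.H44.PG

open Pool.Agent.TH795.EP Pool.Agent.TH795.EP2 Pool.Agent.TH795.SE2 Pool.Agent.TH262.SawL
  Pool.Agent.Y981.L2 H981 Finset

/-- the area of the closed curve with `M` steps given by the word -/
noncomputable def wa (M : ℕ) (W : List St) : ℕ :=
  Y981.L2.area M (fun i : ZMod M => path W i.val)

/-- closed words (simple closed curves) with at least `A` enclosed cells -/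
def Clw (A : ℕ) (W : List St) : Prop := dx W = 0 ∧ dy W = 0 ∧ 3 ≤ W.length ∧
  (∀ i j, i < j → j < W.length → path W i ≠ path W j) ∧ A ≤ wa W.length W

noncomputable def cw (A m : ℕ) : ℕ := (fs (Clw A) m).card

/-- the property for the lengthening -/
def Qa (A : ℕ) (V : List St) : Prop := |dx V| + |dy V| = 1 ∧ A ≤ wa (V.length + 1) V

/-! ### the area does not depend on the root -/

theorem area_shift {m : ℕ} (f : ZMod m → ℤ × ℤ) (r : ZMod m) (z : ℤ × ℤ) :
    Y981.L2.area m (fun i => f (i + r) - z) = Y981.L2.area m f := by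
  have h1 : ∀ c : ℤ × ℤ, Y981.L2.Encl m (fun i => f (i + r) - z) c ↔ Y981.L2.Encl m f (c + z) := by
    intro c
    unfold Y981.L2.Encl
    have h2 : Nat.card {k : ZMod m // Y981.L2.Above m (fun i => f (i + r) - z) c.1 c.2 k} =
        Nat.card {k : ZMod m // Y981.L2.Above m f (c + z).1 (c + z).2 k} := by
      apply Nat.card_congr
      apply Equiv.subtypeEquiv (Equiv.addRight r)
      intro k
      unfold Y981.L2.Above
      simp only [Equiv.coe_addRight, Prod.fst_sub, Prod.snd_sub, Prod.fst_add, Prod.snd_add]
      rw [show k + 1 + r = k + r + 1 by ring]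
      constructor
      · rintro ⟨h | h, h3⟩
        · exact ⟨Or.inl ⟨by omega, by omega⟩, by omega⟩
        · exact ⟨Or.inr ⟨by omega, by omega⟩, by omega⟩
      · rintro ⟨h | h, h3⟩
        · exact ⟨Or.inl ⟨by omega, by omega⟩, by omega⟩
        · exact ⟨Or.inr ⟨by omega, by omega⟩, by omega⟩
    rw [h2]
  unfold Y981.L2.area
  apply Nat.card_congr
  apply Equiv.subtypeEquiv (Equiv.addRight z)
  intro c
  exact h1 c

/-! ### rotation of closed words -/

theorem path_rotate {W : List St} (hx : dx W = 0) (hy : dy W = 0) {i t : ℕ} (hi : i ≤ W.length)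
    (ht : t ≤ W.length) : path (W.drop i ++ W.take i) t =
      (if i + t ≤ W.length then path W (i + t) else path W (i + t - W.length)) - path W i := by
  have hlen : (W.drop i).length = W.length - i := List.length_drop
  split_ifs with h
  · rw [path_append_left (by omega)]
    have h1 := path_drop W i t
    rw [h1]
    ext <;> simp
  · obtain ⟨s, hs⟩ : ∃ s, t = (W.length - i) + s := ⟨t - (W.length - i), by omega⟩
    have h1 := path_append_right (W.drop i) (W.take i) s
    rw [hlen, ← hs] at h1
    rw [h1, path_take (by omega)]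
    have f1 : dx W = dx (W.take i) + dx (W.drop i) := by
      rw [← dx_append, List.take_append_drop]
    have f2 : dy W = dy (W.take i) + dy (W.drop i) := by
      rw [← dy_append, List.take_append_drop]
    have g2 : path W i = (dx (W.take i), dy (W.take i)) := rfl
    have e1 : i + t - W.length = s := by omega
    rw [e1, g2]
    ext
    · simp only [Prod.fst_sub]; omega
    · simp only [Prod.snd_sub]; omega

theorem path_rotate_zmod {W : List St} {M : ℕ} (hM : M = W.length) (hM1 : 1 ≤ M) (hx : dx W = 0)
    (hy : dy W = 0) {i : ℕ} (hi : i < M) (j : ZMod M) :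
    path (W.drop i ++ W.take i) j.val = path W (j + (i : ZMod M)).val - path W i := by
  have : NeZero M := ⟨by omega⟩
  have hj := ZMod.val_lt j
  have hiv : ((i : ℕ) : ZMod M).val = i := ZMod.val_cast_of_lt hi
  rw [path_rotate hx hy (by omega) (by omega)]
  congr 1
  split_ifs with h
  · rcases Nat.lt_or_ge (i + j.val) M with h1 | h1
    · rw [ZMod.val_add_of_lt (by rw [hiv]; omega), hiv, add_comm]
    · have h2 : i + j.val = M := by omega
      have h3 : (j + (i : ZMod M)).val = 0 := by
        rw [ZMod.val_add_of_le (by rw [hiv]; omega), hiv]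
        omega
      rw [h3, h2, hM, path_len, hx, hy, path_zero']
  · rw [ZMod.val_add_of_le (by rw [hiv]; omega), hiv]
    congr 1
    omega

/-- the closing step -/
def clo (V : List St) : St :=
  if dx V = 1 then St.W else if dx V = -1 then St.E else if dy V = 1 then St.S else St.N

theorem clo_eq {V : List St} {s : St} (h1 : dx V + s.x = 0) (h2 : dy V + s.y = 0) :
    clo V = s := by
  unfold clo
  cases s
  · simp only [St.x_E, St.y_E] at h1 h2
    rw [if_neg (by omega), if_pos (by omega)]
  · simp only [St.x_W, St.y_W] at h1 h2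
    rw [if_pos (by omega)]
  · simp only [St.x_N, St.y_N] at h1 h2
    rw [if_neg (by omega), if_neg (by omega), if_neg (by omega)]
  · simp only [St.x_S, St.y_S] at h1 h2
    rw [if_neg (by omega), if_neg (by omega), if_pos (by omega)]

/-- a simple closed curve has a horizontal edge of minimal height -/
theorem exists_bot {M : ℕ} (hM : 3 ≤ M) {f : ZMod M → ℤ × ℤ} (hf : IsLoop M f) :
    ∃ k : ZMod M, (f (k + 1)).2 = (f k).2 ∧ ∀ j, (f k).2 ≤ (f j).2 := by
  have : NeZero M := ⟨by omega⟩
  obtain ⟨-, hinj, hadj⟩ := hf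
  obtain ⟨k, hk⟩ := Finite.exists_min (fun k : ZMod M => (f k).2)
  by_cases h1 : (f (k + 1)).2 = (f k).2
  · exact ⟨k, h1, hk⟩
  · by_cases h2 : (f (k - 1)).2 = (f k).2
    · refine ⟨k - 1, ?_, fun j => ?_⟩
      · rw [sub_add_cancel]; exact h2.symm
      · rw [h2]; exact hk j
    · exfalso
      have a1 := hadj k
      have a2 := hadj (k - 1)
      rw [sub_add_cancel] at a2
      have b1 := hk (k + 1)
      have b2 := hk (k - 1)
      have c1 := abs_nonneg ((f (k + 1)).1 - (f k).1)
      have c2 := abs_nonneg ((f k).1 - (f (k - 1)).1)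
      have d1 := le_abs_self ((f (k + 1)).2 - (f k).2)
      have d2 := neg_abs_le ((f k).2 - (f (k - 1)).2)
      have e1 : |(f (k + 1)).1 - (f k).1| = 0 := by omega
      have e2 : |(f k).1 - (f (k - 1)).1| = 0 := by omega
      rw [abs_eq_zero] at e1 e2
      have h3 : f (k + 1) = f (k - 1) := Prod.ext (by omega) (by omega)
      have h4 := hinj h3
      have h5 : (2 : ZMod M) = 0 := by
        have : (k + 1) - (k - 1) = (2 : ZMod M) := by ring
        rw [← this, h4, sub_self]
      have h6 : ((2 : ℕ) : ZMod M) = 0 := by exact_mod_cast h5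
      rw [ZMod.natCast_eq_zero_iff] at h6
      have := Nat.le_of_dvd (by norm_num) h6
      omega

theorem clw_loop {A : ℕ} {W : List St} {M : ℕ} (hM : M = W.length) (hW : Clw A W) :
    IsLoop M (fun i : ZMod M => path W i.val) := by
  obtain ⟨hx, hy, h3, hinj, -⟩ := hW
  subst hM
  exact loop_of (by omega) rfl hx hy hinj

/-- closed words rooted at a bottom edge -/
theorem cw_le (A : ℕ) {M : ℕ} (hM : 3 ≤ M) : cw A M ≤ M * cq (Qa A) (M - 1) := by
  classical
  have : NeZero M := ⟨by omega⟩
  unfold cw cq
  have e : M * (fs (Cq (Qa A)) (M - 1)).card = (range M ×ˢ fs (Cq (Qa A)) (M - 1)).card := by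
    rw [Finset.card_product, Finset.card_range]
  rw [e]
  apply card_le_of_decode (fun q => (q.2 ++ [clo q.2]).drop (M - q.1) ++
    (q.2 ++ [clo q.2]).take (M - q.1))
  intro W hW
  rw [mem_fs] at hW
  obtain ⟨hW, hl⟩ := hW
  have hloop := clw_loop hl.symm hW
  obtain ⟨hx, hy, h3, hinj, hA⟩ := hW
  obtain ⟨k, hk1, hk2⟩ := exists_bot hM hloop
  obtain ⟨i, hi⟩ : ∃ i, i = k.val := ⟨_, rfl⟩
  have hiM : i < M := by rw [hi]; exact ZMod.val_lt k
  have hik : ((i : ℕ) : ZMod M) = k := by rw [hi]; exact ZMod.natCast_zmod_val k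
  obtain ⟨R, hR⟩ : ∃ R, R = W.drop i ++ W.take i := ⟨_, rfl⟩
  have hRl : R.length = M := by
    rw [hR, List.length_append, List.length_drop, List.length_take]; omega
  have key : ∀ j : ZMod M, path R j.val = path W (j + k).val - path W i := by
    intro j
    rw [hR, path_rotate_zmod hl.symm (by omega) hx hy hiM j, hik]
  have hval : ∀ t : ℕ, t < M → ((t : ZMod M)).val = t := fun t ht => ZMod.val_cast_of_lt ht
  obtain ⟨V, hV⟩ : ∃ V, V = R.take (M - 1) := ⟨_, rfl⟩
  have hVl : V.length = M - 1 := by rw [hV, List.length_take]; omega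
  have hpV : ∀ t ≤ M - 1, path V t = path R t := by
    intro t ht
    rw [hV, path_take ht]
  have hlt : M - 1 < R.length := by omega
  have hRV : R = V ++ [R[M - 1]] := by
    rw [hV]
    have h1 : R = R.take (M - 1) ++ R.drop (M - 1) := (List.take_append_drop _ _).symm
    rw [List.drop_eq_getElem_cons hlt] at h1
    have h2 : R.drop (M - 1 + 1) = [] := by
      rw [List.drop_eq_nil_iff]; omega
    rw [h2] at h1
    exact h1
  have hRx : dx R = 0 := by
    rw [hR, dx_append]
    have f1 : dx W = dx (W.take i) + dx (W.drop i) := by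
      rw [← dx_append, List.take_append_drop]
    omega
  have hRy : dy R = 0 := by
    rw [hR, dy_append]
    have f1 : dy W = dy (W.take i) + dy (W.drop i) := by
      rw [← dy_append, List.take_append_drop]
    omega
  have hdx : dx V + (R[M - 1]).x = 0 := by
    have h1 := congrArg dx hRV
    rw [dx_append, dx_cons, dx_nil, hRx] at h1
    omega
  have hdy : dy V + (R[M - 1]).y = 0 := by
    have h1 := congrArg dy hRV
    rw [dy_append, dy_cons, dy_nil, hRy] at h1
    omega
  have hclo : clo V = R[M - 1] := clo_eq hdx hdy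
  have hadj : |dx V| + |dy V| = 1 := by
    have e1 : dx V = -(R[M - 1]).x := by omega
    have e2 : dy V = -(R[M - 1]).y := by omega
    rw [e1, e2, abs_neg, abs_neg]
    cases (R[M - 1]) <;> simp
  have hsaw : Saw V := by
    rw [saw_iff']
    intro s t hst ht
    rw [hVl] at ht
    rw [hpV s (by omega), hpV t ht]
    intro he
    have k1 := key (s : ZMod M)
    have k2 := key (t : ZMod M)
    rw [hval s (by omega)] at k1
    rw [hval t (by omega)] at k2
    rw [k1, k2] at he
    have h1 : path W ((s : ZMod M) + k).val = path W ((t : ZMod M) + k).val := sub_left_injective he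
    have h2 := hloop.2.1 h1
    have h3 := add_right_cancel h2
    have h4 := congrArg ZMod.val h3
    rw [hval s (by omega), hval t (by omega)] at h4
    omega
  have hpi : path W i = path W k.val := by rw [hi]
  have hbot : Bot V := by
    refine ⟨0, by omega, ?_, ?_⟩
    · have h1 := path_succ (w := V) (i := 0) (by omega)
      rw [zero_add, hpV 1 (by omega), path_zero'] at h1
      have k1 := key (1 : ZMod M)
      have h11 : (1 : ZMod M).val = 1 := by
        have := hval 1 (by omega)
        rwa [Nat.cast_one] at this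
      rw [h11, hpi, add_comm] at k1
      have h2 : (path R 1).2 = 0 := by
        rw [k1, Prod.snd_sub]
        omega
      have h3 := h1.2
      simp only [zero_add] at h3
      rw [h2] at h3
      cases hc : (V[0]'(by omega)) with
      | E => left; rfl
      | W => right; rfl
      | N => rw [hc] at h3; simp at h3
      | S => rw [hc] at h3; simp at h3
    · intro t
      rw [path_zero']
      have h1 : ∃ t' ≤ M - 1, path V t = path V t' := by
        rcases le_or_gt t (M - 1) with h | h
        · exact ⟨t, h, rfl⟩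
        · exact ⟨M - 1, le_rfl, by rw [path_ge (by omega : V.length ≤ t), hVl]⟩
      obtain ⟨t', ht', h2⟩ := h1
      rw [h2, hpV t' ht']
      have k1 := key (t' : ZMod M)
      rw [hval t' (by omega)] at k1
      rw [k1, Prod.snd_sub, hpi]
      have := hk2 ((t' : ZMod M) + k)
      simp only at this ⊢
      omega
  have hareaV : wa (V.length + 1) V = wa W.length W := by
    have e1 : V.length + 1 = M := by omega
    rw [e1, hl]
    unfold wa
    rw [← area_shift (fun i : ZMod M => path W i.val) k (path W i)]
    congr 1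
    funext j
    rw [hpV j.val (by have := ZMod.val_lt j; omega), key j]
  refine ⟨(i, V), ?_, ?_⟩
  · rw [Finset.mem_product, Finset.mem_range, mem_fs]
    exact ⟨hiM, ⟨hsaw, hadj, hbot, hadj, by rw [hareaV]; exact hA⟩, hVl⟩
  · simp only
    rw [hclo, ← hRV, hR]
    have hlen : (W.drop i).length = M - i := by rw [List.length_drop]; omega
    have g1 := List.take_left (l₁ := W.drop i) (l₂ := W.take i)
    have g2 := List.drop_left (l₁ := W.drop i) (l₂ := W.take i)
    rw [hlen] at g1 g2
    rw [g1, g2, List.take_append_drop]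

/-! ### the insertion does not decrease the area -/

theorem adj_close {V : List St} {M : ℕ} (hM : M = V.length + 1) (hadj : |dx V| + |dy V| = 1)
    (i : ZMod M) : |(path V (i + 1).val).1 - (path V i.val).1| +
      |(path V (i + 1).val).2 - (path V i.val).2| = 1 := by
  have hV1 : 1 ≤ V.length := by
    by_contra h
    have : V = [] := List.length_eq_zero_iff.1 (by omega)
    subst this
    simp at hadj
  have : NeZero M := ⟨by omega⟩
  have : Fact (1 < M) := ⟨by omega⟩
  have hi := ZMod.val_lt i
  rcases Nat.lt_or_ge (i.val + 1) M with h | h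
  · rw [ZMod.val_add_of_lt (by rw [ZMod.val_one]; exact h), ZMod.val_one]
    exact adj_path (by omega)
  · have h1 : i.val + 1 = M := by omega
    have h2 : i + 1 = 0 := by
      have h3 : ((i.val + 1 : ℕ) : ZMod M) = 0 := by rw [h1]; exact ZMod.natCast_self M
      push_cast at h3
      rwa [ZMod.natCast_zmod_val] at h3
    have h3 : i.val = V.length := by omega
    rw [h2, ZMod.val_zero, h3, path_len, path_zero']
    simp only [zero_sub, abs_neg]
    exact hadj

theorem encl_iff {V : List St} {M : ℕ} (hM : M = V.length + 1) (c : ℤ × ℤ) :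
    Y981.L2.Encl M (fun i : ZMod M => path V i.val) c ↔ Odd (ccr c.1 c.2 V) := by
  unfold Y981.L2.Encl
  rw [card_above' hM]

theorem encl_ge {V : List St} {M : ℕ} (hM : M = V.length + 1) (hadj : |dx V| + |dy V| = 1)
    {y0 : ℤ} (hmin : ∀ k, y0 ≤ (path V k).2) {c : ℤ × ℤ}
    (hc : Y981.L2.Encl M (fun i : ZMod M => path V i.val) c) : y0 ≤ c.2 := by
  have : NeZero M := ⟨by omega⟩
  have hs := adj_close hM hadj
  obtain ⟨i1, h1⟩ := Finite.exists_max (fun k : ZMod M => (path V k.val).1)
  obtain ⟨i2, h2⟩ := Finite.exists_max (fun k : ZMod M => (path V k.val).2)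
  obtain ⟨j1, h3⟩ := Finite.exists_min (fun k : ZMod M => (path V k.val).1)
  exact (encl_box (m := M) (f := fun i : ZMod M => path V i.val) (y0 := y0) hs
    (fun i => ⟨h3 i, h1 i⟩) (fun i => ⟨hmin i.val, h2 i⟩) hc).2.1

theorem encl_fin {V : List St} {M : ℕ} (hM : M = V.length + 1) (hadj : |dx V| + |dy V| = 1) :
    {c : ℤ × ℤ | Y981.L2.Encl M (fun i : ZMod M => path V i.val) c}.Finite := by
  have : NeZero M := ⟨by omega⟩
  exact finite_encl (adj_close hM hadj)

theorem wa_eq (M : ℕ) (V : List St) :
    wa M V = {c : ℤ × ℤ | Y981.L2.Encl M (fun i : ZMod M => path V i.val) c}.ncard :=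
  Nat.card_coe_set_eq _

theorem stab_Qa (A : ℕ) : Stab (Qa A) := by
  rintro V i hi t' hx hy hneg hmin ⟨hadj, hA⟩
  have hd := disp_ins hi hx hy
  have hadj' : |dx (ins V i t')| + |dy (ins V i t')| = 1 := by
    rw [hd.1, hd.2]; exact hadj
  refine ⟨hadj', hA.trans ?_⟩
  rw [wa_eq, wa_eq]
  apply Set.ncard_le_ncard _ (encl_fin rfl hadj')
  intro c hc
  have hc1 : Y981.L2.Encl (V.length + 1) (fun i : ZMod (V.length + 1) => path V i.val) c := hc
  have hbox := encl_ge rfl hadj hmin hc1
  rw [Set.mem_setOf_eq, encl_iff rfl] at hc ⊢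
  rw [ccr_ins hi hx hy hneg hbox]
  exact hc

end Pool.Agent.T6.H44.PG
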