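import Pool.Agent.T6.H44.PG.LP

/-!
The number of polygons that enclose a convex lattice polygon: lower bound.
-/

set_option autoImplicit false

namespace Pool.Agent.T6.H44.PG

open Pool.Agent.TH795.EP Pool.Agent.TH795.EP2 Pool.Agent.TH795.SE2 Pool.Agent.TH262.SawL
  Pool.Agent.Y981.L2 H981 Finset

theorem pair_cw {k l : ℤ} (hk : 2 ≤ k) {SU SW : ℤ × ℤ → Prop}
    (hd : ∀ z, SU z → SW z → z.1 ≤ 0 ∨ k ≤ z.1) {X : Finset (ℤ × ℤ)}
    (hX : ∀ p ∈ X, 0 < p.1 ∧ p.1 < k ∧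
      (∀ z, SU z → z.1 = p.1 → p.2 < z.2) ∧ ∀ z, SW z → z.1 = p.1 → z.2 < p.2) (m m' : ℕ) :
    ic SU 0 (k, l) m * ic SW (k, l) (-k, -l) m' ≤ ∑ p ∈ Ix m m', cw X.card (p.2.2 + p.1.2) *
      ((c p.1.1 * c (m - p.1.1 - p.1.2)) * (c p.2.1 * c (m' - p.2.1 - p.2.2))) := by
  classical
  unfold ic cw c
  have e : ∀ p : (ℕ × ℕ) × (ℕ × ℕ),
      (fs (Clw X.card) (p.2.2 + p.1.2)).card * (((fs Saw p.1.1).card *
        (fs Saw (m - p.1.1 - p.1.2)).card) * ((fs Saw p.2.1).card *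
        (fs Saw (m' - p.2.1 - p.2.2)).card)) =
      (fs (Clw X.card) (p.2.2 + p.1.2) ×ˢ ((fs Saw p.1.1 ×ˢ fs Saw (m - p.1.1 - p.1.2)) ×ˢ
        (fs Saw p.2.1 ×ˢ fs Saw (m' - p.2.1 - p.2.2)))).card := by
    intro p
    rw [Finset.card_product, Finset.card_product, Finset.card_product, Finset.card_product]
  simp only [e]
  rw [← Finset.card_product, ← Finset.card_sigma]
  apply card_le_of_decode (fun q : (_ : (ℕ × ℕ) × (ℕ × ℕ)) ×
      (List St × ((List St × List St) × (List St × List St))) =>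
    (q.2.2.1.1 ++ (q.2.1.drop q.1.2.2 ++ q.2.2.1.2),
      q.2.2.2.1 ++ (q.2.1.take q.1.2.2 ++ q.2.2.2.2)))
  rintro ⟨u, v⟩ h
  rw [Finset.mem_product, mem_fs, mem_fs] at h
  obtain ⟨⟨⟨⟨hu, hux, huy⟩, huS⟩, hul⟩, ⟨⟨hv, hvx, hvy⟩, hvS⟩, hvl⟩ := h
  simp only at hu hux huy huS hul hv hvx hvy hvS hvl
  obtain ⟨j1, m2, j3, m1, h1, h2, h3⟩ := arc_loop hk hd hu hux huy huS hv hvx hvy hvS hX
  have hl1 : ((v.drop j3).take m1).length = m1 := by
    rw [List.length_take, List.length_drop]; omega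
  have hl2 : ((u.drop j1).take m2).length = m2 := by
    rw [List.length_take, List.length_drop]; omega
  refine ⟨⟨((j1, m2), (j3, m1)), ((v.drop j3).take m1 ++ (u.drop j1).take m2,
    ((u.take j1, u.drop (j1 + m2)), (v.take j3, v.drop (j3 + m1))))⟩, ?_, ?_⟩
  · rw [Finset.mem_sigma]
    unfold Ix
    rw [Finset.mem_filter, Finset.mem_product, Finset.mem_product, Finset.mem_product,
      Finset.mem_product, Finset.mem_product, Finset.mem_product, Finset.mem_product,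
      mem_fs, mem_fs, mem_fs, mem_fs, mem_fs, Finset.mem_range, Finset.mem_range,
      Finset.mem_range, Finset.mem_range]
    simp only
    refine ⟨⟨⟨⟨by omega, by omega⟩, by omega, by omega⟩, by omega, by omega⟩, ⟨h3, ?_⟩,
      ⟨⟨?_, ?_⟩, ?_, ?_⟩, ⟨?_, ?_⟩, ?_, ?_⟩
    · rw [List.length_append, hl1, hl2]
    · exact hu.subw (List.take_prefix _ _).isInfix
    · rw [List.length_take]; omega
    · exact hu.subw (List.drop_suffix _ _).isInfix
    · rw [List.length_drop]; omega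
    · exact hv.subw (List.take_prefix _ _).isInfix
    · rw [List.length_take]; omega
    · exact hv.subw (List.drop_suffix _ _).isInfix
    · rw [List.length_drop]; omega
  · simp only
    have g1 := List.take_left (l₁ := (v.drop j3).take m1) (l₂ := (u.drop j1).take m2)
    have g2 := List.drop_left (l₁ := (v.drop j3).take m1) (l₂ := (u.drop j1).take m2)
    rw [hl1] at g1 g2
    rw [g1, g2]
    have g4 : ∀ (w : List St) (i l : ℕ), w.take i ++ ((w.drop i).take l ++ w.drop (i + l)) = w := by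
      intro w i l
      rw [← List.drop_drop, List.take_append_drop, List.take_append_drop]
    rw [g4, g4]

theorem gs_pair : ∃ K : ℝ, 0 ≤ K ∧ ∀ N : ℕ, 2 ≤ N → ∀ M1 M2 : ℕ, M1 + M2 ≤ N →
    ∀ k l : ℤ, 2 ≤ k → ∀ SU SW : ℤ × ℤ → Prop, (∀ z, SU z → SW z → z.1 ≤ 0 ∨ k ≤ z.1) →
    ∀ X : Finset (ℤ × ℤ), (∀ p ∈ X, 0 < p.1 ∧ p.1 < k ∧
      (∀ z, SU z → z.1 = p.1 → p.2 < z.2) ∧ ∀ z, SW z → z.1 = p.1 → z.2 < p.2) →
    gs M1 (ic SU 0 (k, l)) * gs M2 (ic SW (k, l) (-k, -l)) ≤ q N K * gs N (cw X.card) := by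
  obtain ⟨K, hK0, hup, -⟩ := exists_K
  refine ⟨4 * K + 36, by positivity, ?_⟩
  intro N hN M1 M2 hM k l hk SU SW hd X hX
  have hmu := mu_pos
  have hN0 : (2 : ℝ) ≤ N := by exact_mod_cast hN
  obtain ⟨G, hG⟩ : ∃ G, G = gs N (cw X.card) := ⟨_, rfl⟩
  rw [← hG]
  have hG0 : 0 ≤ G := by rw [hG]; exact gs_nonneg _ _
  have hq := q_pos N K
  have hq4 := q_pos N (4 * K)
  have hc : ∀ i ≤ N, (c i : ℝ) ≤ mu ^ i * q N K := fun i hi => hup N hN i hi
  have hc0 : ∀ i, (0 : ℝ) ≤ c i := fun i => Nat.cast_nonneg _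
  have hterm : ∀ p ∈ range (M1 + 1) ×ˢ range (M2 + 1),
      ((ic SU 0 (k, l) p.1 : ℝ) / mu ^ p.1) * ((ic SW (k, l) (-k, -l) p.2 : ℝ) / mu ^ p.2) ≤
        (((N : ℝ) + 1) ^ 4) * (q N (4 * K) * G) := by
    intro p hp'
    rw [Finset.mem_product, Finset.mem_range, Finset.mem_range] at hp'
    have h1 : (ic SU 0 (k, l) p.1 : ℝ) * ic SW (k, l) (-k, -l) p.2 ≤
        ∑ t ∈ Ix p.1 p.2, (cw X.card (t.2.2 + t.1.2) : ℝ) *
          ((c t.1.1 * c (p.1 - t.1.1 - t.1.2)) * (c t.2.1 * c (p.2 - t.2.1 - t.2.2))) := by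
      exact_mod_cast pair_cw hk hd hX p.1 p.2
    have h2 : ∀ t ∈ Ix p.1 p.2, (cw X.card (t.2.2 + t.1.2) : ℝ) *
          ((c t.1.1 * c (p.1 - t.1.1 - t.1.2)) * (c t.2.1 * c (p.2 - t.2.1 - t.2.2))) ≤
          q N (4 * K) * G * mu ^ (p.1 + p.2) := by
      intro t ht
      unfold Ix at ht
      rw [Finset.mem_filter] at ht
      obtain ⟨-, g1, g2⟩ := ht
      have e4 := le_gs (M := N) (m := t.2.2 + t.1.2) (cw X.card) (by omega)
      rw [← hG, div_le_iff₀ (pow_pos hmu _)] at e4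
      have f1 := hc t.1.1 (by omega)
      have f2 := hc (p.1 - t.1.1 - t.1.2) (by omega)
      have f3 := hc t.2.1 (by omega)
      have f4 := hc (p.2 - t.2.1 - t.2.2) (by omega)
      calc (cw X.card (t.2.2 + t.1.2) : ℝ) *
          ((c t.1.1 * c (p.1 - t.1.1 - t.1.2)) * (c t.2.1 * c (p.2 - t.2.1 - t.2.2)))
          ≤ (G * mu ^ (t.2.2 + t.1.2)) * (((mu ^ t.1.1 * q N K) *
            (mu ^ (p.1 - t.1.1 - t.1.2) * q N K)) * ((mu ^ t.2.1 * q N K) *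
            (mu ^ (p.2 - t.2.1 - t.2.2) * q N K))) := by
            gcongr
        _ = (q N K * q N K * (q N K * q N K)) * (G * (mu ^ (t.2.2 + t.1.2) * mu ^ t.1.1 *
            mu ^ (p.1 - t.1.1 - t.1.2) * mu ^ t.2.1 * mu ^ (p.2 - t.2.1 - t.2.2))) := by
            ring
        _ = q N (4 * K) * (G * mu ^ (p.1 + p.2)) := by
            rw [← pow_add, ← pow_add, ← pow_add, ← pow_add, q_mul, q_mul]
            congr 2
            · ring
            · congr 1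
              omega
        _ = _ := by ring
    have h3 := Finset.sum_le_card_nsmul _ _ _ h2
    rw [nsmul_eq_mul] at h3
    have h4 : ((Ix p.1 p.2).card : ℝ) ≤ ((N : ℝ) + 1) ^ 4 := by
      have : (Ix p.1 p.2).card ≤ (N + 1) ^ 4 := by
        unfold Ix
        refine (Finset.card_filter_le _ _).trans ?_
        rw [Finset.card_product, Finset.card_product, Finset.card_product, Finset.card_range,
          Finset.card_range]
        have g1 : p.1 + 1 ≤ N + 1 := by omega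
        have g2 : p.2 + 1 ≤ N + 1 := by omega
        calc (p.1 + 1) * (p.1 + 1) * ((p.2 + 1) * (p.2 + 1))
            ≤ (N + 1) * (N + 1) * ((N + 1) * (N + 1)) :=
              Nat.mul_le_mul (Nat.mul_le_mul g1 g1) (Nat.mul_le_mul g2 g2)
          _ = (N + 1) ^ 4 := by ring
      exact_mod_cast this
    calc ((ic SU 0 (k, l) p.1 : ℝ) / mu ^ p.1) * ((ic SW (k, l) (-k, -l) p.2 : ℝ) / mu ^ p.2)
        = ((ic SU 0 (k, l) p.1 : ℝ) * ic SW (k, l) (-k, -l) p.2) / mu ^ (p.1 + p.2) := by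
          rw [pow_add]; field_simp
      _ ≤ (((Ix p.1 p.2).card : ℝ) * (q N (4 * K) * G * mu ^ (p.1 + p.2))) /
          mu ^ (p.1 + p.2) := by
          exact div_le_div_of_nonneg_right (h1.trans h3) (pow_pos hmu _).le
      _ = ((Ix p.1 p.2).card : ℝ) * (q N (4 * K) * G) := by
          rw [← mul_assoc, mul_div_assoc, div_self (pow_pos hmu _).ne', mul_one]
      _ ≤ _ := mul_le_mul_of_nonneg_right h4 (by positivity)
  have hsum := Finset.sum_le_card_nsmul _ _ _ hterm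
  rw [Finset.card_product, Finset.card_range, Finset.card_range, nsmul_eq_mul] at hsum
  have e : gs M1 (ic SU 0 (k, l)) * gs M2 (ic SW (k, l) (-k, -l)) =
      ∑ p ∈ range (M1 + 1) ×ˢ range (M2 + 1),
      ((ic SU 0 (k, l) p.1 : ℝ) / mu ^ p.1) * ((ic SW (k, l) (-k, -l) p.2 : ℝ) / mu ^ p.2) := by
    unfold gs
    rw [Finset.sum_mul_sum, ← Finset.sum_product']
  rw [e]
  refine hsum.trans ?_
  have h5 : (((M1 + 1) * (M2 + 1) : ℕ) : ℝ) ≤ ((N : ℝ) + 1) ^ 2 := by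
    have : (M1 + 1) * (M2 + 1) ≤ (N + 1) ^ 2 := by
      rw [sq]
      exact Nat.mul_le_mul (by omega) (by omega)
    exact_mod_cast this
  have h6 : ((N : ℝ) + 1) ^ 2 * ((N : ℝ) + 1) ^ 4 ≤ q N 36 := by
    have h7 := pow_le_q hN 12
    norm_num at h7
    refine le_trans ?_ h7
    have h8 : (N : ℝ) + 1 ≤ (N : ℝ) ^ 2 := by nlinarith
    calc ((N : ℝ) + 1) ^ 2 * ((N : ℝ) + 1) ^ 4 = ((N : ℝ) + 1) ^ 6 := by ring
      _ ≤ ((N : ℝ) ^ 2) ^ 6 := pow_le_pow_left₀ (by positivity) h8 6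
      _ = (N : ℝ) ^ 12 := by ring
  calc (((M1 + 1) * (M2 + 1) : ℕ) : ℝ) * (((N : ℝ) + 1) ^ 4 * (q N (4 * K) * G))
      ≤ ((N : ℝ) + 1) ^ 2 * (((N : ℝ) + 1) ^ 4 * (q N (4 * K) * G)) :=
        mul_le_mul_of_nonneg_right h5 (by positivity)
    _ = (((N : ℝ) + 1) ^ 2 * ((N : ℝ) + 1) ^ 4) * (q N (4 * K) * G) := by ring
    _ ≤ q N 36 * (q N (4 * K) * G) := mul_le_mul_of_nonneg_right h6 (by positivity)
    _ = (q N 36 * q N (4 * K)) * G := by ring
    _ = q N (36 + 4 * K) * G := by rw [q_mul]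
    _ = _ := by rw [add_comm 36 (4 * K)]

theorem cw_small {A m : ℕ} (h : m < 3) : cw A m = 0 := by
  unfold cw
  rw [Finset.card_eq_zero, Finset.eq_empty_iff_forall_notMem]
  intro w hw
  rw [mem_fs] at hw
  have := hw.1.2.2.1
  omega

theorem gs_cw (A : ℕ) {N : ℕ} (hN : 1 ≤ N) : gs N (cw A) ≤ N * gs (N - 1) (cq (Qa A)) := by
  have hmu := mu_pos
  have hmu1 := one_le_mu
  unfold gs
  rw [Finset.mul_sum, Finset.sum_range_succ']
  rw [cw_small (by norm_num : 0 < 3)]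
  simp only [Nat.cast_zero, zero_div, add_zero]
  have e1 : N - 1 + 1 = N := by omega
  rw [e1]
  apply Finset.sum_le_sum
  intro m hm
  rw [Finset.mem_range] at hm
  rcases Nat.lt_or_ge (m + 1) 3 with h | h
  · rw [cw_small h, Nat.cast_zero, zero_div]
    positivity
  · have h1 : (cw A (m + 1) : ℝ) ≤ (m + 1 : ℕ) * cq (Qa A) m := by
      have := cw_le A h
      rw [Nat.add_sub_cancel] at this
      exact_mod_cast this
    have h2 : ((m + 1 : ℕ) : ℝ) ≤ N := by exact_mod_cast (by omega : m + 1 ≤ N)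
    calc (cw A (m + 1) : ℝ) / mu ^ (m + 1) ≤ ((m + 1 : ℕ) * cq (Qa A) m) / mu ^ (m + 1) :=
          div_le_div_of_nonneg_right h1 (pow_pos hmu _).le
      _ ≤ ((m + 1 : ℕ) * cq (Qa A) m) / mu ^ m := by
          apply div_le_div_of_nonneg_left (by positivity) (pow_pos hmu _)
          exact pow_le_pow_right₀ hmu1 (by omega)
      _ = (m + 1 : ℕ) * ((cq (Qa A) m : ℝ) / mu ^ m) := by rw [mul_div_assoc]
      _ ≤ N * ((cq (Qa A) m : ℝ) / mu ^ m) := mul_le_mul_of_nonneg_right h2 (by positivity)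

theorem cq_le_an {n : ℕ} (hn : 1 ≤ n) (A : ℕ) : cq' (Qa A) (2 * n - 1) ≤ an n A := by
  unfold an
  apply cq_loops hn
  rintro V ⟨-, -, -, hA⟩ hl
  rw [hl] at hA
  exact hA

/-- **from the arcs to the polygons** -/
theorem low_main : ∃ K : ℝ, 0 ≤ K ∧ ∀ n : ℕ, 1 ≤ n → ∀ M1 M2 : ℕ, M1 + M2 ≤ 2 * n →
    ∀ k l : ℤ, 2 ≤ k → ∀ SU SW : ℤ × ℤ → Prop, (∀ z, SU z → SW z → z.1 ≤ 0 ∨ k ≤ z.1) →
    ∀ X : Finset (ℤ × ℤ), (∀ p ∈ X, 0 < p.1 ∧ p.1 < k ∧
      (∀ z, SU z → z.1 = p.1 → p.2 < z.2) ∧ ∀ z, SW z → z.1 = p.1 → z.2 < p.2) →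
    gs M1 (ic SU 0 (k, l)) * gs M2 (ic SW (k, l) (-k, -l)) * mu ^ (2 * n) ≤
      q (2 * n) K * an n X.card := by
  obtain ⟨K1, hK1, h1⟩ := gs_pair
  obtain ⟨K2, hK2, h2⟩ := gs_cq
  refine ⟨K1 + K2 + 9, by positivity, ?_⟩
  intro n hn M1 M2 hM k l hk SU SW hd X hX
  have hmu := mu_pos
  have hN2 : 2 ≤ 2 * n := by omega
  have g1 := h1 (2 * n) hN2 M1 M2 hM k l hk SU SW hd X hX
  have g2 := h2 n hn (Qa X.card) (stab_Qa _)
  have g3 := gs_cw X.card (N := 2 * n) (by omega)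
  have g4 : (cq' (Qa X.card) (2 * n - 1) : ℝ) ≤ an n X.card := by
    exact_mod_cast cq_le_an hn X.card
  obtain ⟨G, hG⟩ : ∃ G, G = gs (2 * n - 1) (cq (Qa X.card)) := ⟨_, rfl⟩
  rw [← hG] at g2 g3
  have hG0 : 0 ≤ G := by rw [hG]; exact gs_nonneg _ _
  have q1 := q_pos (2 * n) K1
  have q2 := q_pos (2 * n) K2
  have hmu2 : ((2 * n : ℕ) : ℝ) * mu ≤ q (2 * n) 9 := by
    have g5 := pow_le_q hN2 3
    norm_num at g5
    refine le_trans ?_ g5
    have h3 : mu ≤ 4 := mu_le_four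
    have h4 : (1 : ℝ) ≤ n := by exact_mod_cast hn
    push_cast
    have h5 : (1 : ℝ) ≤ (n : ℝ) ^ 2 := one_le_pow₀ h4
    calc 2 * (n : ℝ) * mu ≤ 2 * n * 4 := mul_le_mul_of_nonneg_left h3 (by positivity)
      _ ≤ (2 * (n : ℝ)) ^ 3 := by
          have : (2 * (n : ℝ)) ^ 3 = 8 * n * n ^ 2 := by ring
          rw [this]
          nlinarith
  have e1 : mu ^ (2 * n) = mu ^ (2 * n - 1) * mu := by
    rw [← pow_succ]
    congr 1
    omega
  have ha0 : (0 : ℝ) ≤ an n X.card := Nat.cast_nonneg _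
  calc gs M1 (ic SU 0 (k, l)) * gs M2 (ic SW (k, l) (-k, -l)) * mu ^ (2 * n)
      ≤ q (2 * n) K1 * gs (2 * n) (cw X.card) * mu ^ (2 * n) :=
        mul_le_mul_of_nonneg_right g1 (pow_pos hmu _).le
    _ ≤ q (2 * n) K1 * ((2 * n : ℕ) * G) * mu ^ (2 * n) := by
        apply mul_le_mul_of_nonneg_right _ (pow_pos hmu _).le
        exact mul_le_mul_of_nonneg_left g3 q1.le
    _ = q (2 * n) K1 * ((2 * n : ℕ) * mu) * (G * mu ^ (2 * n - 1)) := by rw [e1]; ring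
    _ ≤ q (2 * n) K1 * ((2 * n : ℕ) * mu) * (q (2 * n) K2 * an n X.card) := by
        apply mul_le_mul_of_nonneg_left (g2.trans (mul_le_mul_of_nonneg_left g4 q2.le))
        positivity
    _ ≤ q (2 * n) K1 * q (2 * n) 9 * (q (2 * n) K2 * an n X.card) := by
        apply mul_le_mul_of_nonneg_right _ (by positivity)
        exact mul_le_mul_of_nonneg_left hmu2 q1.le
    _ = (q (2 * n) K1 * q (2 * n) 9 * q (2 * n) K2) * an n X.card := by ring
    _ = _ := by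
        rw [q_mul, q_mul]
        congr 2
        ring

end Pool.Agent.T6.H44.PG
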