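import Pool.Agent.T6.H44.PG.Two
import Pool.Agent.T6.H53.AL.Joint2
import Pool.Agent.Y981.L2.Short

/-!
The joint law of the width and the height: the lower bound.
-/

set_option autoImplicit false

namespace Pool.Agent.T6.H44.PG

open Pool.Agent.TH795.EP Pool.Agent.TH795.EP2 Pool.Agent.TH795.SE2 Pool.Agent.TH262.SawL
  Pool.Agent.Y981.L2 H981 Finset Pool.Agent.T6.H53.AL Pool.Agent.T6.H53

/-- the number of words with given ends, from below -/
theorem a_lower : ∃ K : ℝ, 0 ≤ K ∧ ∀ N m : ℕ, 2 ≤ m → m ≤ N → ∀ x y : ℤ, (x, y) ≠ (0, 0) →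
    (x + y - m) % 2 = 0 → |x| + |y| ≤ m →
    Real.exp (-(m * Rate ((x : ℝ) / m, (y : ℝ) / m))) ≤ q N K * ((a m x y : ℝ) / mu ^ m) := by
  obtain ⟨K, hK, hldp⟩ := ldp_words
  refine ⟨K, hK, ?_⟩
  intro N m hm hmN x y hne hpar hle
  have hmu := mu_pos
  have g1 := hldp m hm x y hne hpar hle
  have g2 := one_le_a (n := m) (x := x) (y := y) hne hpar hle
  have g3 : (0 : ℝ) < a m x y := by exact_mod_cast g2
  have g4 := c_pos m
  have g5 := (abs_le.1 g1).1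
  have g6 : Real.exp (-(m * Rate ((x : ℝ) / m, (y : ℝ) / m) + K * Real.log m ^ 2)) ≤
      (a m x y : ℝ) / c m := by
    rw [← Real.le_log_iff_exp_le (div_pos g3 g4)]
    linarith
  have g7 : mu ^ m ≤ c m := by rw [c_eq]; exact mu_pow_le m
  have g8 : (a m x y : ℝ) / c m ≤ (a m x y : ℝ) / mu ^ m :=
    div_le_div_of_nonneg_left g3.le (pow_pos hmu _) g7
  have h1 : Real.exp (-(m * Rate ((x : ℝ) / m, (y : ℝ) / m))) =
      Real.exp (K * Real.log m ^ 2) *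
      Real.exp (-(m * Rate ((x : ℝ) / m, (y : ℝ) / m) + K * Real.log m ^ 2)) := by
    rw [← Real.exp_add]
    congr 1
    ring
  have h2 : Real.exp (K * Real.log m ^ 2) ≤ q N K := by
    unfold q
    apply Real.exp_le_exp.2
    apply mul_le_mul_of_nonneg_left _ hK
    have hm1 : (1 : ℝ) ≤ m := by exact_mod_cast (by omega : 1 ≤ m)
    apply pow_le_pow_left₀ (Real.log_nonneg hm1)
    exact Real.log_le_log (by linarith) (by exact_mod_cast hmN)
  rw [h1]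
  exact mul_le_mul h2 (g6.trans g8) (Real.exp_pos _).le (q_pos _ _).le

/-- the same for words shorter by two steps -/
theorem a_lower2 : ∃ K : ℝ, 0 ≤ K ∧ ∀ N m : ℕ, 2 ≤ m → m ≤ N → ∀ x y : ℤ, (x, y) ≠ (0, 0) →
    (x + y - m) % 2 = 0 → |x| + |y| < m →
    Real.exp (-(m * Rate ((x : ℝ) / m, (y : ℝ) / m))) ≤
      q N K * ((a (m - 2) x y : ℝ) / mu ^ (m - 2)) := by
  obtain ⟨K1, hK1, h1⟩ := a_lower
  obtain ⟨K2, hK2, h2⟩ := shorten
  refine ⟨K1 + K2, by positivity, ?_⟩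
  intro N m hm hmN x y hne hpar hlt
  have hmu := mu_pos
  have hmu1 := one_le_mu
  have g1 := h1 N m hm hmN x y hne hpar hlt.le
  have g2 := h2 N (by omega) m hmN x y hne hlt
  have hq := q_pos N K1
  have hq2 := q_pos N K2
  refine g1.trans ?_
  have g3 : (a m x y : ℝ) / mu ^ m ≤ q N K2 * ((a (m - 2) x y : ℝ) / mu ^ (m - 2)) := by
    rw [div_le_iff₀ (pow_pos hmu _)]
    calc (a m x y : ℝ) ≤ q N K2 * a (m - 2) x y := g2
      _ = q N K2 * ((a (m - 2) x y : ℝ) / mu ^ (m - 2)) * mu ^ (m - 2) := by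
          rw [mul_assoc, div_mul_cancel₀ _ (pow_pos hmu _).ne']
      _ ≤ q N K2 * ((a (m - 2) x y : ℝ) / mu ^ (m - 2)) * mu ^ m := by
          apply mul_le_mul_of_nonneg_left (pow_le_pow_right₀ hmu1 (by omega))
          positivity
  calc q N K1 * ((a m x y : ℝ) / mu ^ m)
      ≤ q N K1 * (q N K2 * ((a (m - 2) x y : ℝ) / mu ^ (m - 2))) :=
        mul_le_mul_of_nonneg_left g3 hq.le
    _ = (q N K1 * q N K2) * ((a (m - 2) x y : ℝ) / mu ^ (m - 2)) := by ring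
    _ = _ := by rw [q_mul]

/-- monotonicity of the exponent -/
theorem rate_shift {n m : ℕ} (hn : 1 ≤ n) (hnm : n ≤ m) {x y k l : ℝ} (hx : 0 ≤ x) (hy : 0 ≤ y)
    (hxk : x ≤ k) (hyl : y ≤ l) (hkl : k + l ≤ n) :
    m * Rate (x / m, y / m) ≤ n * Rate (k / n, l / n) := by
  have hn0 : (0 : ℝ) < n := by exact_mod_cast (by omega : 0 < n)
  have hm0 : (0 : ℝ) < m := by exact_mod_cast (by omega : 0 < m)
  have hnm' : (n : ℝ) ≤ m := by exact_mod_cast hnm
  have hv : (k / n, l / n) ∈ Dia := by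
    show |k / n| + |l / n| ≤ 1
    rw [abs_of_nonneg (by have := hx.trans hxk; positivity),
      abs_of_nonneg (by have := hy.trans hyl; positivity), ← add_div, div_le_one hn0]
    exact hkl
  rw [← le_div_iff₀' hm0]
  apply ciSup_le
  intro h
  rw [le_div_iff₀ hm0]
  have h5 := le_rate hv (|h.1|, |h.2|)
  rw [Lam_abs] at h5
  simp only at h5
  have h6 := mul_le_mul_of_nonneg_left h5 hn0.le
  have e1 : (n : ℝ) * (|h.1| * (k / n) + |h.2| * (l / n) - Lam h) =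
      |h.1| * k + |h.2| * l - n * Lam h := by field_simp
  have e2 : (h.1 * (x / m) + h.2 * (y / m) - Lam h) * m = h.1 * x + h.2 * y - m * Lam h := by
    field_simp
  rw [e1] at h6
  rw [e2]
  have h7 : h.1 * x ≤ |h.1| * k :=
    (mul_le_mul_of_nonneg_right (le_abs_self h.1) hx).trans
      (mul_le_mul_of_nonneg_left hxk (abs_nonneg _))
  have h8 : h.2 * y ≤ |h.2| * l :=
    (mul_le_mul_of_nonneg_right (le_abs_self h.2) hy).trans
      (mul_le_mul_of_nonneg_left hyl (abs_nonneg _))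
  have h9 := mul_le_mul_of_nonneg_right hnm' (Lam_nonneg h)
  linarith

/-- the rate function is even in each coordinate -/
theorem rate_sgn {v : ℝ × ℝ} (hv : v ∈ Dia) {s t : ℝ} (hs : |s| = 1) (ht : |t| = 1) :
    Rate (s * v.1, t * v.2) ≤ Rate v := by
  apply ciSup_le
  intro h
  have h1 := le_rate hv (s * h.1, t * h.2)
  have h2 : Lam (s * h.1, t * h.2) = Lam h := by
    have h3 := Lam_abs (s * h.1, t * h.2)
    simp only [abs_mul, hs, ht, one_mul] at h3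
    rw [← h3, Lam_abs]
  rw [h2] at h1
  simp only at h1
  have e1 : h.1 * (s * v.1) + h.2 * (t * v.2) = s * h.1 * v.1 + t * h.2 * v.2 := by ring
  linarith

theorem rate_abs {v : ℝ × ℝ} (hv : v ∈ Dia) : Rate (|v.1|, |v.2|) = Rate v := by
  have hv' : (|v.1|, |v.2|) ∈ Dia := by
    show |(|v.1|)| + |(|v.2|)| ≤ 1
    rw [abs_abs, abs_abs]
    exact hv
  have h1 : ∀ x : ℝ, ∃ s : ℝ, |s| = 1 ∧ s * x = |x| ∧ s * |x| = x := by
    intro x
    rcases abs_choice x with h | h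
    · exact ⟨1, by norm_num, by rw [h, one_mul], by rw [h, one_mul]⟩
    · exact ⟨-1, by norm_num, by rw [h]; ring, by rw [h]; ring⟩
  obtain ⟨s, s1, s2, s3⟩ := h1 v.1
  obtain ⟨t, t1, t2, t3⟩ := h1 v.2
  apply le_antisymm
  · have h2 := rate_sgn hv s1 t1
    rwa [s2, t2] at h2
  · have h2 := rate_sgn hv' s1 t1
    simp only at h2
    rwa [s3, t3] at h2

theorem rate_pos {v : ℝ × ℝ} (hv : v ∈ Dia) (hv0 : v ≠ 0) : 0 < Rate v := by
  have hv1 : |v.1| + |v.2| ≤ 1 := hv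
  have a1 := abs_nonneg v.1
  have a2 := abs_nonneg v.2
  have hv' : (|v.1|, |v.2|) ∈ Dia := by
    show |(|v.1|)| + |(|v.2|)| ≤ 1
    rw [abs_abs, abs_abs]
    exact hv
  rw [← rate_abs hv]
  rcases eq_or_ne v.1 0 with h | h
  · have h2 : v.2 ≠ 0 := by
      intro h2
      exact hv0 (Prod.ext h h2)
    have h3 : 0 < |v.2| := abs_pos.2 h2
    have h4 := WL.R_pos h3 (by linarith)
    have h5 := rate_mono (u := (0, |v.2|)) hv' le_rfl a2 a1 le_rfl
    have h6 : Rate ((0 : ℝ), |v.2|) = Rate (|v.2|, 0) := by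
      have h7 : ((|v.2|, 0) : ℝ × ℝ) ∈ Dia := dia_one a2 (by linarith)
      exact rate_sw h7
    unfold R at h4
    linarith
  · have h3 : 0 < |v.1| := abs_pos.2 h
    have h4 := WL.R_pos h3 (by linarith)
    have h5 := rate_mono (u := (|v.1|, 0)) hv' a1 le_rfl le_rfl a2
    unfold R at h4
    linarith

/-- pairs of half-plane words -/
theorem sq_hp {n m : ℕ} (hm : 2 * m + 1 ≤ 2 * n - 1) {x y : ℤ} (hx : 1 ≤ x) :
    gs m (fun l => hp (-y) x l x y) ^ 2 ≤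
      mu * ((m + 1 : ℕ) : ℝ) ^ 2 * gs (2 * n - 1) (cq (Wh x (y + 1))) := by
  have hmu := mu_pos
  have hterm : ∀ p ∈ range (m + 1) ×ˢ range (m + 1),
      ((hp (-y) x p.1 x y : ℝ) / mu ^ p.1) * ((hp (-y) x p.2 x y : ℝ) / mu ^ p.2) ≤
      mu * gs (2 * n - 1) (cq (Wh x (y + 1))) := by
    intro p hp'
    rw [Finset.mem_product, Finset.mem_range, Finset.mem_range] at hp'
    have h1 : (hp (-y) x p.1 x y : ℝ) * hp (-y) x p.2 x y ≤
        cq (Wh x (y + 1)) (p.1 + p.2 + 1) := by exact_mod_cast two_hp hx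
    have h2 := le_gs (M := 2 * n - 1) (m := p.1 + p.2 + 1) (cq (Wh x (y + 1))) (by omega)
    calc ((hp (-y) x p.1 x y : ℝ) / mu ^ p.1) * ((hp (-y) x p.2 x y : ℝ) / mu ^ p.2)
        = mu * (((hp (-y) x p.1 x y : ℝ) * hp (-y) x p.2 x y) / mu ^ (p.1 + p.2 + 1)) := by
          rw [pow_succ, pow_add]
          field_simp
      _ ≤ mu * ((cq (Wh x (y + 1)) (p.1 + p.2 + 1) : ℝ) / mu ^ (p.1 + p.2 + 1)) := by
          apply mul_le_mul_of_nonneg_left _ hmu.le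
          exact div_le_div_of_nonneg_right h1 (pow_pos hmu _).le
      _ ≤ _ := mul_le_mul_of_nonneg_left h2 hmu.le
  have hsum := Finset.sum_le_card_nsmul _ _ _ hterm
  rw [Finset.card_product, Finset.card_range, nsmul_eq_mul] at hsum
  have e : gs m (fun l => hp (-y) x l x y) ^ 2 = ∑ p ∈ range (m + 1) ×ˢ range (m + 1),
      ((hp (-y) x p.1 x y : ℝ) / mu ^ p.1) * ((hp (-y) x p.2 x y : ℝ) / mu ^ p.2) := by
    unfold gs
    rw [sq, Finset.sum_mul_sum, ← Finset.sum_product']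
  rw [e]
  refine hsum.trans (le_of_eq ?_)
  push_cast
  ring

/-- **the joint tail of the width and of the height**, lower bound -/
theorem joint_lower : ∃ K : ℝ, 0 ≤ K ∧ ∀ n : ℕ, 2 ≤ n → ∀ k l : ℤ, 1 ≤ k → 1 ≤ l → k + l ≤ n →
    Real.exp (-(2 * n * Rate ((k : ℝ) / n, (l : ℝ) / n)) - K * Real.log n ^ 2) ≤
    ({f : ZMod (2 * n) → ℤ × ℤ | IsLoop (2 * n) f ∧ (∃ i j, k ≤ (f i).1 - (f j).1) ∧
      ∃ i j, l ≤ (f i).2 - (f j).2}.ncard : ℝ) / ln n := by
  obtain ⟨K1, hK1, h1⟩ := a_lower2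
  obtain ⟨K2, hK2, h2⟩ := a_le_hp
  obtain ⟨K3, hK3, h3⟩ := gs_cq
  obtain ⟨K4, hK4, h4⟩ := ln_le
  refine ⟨4 * (2 * (K1 + K2) + 12 + K3 + 6) + K4, by positivity, ?_⟩
  intro n hn k l hk hl hkl
  have hn0 : (0 : ℝ) < n := by exact_mod_cast (by omega : 0 < n)
  have hn2 : (2 : ℝ) ≤ n := by exact_mod_cast hn
  have hmu := mu_pos
  have hmu1 := one_le_mu
  have hN2 : 2 ≤ 2 * n := by omega
  obtain ⟨m, hm1, hm2, hm3⟩ : ∃ m : ℕ, n ≤ m ∧ m ≤ n + 1 ∧ (k + (l - 1) - m) % 2 = 0 := by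
    rcases Int.emod_two_eq_zero_or_one (k + (l - 1) - n) with h | h
    · exact ⟨n, le_rfl, by omega, h⟩
    · exact ⟨n + 1, by omega, le_rfl, by push_cast; omega⟩
  have hne : (k, l - 1) ≠ ((0, 0) : ℤ × ℤ) := by
    intro h
    have := (Prod.mk.inj h).1
    omega
  have hlt : |k| + |l - 1| < m := by
    rw [abs_of_nonneg (by omega : (0 : ℤ) ≤ k), abs_of_nonneg (by omega : (0 : ℤ) ≤ l - 1)]
    omega
  have s1 := h1 (2 * n) m (by omega) (by omega) k (l - 1) hne hm3 hlt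
  have s2 := h2 (2 * n) hN2 (m - 2) (by omega) (-(l - 1)) k k (l - 1) (by
    unfold fn; simp only; nlinarith)
  have s3 := h3 n (by omega) (Wh k l) (stab_Wh k l)
  have s4 := sq_hp (n := n) (m := m - 2) (by omega) (x := k) (y := l - 1) hk
  rw [sub_add_cancel] at s4
  have s5 : (cq' (Wh k l) (2 * n - 1) : ℝ) ≤
      ({f : ZMod (2 * n) → ℤ × ℤ | IsLoop (2 * n) f ∧ (∃ i j, k ≤ (f i).1 - (f j).1) ∧
      ∃ i j, l ≤ (f i).2 - (f j).2}.ncard : ℝ) := by
    have h6 := cq_loops (n := n) (by omega) (Q := Wh k l)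
      (P := fun f => (∃ i j, k ≤ (f i).1 - (f j).1) ∧ ∃ i j, l ≤ (f i).2 - (f j).2) (by
        rintro V ⟨-, -, ⟨i, j, hij⟩, i', j', hij'⟩ hlen
        have hc : ∀ i : ℕ, ∃ z : ZMod (2 * n), path V z.val = path V i := by
          intro i
          have : NeZero (2 * n) := ⟨by omega⟩
          rcases Nat.lt_or_ge i (2 * n) with h | h
          · exact ⟨(i : ZMod (2 * n)), by rw [ZMod.val_cast_of_lt h]⟩
          · refine ⟨((2 * n - 1 : ℕ) : ZMod (2 * n)), ?_⟩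
            rw [ZMod.val_cast_of_lt (by omega), path_ge (by omega : V.length ≤ 2 * n - 1),
              path_ge (by omega : V.length ≤ i)]
        obtain ⟨z1, e1⟩ := hc i
        obtain ⟨z2, e2⟩ := hc j
        obtain ⟨z3, e3⟩ := hc i'
        obtain ⟨z4, e4⟩ := hc j'
        exact ⟨⟨z1, z2, by simp only; rw [e1, e2]; exact hij⟩, z3, z4, by
          simp only; rw [e3, e4]; exact hij'⟩)
    exact_mod_cast h6
  obtain ⟨l0, l1⟩ := h4 n hn
  -- the exponent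
  have hrate : m * Rate ((k : ℝ) / m, ((l - 1 : ℤ) : ℝ) / m) ≤
      n * Rate ((k : ℝ) / n, (l : ℝ) / n) := by
    apply rate_shift (by omega) hm1
    · exact_mod_cast (by omega : (0 : ℤ) ≤ k)
    · exact_mod_cast (by omega : (0 : ℤ) ≤ l - 1)
    · exact le_rfl
    · exact_mod_cast (by omega : l - 1 ≤ l)
    · exact_mod_cast hkl
  obtain ⟨E, hE⟩ : ∃ E : ℝ, E = n * Rate ((k : ℝ) / n, (l : ℝ) / n) := ⟨_, rfl⟩
  obtain ⟨G, hG⟩ : ∃ G : ℝ, G = gs (m - 2) (fun t => hp (-(l - 1)) k t k (l - 1)) := ⟨_, rfl⟩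
  obtain ⟨S, hS⟩ : ∃ S : ℝ, S = gs (2 * n - 1) (cq (Wh k l)) := ⟨_, rfl⟩
  obtain ⟨T, hT⟩ : ∃ T : ℝ, T = ({f : ZMod (2 * n) → ℤ × ℤ | IsLoop (2 * n) f ∧
      (∃ i j, k ≤ (f i).1 - (f j).1) ∧ ∃ i j, l ≤ (f i).2 - (f j).2}.ncard : ℝ) := ⟨_, rfl⟩
  rw [← hE] at hrate
  rw [← hG] at s2 s4
  rw [← hS] at s3 s4
  rw [← hT] at s5
  rw [← hT]
  have hS0 : 0 ≤ S := by rw [hS]; exact gs_nonneg _ _
  have hG0 : 0 ≤ G := by rw [hG]; exact gs_nonneg _ _
  have q1 := q_pos (2 * n) K1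
  have q2 := q_pos (2 * n) K2
  have q3 := q_pos (2 * n) K3
  have t1 : Real.exp (-E) ≤ q (2 * n) (K1 + K2) * G := by
    calc Real.exp (-E) ≤ Real.exp (-(m * Rate ((k : ℝ) / m, ((l - 1 : ℤ) : ℝ) / m))) :=
          Real.exp_le_exp.2 (by linarith)
      _ ≤ q (2 * n) K1 * (q (2 * n) K2 * G) := s1.trans (mul_le_mul_of_nonneg_left s2 q1.le)
      _ = (q (2 * n) K1 * q (2 * n) K2) * G := by ring
      _ = _ := by rw [q_mul]
  have hcard : mu * ((m - 2 + 1 : ℕ) : ℝ) ^ 2 ≤ q (2 * n) 12 := by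
    have g1 := pow_le_q hN2 4
    norm_num at g1
    refine le_trans ?_ g1
    have g2 : ((m - 2 + 1 : ℕ) : ℝ) ≤ n := by exact_mod_cast (by omega : m - 2 + 1 ≤ n)
    have g3 : mu ≤ 4 := mu_le_four
    have g4 : ((m - 2 + 1 : ℕ) : ℝ) ^ 2 ≤ (n : ℝ) ^ 2 :=
      pow_le_pow_left₀ (Nat.cast_nonneg _) g2 2
    calc mu * ((m - 2 + 1 : ℕ) : ℝ) ^ 2 ≤ 4 * (n : ℝ) ^ 2 :=
          mul_le_mul g3 g4 (by positivity) (by norm_num)
      _ ≤ (2 * (n : ℝ)) ^ 4 := by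
          have g5 : (1 : ℝ) ≤ (n : ℝ) ^ 2 := one_le_pow₀ (by linarith)
          have g6 : (2 * (n : ℝ)) ^ 4 = 16 * ((n : ℝ) ^ 2 * (n : ℝ) ^ 2) := by ring
          rw [g6]
          nlinarith
  have t2 : Real.exp (-E) ^ 2 ≤ q (2 * n) (2 * (K1 + K2) + 12) * S := by
    calc Real.exp (-E) ^ 2 ≤ (q (2 * n) (K1 + K2) * G) ^ 2 :=
          pow_le_pow_left₀ (Real.exp_pos _).le t1 2
      _ = (q (2 * n) (K1 + K2) * q (2 * n) (K1 + K2)) * G ^ 2 := by ring
      _ ≤ (q (2 * n) (K1 + K2) * q (2 * n) (K1 + K2)) *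
          (mu * ((m - 2 + 1 : ℕ) : ℝ) ^ 2 * S) := by
          apply mul_le_mul_of_nonneg_left s4
          have := q_pos (2 * n) (K1 + K2)
          positivity
      _ ≤ (q (2 * n) (K1 + K2) * q (2 * n) (K1 + K2)) * (q (2 * n) 12 * S) := by
          apply mul_le_mul_of_nonneg_left (mul_le_mul_of_nonneg_right hcard hS0)
          have := q_pos (2 * n) (K1 + K2)
          positivity
      _ = (q (2 * n) (K1 + K2) * q (2 * n) (K1 + K2) * q (2 * n) 12) * S := by ring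
      _ = _ := by rw [q_mul, q_mul]; congr 2; ring
  have t3 : S * mu ^ (2 * n - 1) ≤ q (2 * n) K3 * T :=
    s3.trans (mul_le_mul_of_nonneg_left s5 q3.le)
  have hT0 : 0 ≤ T := by rw [hT]; exact Nat.cast_nonneg _
  have hmu4 : mu ≤ q (2 * n) 6 := by
    have g1 := pow_le_q hN2 2
    norm_num at g1
    refine le_trans (mu_le_four.trans ?_) g1
    nlinarith
  have t4 : Real.exp (-E) ^ 2 * mu ^ (2 * n) ≤
      q (2 * n) (2 * (K1 + K2) + 12 + K3 + 6) * T := by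
    have e1 : mu ^ (2 * n) = mu ^ (2 * n - 1) * mu := by
      rw [← pow_succ]
      congr 1
      omega
    have hq' := q_pos (2 * n) (2 * (K1 + K2) + 12)
    calc Real.exp (-E) ^ 2 * mu ^ (2 * n)
        ≤ (q (2 * n) (2 * (K1 + K2) + 12) * S) * mu ^ (2 * n) :=
          mul_le_mul_of_nonneg_right t2 (pow_pos hmu _).le
      _ = q (2 * n) (2 * (K1 + K2) + 12) * (S * mu ^ (2 * n - 1)) * mu := by rw [e1]; ring
      _ ≤ q (2 * n) (2 * (K1 + K2) + 12) * (q (2 * n) K3 * T) * mu := by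
          apply mul_le_mul_of_nonneg_right (mul_le_mul_of_nonneg_left t3 hq'.le) hmu.le
      _ ≤ q (2 * n) (2 * (K1 + K2) + 12) * (q (2 * n) K3 * T) * q (2 * n) 6 := by
          apply mul_le_mul_of_nonneg_left hmu4
          positivity
      _ = (q (2 * n) (2 * (K1 + K2) + 12) * q (2 * n) K3 * q (2 * n) 6) * T := by ring
      _ = _ := by rw [q_mul, q_mul]
  have hq : ∀ K : ℝ, 0 ≤ K → q (2 * n) K ≤ Real.exp (4 * K * Real.log n ^ 2) := by
    intro K hK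
    unfold q
    apply Real.exp_le_exp.2
    have hl := log_two_mul hn
    have hl0 : 0 ≤ Real.log ((2 * n : ℕ) : ℝ) := (log_pos' hN2).le
    have : Real.log ((2 * n : ℕ) : ℝ) ^ 2 ≤ (2 * Real.log n) ^ 2 := pow_le_pow_left₀ hl0 hl 2
    nlinarith [mul_le_mul_of_nonneg_left this hK]
  rw [le_div_iff₀ l0]
  have e2 : Real.exp (-E) ^ 2 = Real.exp (-(2 * E)) := by
    rw [← Real.exp_nat_mul]
    congr 1
    push_cast
    ring
  obtain ⟨A, hA⟩ : ∃ A : ℝ, A = 2 * (K1 + K2) + 12 + K3 + 6 := ⟨_, rfl⟩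
  have hA0 : 0 ≤ A := by rw [hA]; positivity
  rw [← hA] at t4
  rw [← hA]
  have e3 : Real.exp (-(2 * (n : ℝ) * Rate ((k : ℝ) / n, (l : ℝ) / n)) -
      (4 * A + K4) * Real.log n ^ 2) =
      Real.exp (-(2 * E)) * Real.exp (-(4 * A * Real.log n ^ 2)) *
        Real.exp (-(K4 * Real.log n ^ 2)) := by
    rw [← Real.exp_add, ← Real.exp_add, hE]
    congr 1
    ring
  have e4 : Real.exp (-(K4 * Real.log n ^ 2)) * (ln n : ℝ) ≤ mu ^ (2 * n) := by
    calc Real.exp (-(K4 * Real.log n ^ 2)) * (ln n : ℝ)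
        ≤ Real.exp (-(K4 * Real.log n ^ 2)) * (mu ^ (2 * n) * q n K4) :=
          mul_le_mul_of_nonneg_left l1 (Real.exp_pos _).le
      _ = (Real.exp (-(K4 * Real.log n ^ 2)) * q n K4) * mu ^ (2 * n) := by ring
      _ = mu ^ (2 * n) := by
          unfold q
          rw [← Real.exp_add, neg_add_cancel, Real.exp_zero, one_mul]
  rw [e3, mul_assoc]
  calc Real.exp (-(2 * E)) * Real.exp (-(4 * A * Real.log n ^ 2)) *
        (Real.exp (-(K4 * Real.log n ^ 2)) * (ln n : ℝ))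
      ≤ Real.exp (-(2 * E)) * Real.exp (-(4 * A * Real.log n ^ 2)) * mu ^ (2 * n) :=
        mul_le_mul_of_nonneg_left e4 (by positivity)
    _ = Real.exp (-(4 * A * Real.log n ^ 2)) * (Real.exp (-E) ^ 2 * mu ^ (2 * n)) := by
        rw [e2]; ring
    _ ≤ Real.exp (-(4 * A * Real.log n ^ 2)) * (q (2 * n) A * T) :=
        mul_le_mul_of_nonneg_left t4 (Real.exp_pos _).le
    _ ≤ Real.exp (-(4 * A * Real.log n ^ 2)) * (Real.exp (4 * A * Real.log n ^ 2) * T) := by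
        apply mul_le_mul_of_nonneg_left _ (Real.exp_pos _).le
        exact mul_le_mul_of_nonneg_right (hq A hA0) hT0
    _ = T := by
        rw [← mul_assoc, ← Real.exp_add, neg_add_cancel, Real.exp_zero, one_mul]

end Pool.Agent.T6.H44.PG
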