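import Pool.Agent.T6.H44.PG.Up2
import Pool.Agent.T6.H44.PG.Low
import Pool.Agent.T6.H44.AR.P2
import Pool.Agent.T6.H44.AR.P1
import Pool.Agent.T6.H44.AR.LAT

/-!
The exact exponential rate of the tail of the area.
-/

set_option autoImplicit false

namespace Pool.Agent.T6.H44.PG

open Pool.Agent.TH795.EP Pool.Agent.TH795.EP2 Pool.Agent.TH795.SE2 Pool.Agent.TH262.SawL
  Pool.Agent.Y981.L2 H981 Finset Pool.Agent.T6.H53.AL Filter Topology

/-- the variational problem -/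
noncomputable def Phi (u : ℝ) : ℝ := sInf (AR.cost Rate '' {E | AR.Adm u E})

theorem rate_nonneg {v : ℝ × ℝ} (hv : v ∈ Dia) : 0 ≤ Rate v := by
  have h2 := le_rate hv (0, 0)
  have h3 : Lam (0, 0) = 0 := psi_zero
  rw [h3] at h2
  simpa using h2

theorem rate_contOn : ContinuousOn Rate {v : ℝ × ℝ | |v.1| + |v.2| < 1} := by
  apply convex_rate.continuousOn_interior.mono
  intro v hv
  rw [mem_interior]
  refine ⟨{v : ℝ × ℝ | |v.1| + |v.2| < 1}, ?_, ?_, hv⟩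
  · intro w hw
    have hw' : |w.1| + |w.2| < 1 := hw
    exact hw'.le
  · exact isOpen_lt (by fun_prop) continuous_const

theorem adm_dia {u : ℝ} {E : List (ℝ × (ℝ × ℝ))} (h : AR.Adm u E) {e : ℝ × (ℝ × ℝ)} (he : e ∈ E) :
    (e.2.1 / e.1, e.2.2 / e.1) ∈ Dia := by
  obtain ⟨h1, h2⟩ := h.1 e he
  show |e.2.1 / e.1| + |e.2.2 / e.1| ≤ 1
  rw [abs_div, abs_div, abs_of_pos h1, ← add_div, div_le_one h1]
  exact h2

theorem cost_nonneg {u : ℝ} {E : List (ℝ × (ℝ × ℝ))} (h : AR.Adm u E) : 0 ≤ AR.cost Rate E := by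
  unfold AR.cost
  apply List.sum_nonneg
  intro x hx
  rw [List.mem_map] at hx
  obtain ⟨e, he, rfl⟩ := hx
  exact mul_nonneg (h.1 e he).1.le (rate_nonneg (adm_dia h he))

theorem phi_le {u : ℝ} {E : List (ℝ × (ℝ × ℝ))} (h : AR.Adm u E) : Phi u ≤ AR.cost Rate E := by
  unfold Phi
  apply csInf_le
  · refine ⟨0, ?_⟩
    rintro x ⟨F, hF, rfl⟩
    exact cost_nonneg hF
  · exact ⟨E, h, rfl⟩

theorem adm_square {u : ℝ} (hu : u ≤ 1 / 4) : AR.Adm u
    [(1 / 2, (0, 1 / 2)), (1 / 2, (1 / 2, 0)), (1 / 2, (0, -(1 / 2))), (1 / 2, (-(1 / 2), 0))] := by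
  refine ⟨?_, ?_, ?_, ?_⟩
  · intro e he
    simp only [List.mem_cons, List.not_mem_nil, or_false] at he
    rcases he with rfl | rfl | rfl | rfl <;> norm_num [abs_of_pos, abs_neg]
  · norm_num
  · norm_num
  · simp only [List.map_cons, List.map_nil, AR.S2, AR.det, List.sum_cons, List.sum_nil,
      Prod.fst_add, Prod.snd_add, Prod.fst_zero, Prod.snd_zero]
    norm_num
    linarith

theorem exists_near {u : ℝ} (hu : u ≤ 1 / 4) {ε : ℝ} (hε : 0 < ε) :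
    ∃ E, AR.Adm u E ∧ AR.cost Rate E ≤ Phi u + ε := by
  have hne : (AR.cost Rate '' {E | AR.Adm u E}).Nonempty := ⟨_, _, adm_square hu, rfl⟩
  obtain ⟨x, ⟨E, hE, rfl⟩, hx⟩ := exists_lt_of_csInf_lt hne
    (show sInf (AR.cost Rate '' {E | AR.Adm u E}) < Phi u + ε by unfold Phi; linarith)
  exact ⟨E, hE, hx.le⟩

theorem pert {u : ℝ} (hu : 0 < u) (hu4 : u < 1 / 4) {ε : ℝ} (hε : 0 < ε) : ∃ δ : ℝ, 0 < δ ∧
    ∀ E, AR.Adm (u - δ) E → ∃ E', AR.AdmS (u + δ) E' ∧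
      AR.cost Rate E' ≤ AR.cost Rate E + ε :=
  AR.p2 (AR.p1 AR.r1 AR.r2) Rate convex_rate R_zero (fun _ hv => rate_nonneg hv)
    ⟨Real.log mu, fun _ hv => rate_le hv⟩ u hu hu4 ε hε

theorem admS_adm {u δ : ℝ} (hδ : 0 ≤ δ) {E : List (ℝ × (ℝ × ℝ))} (h : AR.AdmS (u + δ) E) :
    AR.Adm u E := by
  obtain ⟨h1, h2, h3, h4⟩ := h
  exact ⟨fun e he => ⟨(h1 e he).1, (h1 e he).2.le⟩, h2, h3, by linarith⟩

/-! ### lower bound -/

theorem prod_lower {K : ℝ} (hK : ∀ N m : ℕ, 2 ≤ m → m ≤ N → ∀ x y : ℤ, (x, y) ≠ (0, 0) →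
    (x + y - m) % 2 = 0 → |x| + |y| ≤ m →
    Real.exp (-(m * Rate ((x : ℝ) / m, (y : ℝ) / m))) ≤ q N K * ((a m x y : ℝ) / mu ^ m))
    (N : ℕ) (F : List (ℕ × (ℤ × ℤ))) (hF : ∀ e ∈ F, e.1 ≤ N ∧ e.2 ≠ 0 ∧ 2 ≤ e.1 ∧
      (e.2.1 + e.2.2 - e.1) % 2 = 0 ∧ |e.2.1| + |e.2.2| ≤ (e.1 : ℤ)) :
    Real.exp (-(F.map (fun e => (e.1 : ℝ) * Rate ((e.2.1 : ℝ) / e.1, (e.2.2 : ℝ) / e.1))).sum) ≤
      q N (K * F.length) * (F.map (fun e => (a e.1 e.2.1 e.2.2 : ℝ) / mu ^ e.1)).prod := by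
  induction F with
  | nil =>
    simp only [List.map_nil, List.sum_nil, neg_zero, Real.exp_zero, List.length_nil,
      Nat.cast_zero, mul_zero, List.prod_nil, mul_one]
    unfold q
    simp
  | cons e F ih =>
    obtain ⟨g0, g1, g2, g3, g4⟩ := hF e (by simp)
    have h1 := hK N e.1 g2 g0 e.2.1 e.2.2 g1 g3 g4
    have h2 := ih (fun e' he' => hF e' (by simp [he']))
    rw [List.map_cons, List.sum_cons, List.map_cons, List.prod_cons, neg_add, Real.exp_add,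
      List.length_cons]
    refine (mul_le_mul h1 h2 (Real.exp_pos _).le ?_).trans (le_of_eq ?_)
    · exact (Real.exp_pos _).le.trans h1
    · push_cast
      rw [mul_add, mul_one, add_comm (K * (F.length : ℝ)) K, ← q_mul]
      ring

theorem par_real {n : ℕ} (u : ℝ) : par n u = (an n ⌈u⌉₊ : ℝ) / ln n := by
  unfold par an ln
  simp only [Nat.ceil_le]

theorem lower {u : ℝ} (hu : 0 < u) (hu4 : u < 1 / 4) {ε : ℝ} (hε : 0 < ε) :
    ∀ᶠ n : ℕ in atTop, 0 < par n (u * (n : ℝ) ^ 2) ∧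
      -Phi u - ε ≤ Real.log (par n (u * (n : ℝ) ^ 2)) / n := by
  obtain ⟨K1, hK1, h1⟩ := low_geo
  obtain ⟨K2, hK2, h2⟩ := a_lower
  obtain ⟨K3, hK3, h3⟩ := ln_le
  obtain ⟨E0, hE0, hE0c⟩ := exists_near hu4.le (show 0 < ε / 4 by linarith)
  obtain ⟨δ, hδ, hp⟩ := pert hu hu4 (show 0 < ε / 4 by linarith)
  obtain ⟨E1, hE1, hE1c⟩ := hp E0 ⟨hE0.1, hE0.2.1, hE0.2.2.1, by have := hE0.2.2.2; linarith⟩
  obtain ⟨n0, hn0⟩ := AR.lat Rate rate_contOn R_zero (u + δ) u E1 (by linarith) hE1 (ε / 4)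
    (by linarith)
  obtain ⟨C, hC, hlog⟩ := log_dom (K2 * E1.length + K1 * (E1.length + 1) + K3)
    (show 0 < ε / 16 by linarith)
  filter_upwards [eventually_ge_atTop n0, eventually_ge_atTop 2,
    tendsto_natCast_atTop_atTop.eventually_ge_atTop (8 * C / ε)] with n hn hn2 hnC
  obtain ⟨F, hF1, hF2, hF3, hF4, hF5, hF6⟩ := hn0 n hn
  have hnpos : (0 : ℝ) < n := by exact_mod_cast (by omega : 0 < n)
  have hmu := mu_pos
  have hA : 0 < u * (n : ℝ) ^ 2 := by positivity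
  have g1 := h1 n hn2 F (fun e he => (hF2 e he).1) hF3 hF4 _ hA hF5
  have g2 := prod_lower h2 (2 * n) F (fun e he => by
    obtain ⟨f1, f2, f3, f4⟩ := hF2 e he
    refine ⟨?_, f1, f2, f3, f4⟩
    have : e.1 ≤ (F.map Prod.fst).sum := List.single_le_sum (by simp) _ (List.mem_map_of_mem he)
    omega)
  obtain ⟨g3, g4⟩ := h3 n hn2
  have hN2 : 2 ≤ 2 * n := by omega
  have hlen : (F.length : ℝ) ≤ E1.length := by exact_mod_cast hF1
  obtain ⟨G, hG⟩ : ∃ G, G = (F.map (fun e => (a e.1 e.2.1 e.2.2 : ℝ) / mu ^ e.1)).prod := ⟨_, rfl⟩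
  rw [← hG] at g1 g2
  obtain ⟨X, hX⟩ : ∃ X : ℝ, X = (an n ⌈u * (n : ℝ) ^ 2⌉₊ : ℝ) := ⟨_, rfl⟩
  rw [← hX] at g1
  obtain ⟨c1, hc1⟩ : ∃ c1, c1 = (F.map (fun e => (e.1 : ℝ) *
    Rate ((e.2.1 : ℝ) / e.1, (e.2.2 : ℝ) / e.1))).sum := ⟨_, rfl⟩
  rw [← hc1] at g2 hF6
  have hX0 : 0 ≤ X := by rw [hX]; exact Nat.cast_nonneg _
  have q1 := q_pos (2 * n) (K2 * F.length)
  have q2 := q_pos (2 * n) (K1 * (F.length + 1))
  have q3 := q_pos (2 * n) (K2 * E1.length + K1 * (E1.length + 1))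
  have hkey : Real.exp (-c1) * mu ^ (2 * n) ≤
      q (2 * n) (K2 * E1.length + K1 * (E1.length + 1)) * X := by
    calc Real.exp (-c1) * mu ^ (2 * n) ≤ (q (2 * n) (K2 * F.length) * G) * mu ^ (2 * n) :=
          mul_le_mul_of_nonneg_right g2 (pow_pos hmu _).le
      _ = q (2 * n) (K2 * F.length) * (G * mu ^ (2 * n)) := by ring
      _ ≤ q (2 * n) (K2 * F.length) * (q (2 * n) (K1 * (F.length + 1)) * X) :=
          mul_le_mul_of_nonneg_left g1 q1.le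
      _ = q (2 * n) (K2 * F.length + K1 * (F.length + 1)) * X := by rw [← mul_assoc, q_mul]
      _ ≤ _ := by
          apply mul_le_mul_of_nonneg_right _ hX0
          apply q_mono hN2
          have f1 := mul_le_mul_of_nonneg_left hlen hK2
          have f2 := mul_le_mul_of_nonneg_left hlen hK1
          linarith
  have hXpos : 0 < X := by
    by_contra hcon
    have hX' : X = 0 := le_antisymm (not_lt.1 hcon) hX0
    rw [hX', mul_zero] at hkey
    have : 0 < Real.exp (-c1) * mu ^ (2 * n) := by positivity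
    linarith
  have hpar : par n (u * (n : ℝ) ^ 2) = X / ln n := by rw [par_real, hX]
  have hpos : 0 < par n (u * (n : ℝ) ^ 2) := by
    rw [hpar]
    exact div_pos hXpos g3
  refine ⟨hpos, ?_⟩
  rw [le_div_iff₀ hnpos, hpar, Real.log_div hXpos.ne' g3.ne']
  have l1 : -c1 + (2 * n : ℕ) * Real.log mu ≤
      (K2 * E1.length + K1 * (E1.length + 1)) * Real.log ((2 * n : ℕ) : ℝ) ^ 2 + Real.log X := by
    have := Real.log_le_log (by positivity) hkey
    rw [Real.log_mul (Real.exp_pos _).ne' (pow_pos hmu _).ne', Real.log_exp, Real.log_pow,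
      Real.log_mul q3.ne' hXpos.ne'] at this
    unfold q at this
    rwa [Real.log_exp] at this
  have l2 : Real.log (ln n) ≤ (2 * n : ℕ) * Real.log mu + K3 * Real.log ((2 * n : ℕ) : ℝ) ^ 2 := by
    have := Real.log_le_log g3 g4
    rw [Real.log_mul (pow_pos hmu _).ne' (q_pos _ _).ne', Real.log_pow] at this
    unfold q at this
    rw [Real.log_exp] at this
    refine this.trans ?_
    have f1 : Real.log (n : ℝ) ≤ Real.log ((2 * n : ℕ) : ℝ) := by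
      apply Real.log_le_log hnpos
      push_cast
      linarith
    have f2 : 0 ≤ Real.log (n : ℝ) := Real.log_nonneg (by exact_mod_cast (by omega : 1 ≤ n))
    have f3 := mul_le_mul_of_nonneg_left (pow_le_pow_left₀ f2 f1 2) hK3
    linarith
  have l3 := hlog (2 * n)
  have l4 : C ≤ ε / 8 * n := by
    rw [div_le_iff₀ hε] at hnC
    linarith
  have l5 : (n : ℝ) * (AR.cost Rate E1 + ε / 4) ≤ n * (Phi u + 3 * ε / 4) :=
    mul_le_mul_of_nonneg_left (by linarith) hnpos.le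
  push_cast at l1 l2 l3
  nlinarith

/-! ### upper bound -/

theorem log_prod_le {K : ℝ} (hK0 : 0 ≤ K) (hK : ∀ n : ℕ, 2 ≤ n → ∀ x y : ℤ, 0 < a n x y →
    Real.log (a n x y) ≤ n * Real.log mu - n * Rate ((x : ℝ) / n, (y : ℝ) / n) +
      K * Real.log n ^ 2) {N : ℕ} (hN : 2 ≤ N) (F : List (ℕ × (ℤ × ℤ)))
    (hF : ∀ e ∈ F, e.1 ≤ N ∧ 1 ≤ e.1 ∧ |e.2.1| + |e.2.2| ≤ (e.1 : ℤ) ∧ 0 < a e.1 e.2.1 e.2.2) :
    0 < (F.map (fun e => a e.1 e.2.1 e.2.2)).prod ∧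
    Real.log ((F.map (fun e => a e.1 e.2.1 e.2.2)).prod : ℕ) ≤
      ((F.map Prod.fst).sum : ℕ) * Real.log mu -
      (F.map (fun e => (e.1 : ℝ) * Rate ((e.2.1 : ℝ) / e.1, (e.2.2 : ℝ) / e.1))).sum +
      F.length * (K * Real.log N ^ 2) := by
  induction F with
  | nil => simp
  | cons e F ih =>
    obtain ⟨g0, g1, g2, g3⟩ := hF e (by simp)
    obtain ⟨h1, h2⟩ := ih (fun e' he' => hF e' (by simp [he']))
    rw [List.map_cons, List.prod_cons, List.map_cons, List.sum_cons, List.map_cons, List.sum_cons,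
      List.length_cons]
    refine ⟨Nat.mul_pos g3 h1, ?_⟩
    have hN1 : (1 : ℝ) ≤ N := by exact_mod_cast (by omega : 1 ≤ N)
    have hlN : 0 ≤ Real.log (N : ℝ) := Real.log_nonneg hN1
    have h3 : Real.log (a e.1 e.2.1 e.2.2 : ℝ) ≤ e.1 * Real.log mu -
        e.1 * Rate ((e.2.1 : ℝ) / e.1, (e.2.2 : ℝ) / e.1) + K * Real.log N ^ 2 := by
      rcases Nat.lt_or_ge e.1 2 with h4 | h4
      · have h5 : e.1 = 1 := by omega
        have h6 := a_le_one (l := e.1) (by omega) e.2.1 e.2.2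
        have h7 : a e.1 e.2.1 e.2.2 = 1 := by omega
        rw [h7, Nat.cast_one, Real.log_one]
        have h8 : ((e.2.1 : ℝ) / e.1, (e.2.2 : ℝ) / e.1) ∈ Dia := by
          show |(e.2.1 : ℝ) / e.1| + |(e.2.2 : ℝ) / e.1| ≤ 1
          have : (0 : ℝ) < e.1 := by exact_mod_cast g1
          rw [abs_div, abs_div, abs_of_pos this, ← add_div, div_le_one this]
          exact_mod_cast g2
        have h9 := rate_le h8
        have h10 : 0 ≤ K * Real.log (N : ℝ) ^ 2 := by positivity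
        have h11 := mul_le_mul_of_nonneg_left h9 (Nat.cast_nonneg (α := ℝ) e.1)
        linarith
      · have h5 := hK e.1 h4 e.2.1 e.2.2 g3
        have h6 : Real.log (e.1 : ℝ) ≤ Real.log N :=
          Real.log_le_log (by exact_mod_cast (by omega : 0 < e.1)) (by exact_mod_cast g0)
        have h7 : 0 ≤ Real.log (e.1 : ℝ) :=
          Real.log_nonneg (by exact_mod_cast (by omega : 1 ≤ e.1))
        have h8 := mul_le_mul_of_nonneg_left (pow_le_pow_left₀ h7 h6 2) hK0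
        linarith
    have c1 : (0 : ℝ) < a e.1 e.2.1 e.2.2 := by exact_mod_cast g3
    have c2 : (0 : ℝ) < ((F.map (fun e => a e.1 e.2.1 e.2.2)).prod : ℕ) := by exact_mod_cast h1
    push_cast at h2 c2 ⊢
    rw [Real.log_mul c1.ne' c2.ne']
    linarith

/-- scaling of a list of integer edges -/
noncomputable def scl (n : ℕ) (F : List (ℕ × (ℤ × ℤ))) : List (ℝ × (ℝ × ℝ)) :=
  F.map (fun e => ((e.1 : ℝ) / n, ((e.2.1 : ℝ) / n, (e.2.2 : ℝ) / n)))

theorem scl_fst (n : ℕ) (F : List (ℕ × (ℤ × ℤ))) :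
    ((scl n F).map Prod.fst).sum = (((F.map Prod.fst).sum : ℕ) : ℝ) / n := by
  unfold scl
  induction F with
  | nil => simp
  | cons e F ih =>
    simp only [List.map_cons, List.sum_cons] at ih ⊢
    rw [ih]
    push_cast
    ring

theorem scl_snd (n : ℕ) (F : List (ℕ × (ℤ × ℤ))) :
    ((scl n F).map Prod.snd).sum = (((F.map Prod.snd).sum.1 : ℝ) / n,
      ((F.map Prod.snd).sum.2 : ℝ) / n) := by
  unfold scl
  induction F with
  | nil => simp; rfl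
  | cons e F ih =>
    simp only [List.map_cons, List.sum_cons] at ih ⊢
    rw [ih]
    simp only [Prod.fst_add, Prod.snd_add, Prod.mk_add_mk]
    push_cast
    rw [add_div, add_div]

theorem scl_S2 (n : ℕ) (F : List (ℕ × (ℤ × ℤ))) :
    AR.S2 ((scl n F).map Prod.snd) = ((AR.S2 (F.map Prod.snd) : ℤ) : ℝ) / (n : ℝ) ^ 2 := by
  induction F with
  | nil => simp [scl, AR.S2]
  | cons e F ih =>
    have h1 := scl_snd n F
    unfold scl at ih h1 ⊢
    rw [List.map_cons, List.map_cons, AR.S2, ih, h1, List.map_cons, AR.S2]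
    unfold AR.det
    simp only
    push_cast
    ring

theorem scl_cost {n : ℕ} (hn : 0 < n) (F : List (ℕ × (ℤ × ℤ))) :
    AR.cost Rate (scl n F) = (F.map (fun e => (e.1 : ℝ) *
      Rate ((e.2.1 : ℝ) / e.1, (e.2.2 : ℝ) / e.1))).sum / n := by
  have hn0 : (n : ℝ) ≠ 0 := by exact_mod_cast hn.ne'
  unfold AR.cost scl
  induction F with
  | nil => simp
  | cons e F ih =>
    simp only [List.map_cons, List.sum_cons] at ih ⊢
    rw [ih, div_div_div_cancel_right₀ hn0, div_div_div_cancel_right₀ hn0]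
    ring

theorem scl_adm {n : ℕ} (hn : 0 < n) {F : List (ℕ × (ℤ × ℤ))} {u : ℝ}
    (h1 : ∀ e ∈ F, 1 ≤ e.1 ∧ |e.2.1| + |e.2.2| ≤ (e.1 : ℤ))
    (h2 : (F.map Prod.fst).sum = 2 * n) (h3 : (F.map Prod.snd).sum = 0)
    (h4 : 2 * u * (n : ℝ) ^ 2 ≤ ((AR.S2 (F.map Prod.snd) : ℤ) : ℝ)) : AR.Adm u (scl n F) := by
  have hn0 : (0 : ℝ) < n := by exact_mod_cast hn
  refine ⟨?_, ?_, ?_, ?_⟩
  · intro e he
    unfold scl at he
    rw [List.mem_map] at he
    obtain ⟨e', he', rfl⟩ := he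
    obtain ⟨g1, g2⟩ := h1 e' he'
    have g3 : (0 : ℝ) < e'.1 := by exact_mod_cast g1
    refine ⟨div_pos g3 hn0, ?_⟩
    simp only
    rw [abs_div, abs_div, abs_of_pos hn0, ← add_div]
    apply div_le_div_of_nonneg_right _ hn0.le
    exact_mod_cast g2
  · rw [scl_fst, h2]
    push_cast
    field_simp
  · rw [scl_snd, h3]
    simp
  · rw [scl_S2, le_div_iff₀ (by positivity)]
    exact h4

theorem upper {u : ℝ} (hu : 0 < u) (hu4 : u < 1 / 4) {ε : ℝ} (hε : 0 < ε) :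
    ∀ᶠ n : ℕ in atTop, Real.log (par n (u * (n : ℝ) ^ 2)) / n ≤ -Phi u + ε := by
  obtain ⟨K1, hK1, h1⟩ := Y981.L2.a_le
  obtain ⟨K2, hK2, h2⟩ := le_ln
  obtain ⟨δ, hδ, hp⟩ := pert hu hu4 (show 0 < ε / 2 by linarith)
  obtain ⟨N, hN⟩ := exists_nat_gt (4 / δ)
  have hN0 : (0 : ℝ) < N := lt_trans (by positivity) hN
  have hN0' : 0 < N := by exact_mod_cast hN0
  obtain ⟨C, hC, hlog⟩ := log_dom (2 * (N + 1) + (N + 2) * K1 + K2)
    (show 0 < ε / 32 by linarith)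
  filter_upwards [lower hu hu4 hε, eventually_ge_atTop 2,
    tendsto_natCast_atTop_atTop.eventually_ge_atTop (4 * C / ε),
    tendsto_natCast_atTop_atTop.eventually_ge_atTop (2 / δ)] with n hlow hn2 hnC hnδ
  have hnpos : (0 : ℝ) < n := by exact_mod_cast (by omega : 0 < n)
  have hmu := mu_pos
  obtain ⟨hpos, -⟩ := hlow
  have hln := h2 n hn2
  have hl0 : (0 : ℝ) < ln n := lt_of_lt_of_le (by positivity) hln
  rw [par_real] at hpos ⊢
  have han0 : (0 : ℝ) < an n ⌈u * (n : ℝ) ^ 2⌉₊ := by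
    by_contra hcon
    have h0 : (an n ⌈u * (n : ℝ) ^ 2⌉₊ : ℝ) = 0 := le_antisymm (not_lt.1 hcon) (Nat.cast_nonneg _)
    rw [h0, zero_div] at hpos
    exact lt_irrefl _ hpos
  have han0' : 0 < an n ⌈u * (n : ℝ) ^ 2⌉₊ := by exact_mod_cast han0
  obtain ⟨s, hs⟩ : ∃ s, s = 2 * n / N + 1 := ⟨_, rfl⟩
  have hs1' : 1 ≤ s := by rw [hs]; exact Nat.le_add_left 1 _
  obtain ⟨F, hF1, hF2, hF3, hF4, hF5, hF6⟩ := up_main hn2 hs1' han0'
  have hsN : 2 * n / s ≤ N := by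
    have g1 : 2 * n < s * N := by
      rw [hs, mul_comm (2 * n / N + 1) N]
      exact Nat.lt_mul_div_succ _ hN0'
    have g2 : 2 * n / s < N + 1 := by
      rw [Nat.div_lt_iff_lt_mul hs1']
      calc 2 * n < s * N := g1
        _ ≤ (N + 1) * s := by nlinarith
    omega
  have hs1 : (s : ℝ) ≤ 2 * n / N + 1 := by
    rw [hs]
    push_cast
    have : ((2 * n / N : ℕ) : ℝ) ≤ ((2 * n : ℕ) : ℝ) / N := Nat.cast_div_le
    push_cast at this
    linarith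
  have hs2 : (s : ℝ) ≤ δ * n := by
    have g1 : 2 * (n : ℝ) / N ≤ δ / 2 * n := by
      rw [div_le_iff₀ hN0]
      rw [div_lt_iff₀ hδ] at hN
      nlinarith
    have g2 : 1 ≤ δ / 2 * n := by
      rw [div_le_iff₀ hδ] at hnδ
      linarith
    linarith
  have hA : u * (n : ℝ) ^ 2 ≤ ⌈u * (n : ℝ) ^ 2⌉₊ := Nat.le_ceil _
  have hadm : AR.Adm (u - δ) (scl n F) := by
    apply scl_adm (by omega) (fun e he => ⟨(hF1 e he).1, (hF1 e he).2.1⟩) hF2 hF3
    have g1 : 2 * ((⌈u * (n : ℝ) ^ 2⌉₊ : ℕ) : ℝ) ≤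
        ((AR.S2 (F.map Prod.snd) : ℤ) : ℝ) + 2 * n * s := by exact_mod_cast hF5
    nlinarith
  obtain ⟨E', hE', hE'c⟩ := hp _ hadm
  have hPhi := phi_le (admS_adm hδ.le hE')
  rw [scl_cost (by omega)] at hE'c
  obtain ⟨c1, hc1⟩ : ∃ c1, c1 = (F.map (fun e => (e.1 : ℝ) *
    Rate ((e.2.1 : ℝ) / e.1, (e.2.2 : ℝ) / e.1))).sum := ⟨_, rfl⟩
  rw [← hc1] at hE'c
  have hc1' : n * (Phi u - ε / 2) ≤ c1 := by
    have : Phi u - ε / 2 ≤ c1 / n := by linarith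
    rw [le_div_iff₀ hnpos] at this
    linarith
  obtain ⟨p1, p2⟩ := log_prod_le hK1 h1 (show 2 ≤ 2 * n by omega) F (fun e he => by
    obtain ⟨f1, f2, f3⟩ := hF1 e he
    refine ⟨?_, f1, f2, f3⟩
    have : e.1 ≤ (F.map Prod.fst).sum := List.single_le_sum (by simp) _ (List.mem_map_of_mem he)
    omega)
  rw [← hc1, hF2] at p2
  have p3 : Real.log (an n ⌈u * (n : ℝ) ^ 2⌉₊ : ℝ) ≤
      (N + 1) * (2 * Real.log (2 * s + 1)) +
      Real.log ((F.map (fun e => a e.1 e.2.1 e.2.2)).prod : ℕ) := by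
    have g1 : (an n ⌈u * (n : ℝ) ^ 2⌉₊ : ℝ) ≤ (((2 * s + 1) ^ 2) ^ (N + 1) : ℝ) *
        ((F.map (fun e => a e.1 e.2.1 e.2.2)).prod : ℕ) := by
      have g2 : an n ⌈u * (n : ℝ) ^ 2⌉₊ ≤ ((2 * s + 1) ^ 2) ^ (N + 1) *
          (F.map (fun e => a e.1 e.2.1 e.2.2)).prod := by
        refine hF6.trans (Nat.mul_le_mul_right _ ?_)
        exact Nat.pow_le_pow_right (by positivity) (by omega)
      exact_mod_cast g2
    have g3 := Real.log_le_log han0 g1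
    have g4 : (0 : ℝ) < ((F.map (fun e => a e.1 e.2.1 e.2.2)).prod : ℕ) := by exact_mod_cast p1
    rw [Real.log_mul (by positivity) g4.ne', Real.log_pow, Real.log_pow] at g3
    push_cast at g3 ⊢
    exact g3
  have hs8 : (2 * (s : ℝ) + 1) ≤ ((8 * n : ℕ) : ℝ) := by
    have g1 : s ≤ 2 * n + 1 := by
      rw [hs]
      have := Nat.div_le_self (2 * n) N
      omega
    have g2 : 2 * s + 1 ≤ 8 * n := by omega
    exact_mod_cast g2
  have hls : Real.log (2 * (s : ℝ) + 1) ≤ Real.log ((8 * n : ℕ) : ℝ) :=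
    Real.log_le_log (by positivity) hs8
  have h8n : (16 : ℝ) ≤ ((8 * n : ℕ) : ℝ) := by exact_mod_cast (by omega : 16 ≤ 8 * n)
  have hl8 : 1 ≤ Real.log ((8 * n : ℕ) : ℝ) := by
    rw [Real.le_log_iff_exp_le (by linarith)]
    have := Real.exp_one_lt_d9
    linarith
  have hl8' : Real.log ((8 * n : ℕ) : ℝ) ≤ Real.log ((8 * n : ℕ) : ℝ) ^ 2 := by nlinarith
  have hl2 : Real.log ((2 * n : ℕ) : ℝ) ^ 2 ≤ Real.log ((8 * n : ℕ) : ℝ) ^ 2 := by
    apply pow_le_pow_left₀ (Real.log_nonneg (by exact_mod_cast (by omega : 1 ≤ 2 * n)))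
    apply Real.log_le_log (by exact_mod_cast (by omega : 0 < 2 * n))
    exact_mod_cast (by omega : 2 * n ≤ 8 * n)
  have hl1 : Real.log (n : ℝ) ^ 2 ≤ Real.log ((8 * n : ℕ) : ℝ) ^ 2 := by
    apply pow_le_pow_left₀ (Real.log_nonneg (by exact_mod_cast (by omega : 1 ≤ n)))
    apply Real.log_le_log hnpos
    exact_mod_cast (by omega : n ≤ 8 * n)
  have l2 : (2 * n : ℕ) * Real.log mu - K2 * Real.log (n : ℝ) ^ 2 ≤ Real.log (ln n) := by
    have := Real.log_le_log (by positivity) hln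
    rw [Real.log_mul (pow_pos hmu _).ne' (Real.exp_pos _).ne', Real.log_pow, Real.log_exp] at this
    linarith
  rw [div_le_iff₀ hnpos, Real.log_div han0.ne' hl0.ne']
  have hlen : (F.length : ℝ) ≤ N + 2 := by exact_mod_cast (by omega : F.length ≤ N + 2)
  have l3 := hlog (8 * n)
  have l4 : C ≤ ε / 4 * n := by
    rw [div_le_iff₀ hε] at hnC
    linarith
  obtain ⟨L, hL⟩ : ∃ L, L = Real.log ((8 * n : ℕ) : ℝ) ^ 2 := ⟨_, rfl⟩
  rw [← hL] at hl8' hl2 hl1 l3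
  have hL0 : 0 ≤ L := by rw [hL]; positivity
  have m1 : (N + 1) * (2 * Real.log (2 * (s : ℝ) + 1)) ≤ (N + 1) * (2 * L) :=
    mul_le_mul_of_nonneg_left (by linarith) (by linarith)
  have m2 : (F.length : ℝ) * (K1 * Real.log ((2 * n : ℕ) : ℝ) ^ 2) ≤ (N + 2) * (K1 * L) := by
    apply mul_le_mul hlen _ (by positivity) (by linarith)
    exact mul_le_mul_of_nonneg_left hl2 hK1
  have m3 : K2 * Real.log (n : ℝ) ^ 2 ≤ K2 * L := mul_le_mul_of_nonneg_left hl1 hK2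
  push_cast at l3
  nlinarith

theorem rate_area {u : ℝ} (hu : 0 < u) (hu4 : u < 1 / 4) :
    Tendsto (fun n : ℕ => Real.log (par n (u * (n : ℝ) ^ 2)) / n) atTop (𝓝 (-Phi u)) := by
  rw [Metric.tendsto_nhds]
  intro ε hε
  filter_upwards [lower hu hu4 (show 0 < ε / 2 by linarith),
    upper hu hu4 (show 0 < ε / 2 by linarith)] with n h1 h2
  rw [Real.dist_eq, abs_lt]
  exact ⟨by linarith [h1.2], by linarith⟩

end Pool.Agent.T6.H44.PG
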