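import Pool.Agent.T6.H44.PG.Cnt
import Pool.Agent.T6.H44.AR.R1
import Pool.Agent.T6.H44.AR.R2
import Pool.Agent.T6.H44.AR.X1
import Pool.Agent.T6.H44.AR.X2

/-!
The number of polygons of large area, lower bound: every closed list of edges gives many polygons.
-/

set_option autoImplicit false

namespace Pool.Agent.T6.H44.PG

open Pool.Agent.TH795.EP Pool.Agent.TH795.EP2 Pool.Agent.TH795.SE2 Pool.Agent.TH262.SawL
  Pool.Agent.Y981.L2 H981 Finset

theorem cs_sum (L : List (ℤ × ℤ)) : (L.map AR.cs).sum = AR.cs L.sum := by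
  induction L with
  | nil => simp [AR.cs]; rfl
  | cons v L ih =>
    rw [List.map_cons, List.sum_cons, List.sum_cons, ih]
    simp [AR.cs]

theorem cs_det (v w : ℤ × ℤ) : AR.det (AR.cs v) (AR.cs w) = ((AR.det v w : ℤ) : ℝ) := by
  simp [AR.det, AR.cs]

theorem cs_sub (v w : ℤ × ℤ) : AR.cs v - AR.cs w = AR.cs (v - w) := by
  simp [AR.cs]

theorem cs_S2 (L : List (ℤ × ℤ)) : AR.S2 (L.map AR.cs) = ((AR.S2 L : ℤ) : ℝ) := by
  induction L with
  | nil => simp [AR.S2]
  | cons v L ih =>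
    rw [List.map_cons, AR.S2, AR.S2, ih, cs_sum, cs_det]
    push_cast
    ring

theorem an_anti {n A B : ℕ} (hn : 1 ≤ n) (h : A ≤ B) : an n B ≤ an n A := by
  unfold an
  apply Set.ncard_le_ncard
  · intro f hf
    exact ⟨hf.1, h.trans hf.2⟩
  · exact (loops_finite hn).subset (fun f hf => hf.1)

theorem low_geo : ∃ K : ℝ, 0 ≤ K ∧ ∀ n : ℕ, 2 ≤ n → ∀ E : List (ℕ × (ℤ × ℤ)),
    (∀ e ∈ E, e.2 ≠ 0) → (E.map Prod.fst).sum ≤ 2 * n → (E.map Prod.snd).sum = 0 →
    ∀ A : ℝ, 0 < A →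
    A ≤ ((AR.S2 (E.map Prod.snd) : ℤ) : ℝ) / 2 - 2 * (((E.map Prod.snd).map AR.l1).sum : ℤ) →
    (E.map (fun e => (a e.1 e.2.1 e.2.2 : ℝ) / mu ^ e.1)).prod * mu ^ (2 * n) ≤
      q (2 * n) (K * (E.length + 1)) * an n ⌈A⌉₊ := by
  obtain ⟨K1, hK1, h1⟩ := chain
  obtain ⟨K2, hK2, h2⟩ := low_main
  refine ⟨K1 + K2, by positivity, ?_⟩
  intro n hn E hne hsum hv0 A hA hAle
  have hmu := mu_pos
  have hN2 : 2 ≤ 2 * n := by omega
  obtain ⟨E', hperm, hS, hcw, hleft⟩ := AR.r1 (ℕ × (ℤ × ℤ)) (fun e => AR.cs e.2) E (by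
    have : E.map (fun e => AR.cs e.2) = (E.map Prod.snd).map AR.cs := by rw [List.map_map]; rfl
    rw [this, cs_sum, hv0]
    simp [AR.cs])
  have em : ∀ F : List (ℕ × (ℤ × ℤ)), F.map (fun e => AR.cs e.2) = (F.map Prod.snd).map AR.cs :=
    fun F => by rw [List.map_map]; rfl
  rw [em, em, cs_S2, cs_S2] at hS
  have hS' : AR.S2 (E.map Prod.snd) ≤ AR.S2 (E'.map Prod.snd) := by exact_mod_cast hS
  have hl0 : (0 : ℤ) ≤ ((E.map Prod.snd).map AR.l1).sum := by
    apply List.sum_nonneg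
    intro x hx
    rw [List.mem_map] at hx
    obtain ⟨y, -, rfl⟩ := hx
    unfold AR.l1
    positivity
  have hl0' : (0 : ℝ) ≤ (((E.map Prod.snd).map AR.l1).sum : ℤ) := by exact_mod_cast hl0
  have hpos : 0 < AR.S2 (E'.map Prod.snd) := by
    have : (0 : ℝ) < ((AR.S2 (E.map Prod.snd) : ℤ) : ℝ) := by linarith
    have : 0 < AR.S2 (E.map Prod.snd) := by exact_mod_cast this
    omega
  have hpm : (E'.map Prod.snd).Perm (E.map Prod.snd) := hperm.map _
  have hv0' : (E'.map Prod.snd).sum = 0 := by rw [hpm.sum_eq, hv0]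
  rw [em] at hcw hleft
  obtain ⟨b, hb⟩ := AR.r2 ((E'.map Prod.snd).map AR.cs) (by
      intro v hv
      rw [List.mem_map] at hv
      obtain ⟨w, hw, rfl⟩ := hv
      rw [List.mem_map] at hw
      obtain ⟨e, he, rfl⟩ := hw
      have g := hne e (hperm.mem_iff.1 he)
      intro h0
      apply g
      unfold AR.cs at h0
      have h1 := congrArg Prod.fst h0
      have h2 := congrArg Prod.snd h0
      simp only [Prod.fst_zero, Prod.snd_zero] at h1 h2
      exact Prod.ext (by exact_mod_cast h1) (by exact_mod_cast h2))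
    (by rw [cs_sum, hv0']; simp [AR.cs])
    (by rw [cs_S2]; exact_mod_cast hpos) hcw hleft
  obtain ⟨U', hU'⟩ : ∃ U', U' = E'.take b := ⟨_, rfl⟩
  obtain ⟨W', hW'⟩ : ∃ W', W' = E'.drop b := ⟨_, rfl⟩
  have hUW : E' = U' ++ W' := by rw [hU', hW', List.take_append_drop]
  obtain ⟨U, hU⟩ : ∃ U, U = U'.map Prod.snd := ⟨_, rfl⟩
  obtain ⟨W, hW⟩ : ∃ W, W = W'.map Prod.snd := ⟨_, rfl⟩
  have hUWm : E'.map Prod.snd = U ++ W := by rw [hUW, List.map_append, hU, hW]
  have hb' : AR.Shape (U.map AR.cs) (W.map AR.cs) := by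
    rw [hU, hW, hU', hW', List.map_take, List.map_drop, List.map_take, List.map_drop]
    exact hb
  rw [hUWm] at hpos hv0' hS' hpm
  obtain ⟨X, hX1, hX2⟩ := AR.x2 U W hb' hpos
  have hXA : A ≤ (X.card : ℝ) := by
    refine le_trans ?_ hX1
    have e1 : ((U ++ W).map AR.l1).sum = ((E.map Prod.snd).map AR.l1).sum :=
      (hpm.map _).sum_eq
    rw [e1]
    have e2 : ((AR.S2 (E.map Prod.snd) : ℤ) : ℝ) ≤ ((AR.S2 (U ++ W) : ℤ) : ℝ) := by
      exact_mod_cast hS'
    linarith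
  have hXne : X.Nonempty := by
    rw [← Finset.card_pos]
    have : (0 : ℝ) < X.card := by linarith
    exact_mod_cast this
  obtain ⟨k, hk⟩ : ∃ k, k = U.sum.1 := ⟨_, rfl⟩
  obtain ⟨l, hl⟩ : ∃ l, l = U.sum.2 := ⟨_, rfl⟩
  have hkl : U.sum = (k, l) := by rw [hk, hl]
  have hWs : W.sum = (-k, -l) := by
    rw [List.sum_append, hkl] at hv0'
    have h1 := congrArg Prod.fst hv0'
    have h2 := congrArg Prod.snd hv0'
    simp only [Prod.fst_add, Prod.snd_add, Prod.fst_zero, Prod.snd_zero] at h1 h2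
    exact Prod.ext (by simp only; omega) (by simp only; omega)
  have hk2 : 2 ≤ k := by
    obtain ⟨p, hp⟩ := hXne
    have := hX2 p hp
    rw [← hk] at this
    omega
  have hup : ∀ A v B, U = A ++ v :: B → 0 ≤ v.1 := by
    intro A v B e
    have := hb'.up (A.map AR.cs) (AR.cs v) (B.map AR.cs) (by rw [e]; simp)
    rcases this with h | h
    · unfold AR.cs at h
      simp only at h
      have : 0 < v.1 := by exact_mod_cast h
      omega
    · have h := h.1
      unfold AR.cs at h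
      simp only at h
      have : v.1 = 0 := by exact_mod_cast h
      omega
  have hlo : ∀ A v B, W = A ++ v :: B → v.1 ≤ 0 := by
    intro A v B e
    have := hb'.lo (A.map AR.cs) (AR.cs v) (B.map AR.cs) (by rw [e]; simp)
    rcases this with h | h | h
    · unfold AR.cs at h
      simp only at h
      have : v.1 < 0 := by exact_mod_cast h
      omega
    · have h := h.1
      unfold AR.cs at h
      simp only at h
      have : v.1 = 0 := by exact_mod_cast h
      omega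
    · have h := h.1
      unfold AR.cs at h
      simp only at h
      have : v.1 = 0 := by exact_mod_cast h
      omega
  obtain ⟨SU, hSU⟩ : ∃ SU : ℤ × ℤ → Prop, SU = fun z => ∃ A v B, U = A ++ v :: B ∧
    0 ≤ AR.det v (z - A.sum) := ⟨_, rfl⟩
  obtain ⟨SW, hSW⟩ : ∃ SW : ℤ × ℤ → Prop, SW = fun z => ∃ A v B, W = A ++ v :: B ∧
    0 ≤ AR.det v (z - (U ++ A).sum) := ⟨_, rfl⟩
  have hd : ∀ z, SU z → SW z → z.1 ≤ 0 ∨ k ≤ z.1 := by
    intro z hz1 hz2
    by_contra hcon
    push Not at hcon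
    rw [hSU] at hz1
    rw [hSW] at hz2
    obtain ⟨A1, v1, B1, e1, d1⟩ := hz1
    obtain ⟨A2, v2, B2, e2, d2⟩ := hz2
    refine AR.x1 (U.map AR.cs) (W.map AR.cs) hb' ?_ (A1.map AR.cs) (AR.cs v1) (B1.map AR.cs)
      (by rw [e1]; simp) (A2.map AR.cs) (AR.cs v2) (B2.map AR.cs) (by rw [e2]; simp) (AR.cs z)
      ?_ ?_ ?_ ?_
    · rw [← List.map_append, cs_S2]
      exact_mod_cast hpos
    · unfold AR.cs
      simp only
      exact_mod_cast hcon.1
    · rw [cs_sum, hkl]
      unfold AR.cs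
      simp only
      exact_mod_cast hcon.2
    · rw [cs_sum, cs_sub, cs_det]
      exact_mod_cast d1
    · rw [← List.map_append, cs_sum, cs_sub, cs_det]
      exact_mod_cast d2
  have hXX : ∀ p ∈ X, 0 < p.1 ∧ p.1 < k ∧
      (∀ z, SU z → z.1 = p.1 → p.2 < z.2) ∧ ∀ z, SW z → z.1 = p.1 → z.2 < p.2 := by
    intro p hp
    obtain ⟨g1, g2, g3⟩ := hX2 p hp
    rw [← hk] at g2
    refine ⟨g1, g2, ?_, ?_⟩
    · intro z hz hzp
      rw [hSU] at hz
      obtain ⟨A1, v1, B1, e1, d1⟩ := hz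
      have g4 := g3 A1 v1 (B1 ++ W) (by rw [e1]; simp)
      have g5 := hup A1 v1 B1 e1
      unfold AR.det at g4 d1
      simp only [Prod.fst_sub, Prod.snd_sub] at g4 d1
      rw [hzp] at d1
      by_contra hc
      push Not at hc
      nlinarith
    · intro z hz hzp
      rw [hSW] at hz
      obtain ⟨A1, v1, B1, e1, d1⟩ := hz
      have g4 := g3 (U ++ A1) v1 B1 (by rw [e1]; simp)
      have g5 := hlo A1 v1 B1 e1
      unfold AR.det at g4 d1
      simp only [Prod.fst_sub, Prod.snd_sub] at g4 d1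
      rw [hzp] at d1
      by_contra hc
      push Not at hc
      nlinarith
  have hsum' : (U'.map Prod.fst).sum + (W'.map Prod.fst).sum ≤ 2 * n := by
    rw [← List.sum_append, ← List.map_append, ← hUW, (hperm.map Prod.fst).sum_eq]
    exact hsum
  have hU0 : U' ≠ [] := by
    rintro h0
    rw [h0] at hU
    rw [hU] at hk
    simp at hk
    omega
  have hW0 : W' ≠ [] := by
    rintro h0
    rw [h0] at hW
    rw [hW] at hWs
    have := congrArg Prod.fst hWs
    simp at this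
    omega
  have c1 := h1 (2 * n) hN2 U' hU0 (by omega) SU 0 (by
    intro A1 e B1 hE z hz
    rw [hSU]
    refine ⟨A1.map Prod.snd, e.2, B1.map Prod.snd, by rw [hU, hE]; simp, ?_⟩
    rw [zero_add] at hz
    exact hz)
  have c2 := h1 (2 * n) hN2 W' hW0 (by omega) SW (k, l) (by
    intro A1 e B1 hE z hz
    rw [hSW]
    refine ⟨A1.map Prod.snd, e.2, B1.map Prod.snd, by rw [hW, hE]; simp, ?_⟩
    rw [List.sum_append, hkl]
    exact hz)
  rw [← hU, hkl] at c1
  rw [← hW, hWs] at c2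
  have c3 := h2 n (by omega) _ _ hsum' k l hk2 SU SW hd X hXX
  have hprod : (E.map (fun e => (a e.1 e.2.1 e.2.2 : ℝ) / mu ^ e.1)).prod =
      (U'.map (fun e => (a e.1 e.2.1 e.2.2 : ℝ) / mu ^ e.1)).prod *
      (W'.map (fun e => (a e.1 e.2.1 e.2.2 : ℝ) / mu ^ e.1)).prod := by
    rw [← List.prod_append, ← List.map_append, ← hUW]
    exact ((hperm.map _).prod_eq).symm
  have hlen : E.length = U'.length + W'.length := by
    rw [← List.length_append, ← hUW]
    exact hperm.length_eq.symm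
  have hq1 := q_pos (2 * n) (K1 * U'.length)
  have hq2 := q_pos (2 * n) (K1 * W'.length)
  have hp0 : 0 ≤ (W'.map (fun e => (a e.1 e.2.1 e.2.2 : ℝ) / mu ^ e.1)).prod := by
    apply List.prod_nonneg
    intro x hx
    rw [List.mem_map] at hx
    obtain ⟨y, -, rfl⟩ := hx
    positivity
  have hG1 := gs_nonneg (U'.map Prod.fst).sum (ic SU 0 (k, l))
  have han : (an n X.card : ℝ) ≤ an n ⌈A⌉₊ := by
    have : ⌈A⌉₊ ≤ X.card := Nat.ceil_le.2 hXA
    exact_mod_cast an_anti (by omega) this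
  rw [hprod]
  calc (U'.map (fun e => (a e.1 e.2.1 e.2.2 : ℝ) / mu ^ e.1)).prod *
        (W'.map (fun e => (a e.1 e.2.1 e.2.2 : ℝ) / mu ^ e.1)).prod * mu ^ (2 * n)
      ≤ (q (2 * n) (K1 * U'.length) * gs (U'.map Prod.fst).sum (ic SU 0 (k, l))) *
        (q (2 * n) (K1 * W'.length) * gs (W'.map Prod.fst).sum (ic SW (k, l) (-k, -l))) *
        mu ^ (2 * n) := by
        apply mul_le_mul_of_nonneg_right _ (pow_pos hmu _).le
        exact mul_le_mul c1 c2 hp0 (by positivity)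
    _ = (q (2 * n) (K1 * U'.length) * q (2 * n) (K1 * W'.length)) *
        (gs (U'.map Prod.fst).sum (ic SU 0 (k, l)) *
        gs (W'.map Prod.fst).sum (ic SW (k, l) (-k, -l)) * mu ^ (2 * n)) := by ring
    _ ≤ (q (2 * n) (K1 * U'.length) * q (2 * n) (K1 * W'.length)) *
        (q (2 * n) K2 * an n X.card) := mul_le_mul_of_nonneg_left c3 (by positivity)
    _ ≤ (q (2 * n) (K1 * U'.length) * q (2 * n) (K1 * W'.length)) *
        (q (2 * n) K2 * an n ⌈A⌉₊) := by
        apply mul_le_mul_of_nonneg_left _ (by positivity)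
        exact mul_le_mul_of_nonneg_left han (q_pos _ _).le
    _ = q (2 * n) (K1 * U'.length + K1 * W'.length + K2) * an n ⌈A⌉₊ := by
        rw [← mul_assoc, q_mul, q_mul]
    _ ≤ _ := by
        apply mul_le_mul_of_nonneg_right _ (Nat.cast_nonneg _)
        apply q_mono hN2
        rw [hlen]
        push_cast
        nlinarith [mul_nonneg hK2 (Nat.cast_nonneg (α := ℝ) U'.length),
          mul_nonneg hK2 (Nat.cast_nonneg (α := ℝ) W'.length)]

end Pool.Agent.T6.H44.PG
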