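import Pool.Agent.T6.H44.PG.Len
import Pool.Agent.T6.H44.AR.Defs

/-!
Gluing of words that stay in a given set of sites; chains of half-plane words.
-/

set_option autoImplicit false

namespace Pool.Agent.T6.H44.PG

open Pool.Agent.TH795.EP Pool.Agent.TH795.EP2 Pool.Agent.TH795.SE2 Pool.Agent.TH262.SawL
  Pool.Agent.Y981.L2 H981 Finset Pool.Agent.T6.H44.AR

/-- the path of the word started at `P` stays in `S` -/
def In (S : ℤ × ℤ → Prop) (P : ℤ × ℤ) (w : List St) : Prop := ∀ k, S (P + path w k)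

/-- the number of self-avoiding words with displacement `z` whose path from `P` stays in `S` -/
noncomputable def ic (S : ℤ × ℤ → Prop) (P : ℤ × ℤ) (z : ℤ × ℤ) (m : ℕ) : ℕ :=
  (fs (fun w => (Saw w ∧ dx w = z.1 ∧ dy w = z.2) ∧ In S P w) m).card

theorem ic_glue (S : ℤ × ℤ → Prop) (P z1 z2 : ℤ × ℤ) (m1 m2 : ℕ) :
    ic S P z1 m1 * ic S (P + z1) z2 m2 ≤ ∑ p ∈ range (m1 + 1) ×ˢ range (m2 + 1),
      ic S P (z1 + z2) (p.1 + (m2 - p.2)) * (c (m1 - p.1) * c p.2) := by
  classical
  unfold ic c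
  have e : ∀ p : ℕ × ℕ,
      (fs (fun w => (Saw w ∧ dx w = (z1 + z2).1 ∧ dy w = (z1 + z2).2) ∧ In S P w)
        (p.1 + (m2 - p.2))).card * ((fs Saw (m1 - p.1)).card * (fs Saw p.2).card) =
      (fs (fun w => (Saw w ∧ dx w = (z1 + z2).1 ∧ dy w = (z1 + z2).2) ∧ In S P w)
        (p.1 + (m2 - p.2)) ×ˢ (fs Saw (m1 - p.1) ×ˢ fs Saw p.2)).card := by
    intro p
    rw [Finset.card_product, Finset.card_product]
  simp only [e]
  rw [← Finset.card_product, ← Finset.card_sigma]
  apply card_le_of_decode (fun q : (_ : ℕ × ℕ) × (List St × (List St × List St)) =>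
    (q.2.1.take q.1.1 ++ q.2.2.1, q.2.2.2 ++ q.2.1.drop q.1.1))
  rintro ⟨u, v⟩ h
  rw [Finset.mem_product, mem_fs, mem_fs] at h
  obtain ⟨⟨⟨⟨hu, hux, huy⟩, huS⟩, hul⟩, ⟨⟨hv, hvx, hvy⟩, hvS⟩, hvl⟩ := h
  simp only at hu hux huy huS hul hv hvx hvy hvS hvl
  obtain ⟨i, j, hi, hj, h1, h2, h3⟩ := glue_exists hu hv
  have hlen : (u.take i).length = i := by rw [List.length_take]; omega
  refine ⟨⟨(i, j), (u.take i ++ v.drop j, (u.drop i, v.take j))⟩, ?_, ?_⟩
  · rw [Finset.mem_sigma, Finset.mem_product, Finset.mem_product, Finset.mem_product,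
      mem_fs, mem_fs, mem_fs, Finset.mem_range, Finset.mem_range]
    simp only [Prod.fst_add, Prod.snd_add]
    refine ⟨⟨by omega, by omega⟩, ⟨⟨⟨h1, by omega, by omega⟩, ?_⟩, ?_⟩, ⟨?_, ?_⟩, ?_, ?_⟩
    · intro l
      rcases le_or_gt l i with h4 | h4
      · rw [path_append_left (by omega), path_take h4]
        exact huS l
      · obtain ⟨s, rfl⟩ : ∃ s, l = i + s := ⟨l - i, by omega⟩
        have g := path_append_right (u.take i) (v.drop j) s
        rw [hlen] at g
        rw [g]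
        have g1 := path_drop v j s
        have g2 : path v j = (dx (v.take j), dy (v.take j)) := rfl
        have f1 : dx v = dx (v.take j) + dx (v.drop j) := by
          rw [← dx_append, List.take_append_drop]
        have f2 : dy v = dy (v.take j) + dy (v.drop j) := by
          rw [← dy_append, List.take_append_drop]
        rw [dx_append] at h2
        rw [dy_append] at h3
        have g3 := hvS (j + s)
        rw [g1, g2] at g3
        have e4 : P + (dx (u.take i) + (path (v.drop j) s).1, dy (u.take i) +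
            (path (v.drop j) s).2) = P + z1 + (dx (v.take j) + (path (v.drop j) s).1,
              dy (v.take j) + (path (v.drop j) s).2) := by
          ext <;> simp only [Prod.fst_add, Prod.snd_add] <;> omega
        rw [e4]
        exact g3
    · rw [List.length_append, hlen, List.length_drop, hvl]
    · exact hu.subw (List.drop_suffix _ _).isInfix
    · rw [List.length_drop, hul]
    · exact hv.subw (List.take_prefix _ _).isInfix
    · rw [List.length_take]; omega
  · simp only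
    have g1 : (u.take i ++ v.drop j).take i = u.take i := by
      have := List.take_left (l₁ := u.take i) (l₂ := v.drop j)
      rwa [hlen] at this
    have g2 : (u.take i ++ v.drop j).drop i = v.drop j := by
      have := List.drop_left (l₁ := u.take i) (l₂ := v.drop j)
      rwa [hlen] at this
    rw [g1, g2, List.take_append_drop, List.take_append_drop]

theorem gs_mono {M M' : ℕ} {g g' : ℕ → ℕ} (hM : M ≤ M') (h : ∀ m, g m ≤ g' m) :
    gs M g ≤ gs M' g' := by
  have hmu := mu_pos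
  unfold gs
  calc ∑ m ∈ range (M + 1), (g m : ℝ) / mu ^ m ≤ ∑ m ∈ range (M + 1), (g' m : ℝ) / mu ^ m := by
        apply Finset.sum_le_sum
        intro m _
        exact div_le_div_of_nonneg_right (by exact_mod_cast h m) (pow_pos hmu _).le
    _ ≤ _ := by
        apply Finset.sum_le_sum_of_subset_of_nonneg
        · intro m hm
          rw [Finset.mem_range] at hm ⊢
          omega
        · intro m _ _
          positivity

/-- **gluing for the normalised sums** -/
theorem gs_glue : ∃ K : ℝ, 0 ≤ K ∧ ∀ N : ℕ, 2 ≤ N → ∀ M1 M2 : ℕ, M1 + M2 ≤ N →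
    ∀ (S : ℤ × ℤ → Prop) (P z1 z2 : ℤ × ℤ),
    gs M1 (ic S P z1) * gs M2 (ic S (P + z1) z2) ≤ q N K * gs (M1 + M2) (ic S P (z1 + z2)) := by
  obtain ⟨K, hK0, hup, -⟩ := exists_K
  refine ⟨2 * K + 24, by positivity, ?_⟩
  intro N hN M1 M2 hM S P z1 z2
  have hmu := mu_pos
  have hN0 : (2 : ℝ) ≤ N := by exact_mod_cast hN
  obtain ⟨G, hG⟩ : ∃ G, G = gs (M1 + M2) (ic S P (z1 + z2)) := ⟨_, rfl⟩
  rw [← hG]
  have hG0 : 0 ≤ G := by rw [hG]; exact gs_nonneg _ _
  have hq := q_pos N K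
  have hq2 := q_pos N (2 * K)
  have hterm : ∀ p ∈ range (M1 + 1) ×ˢ range (M2 + 1),
      ((ic S P z1 p.1 : ℝ) / mu ^ p.1) * ((ic S (P + z1) z2 p.2 : ℝ) / mu ^ p.2) ≤
        (((N : ℝ) + 1) ^ 2) * (q N (2 * K) * G) := by
    intro p hp'
    rw [Finset.mem_product, Finset.mem_range, Finset.mem_range] at hp'
    have h1 : (ic S P z1 p.1 : ℝ) * ic S (P + z1) z2 p.2 ≤
        ∑ t ∈ range (p.1 + 1) ×ˢ range (p.2 + 1),
          (ic S P (z1 + z2) (t.1 + (p.2 - t.2)) : ℝ) * (c (p.1 - t.1) * c t.2) := by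
      exact_mod_cast ic_glue S P z1 z2 p.1 p.2
    have h2 : ∀ t ∈ range (p.1 + 1) ×ˢ range (p.2 + 1),
        (ic S P (z1 + z2) (t.1 + (p.2 - t.2)) : ℝ) * (c (p.1 - t.1) * c t.2) ≤
          q N (2 * K) * G * mu ^ (p.1 + p.2) := by
      intro t ht
      rw [Finset.mem_product, Finset.mem_range, Finset.mem_range] at ht
      have e2 := hup N hN (p.1 - t.1) (by omega)
      have e3 := hup N hN t.2 (by omega)
      have e4 := le_gs (M := M1 + M2) (m := t.1 + (p.2 - t.2)) (ic S P (z1 + z2)) (by omega)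
      rw [← hG, div_le_iff₀ (pow_pos hmu _)] at e4
      calc (ic S P (z1 + z2) (t.1 + (p.2 - t.2)) : ℝ) * (c (p.1 - t.1) * c t.2)
          ≤ (G * mu ^ (t.1 + (p.2 - t.2))) * ((mu ^ (p.1 - t.1) * q N K) * (mu ^ t.2 * q N K)) := by
            gcongr
        _ = (q N K * q N K) * (G * (mu ^ (t.1 + (p.2 - t.2)) * mu ^ (p.1 - t.1) * mu ^ t.2)) := by
            ring
        _ = q N (2 * K) * (G * mu ^ (p.1 + p.2)) := by
            rw [← pow_add, ← pow_add, q_mul, two_mul]
            congr 3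
            omega
        _ = _ := by ring
    have h3 := Finset.sum_le_card_nsmul _ _ _ h2
    rw [Finset.card_product, Finset.card_range, Finset.card_range, nsmul_eq_mul] at h3
    have h4 : (((p.1 + 1) * (p.2 + 1) : ℕ) : ℝ) ≤ ((N : ℝ) + 1) ^ 2 := by
      have : (p.1 + 1) * (p.2 + 1) ≤ (N + 1) ^ 2 := by
        rw [sq]
        exact Nat.mul_le_mul (by omega) (by omega)
      exact_mod_cast this
    calc ((ic S P z1 p.1 : ℝ) / mu ^ p.1) * ((ic S (P + z1) z2 p.2 : ℝ) / mu ^ p.2)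
        = ((ic S P z1 p.1 : ℝ) * ic S (P + z1) z2 p.2) / mu ^ (p.1 + p.2) := by
          rw [pow_add]; field_simp
      _ ≤ ((((p.1 + 1) * (p.2 + 1) : ℕ) : ℝ) * (q N (2 * K) * G * mu ^ (p.1 + p.2))) /
          mu ^ (p.1 + p.2) := by
          exact div_le_div_of_nonneg_right (h1.trans h3) (pow_pos hmu _).le
      _ = (((p.1 + 1) * (p.2 + 1) : ℕ) : ℝ) * (q N (2 * K) * G) := by
          rw [← mul_assoc, mul_div_assoc, div_self (pow_pos hmu _).ne', mul_one]
      _ ≤ _ := mul_le_mul_of_nonneg_right h4 (by positivity)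
  have hsum := Finset.sum_le_card_nsmul _ _ _ hterm
  rw [Finset.card_product, Finset.card_range, Finset.card_range, nsmul_eq_mul] at hsum
  have e : gs M1 (ic S P z1) * gs M2 (ic S (P + z1) z2) = ∑ p ∈ range (M1 + 1) ×ˢ range (M2 + 1),
      ((ic S P z1 p.1 : ℝ) / mu ^ p.1) * ((ic S (P + z1) z2 p.2 : ℝ) / mu ^ p.2) := by
    unfold gs
    rw [Finset.sum_mul_sum, ← Finset.sum_product']
  rw [e]
  refine hsum.trans ?_
  have h5 : (((M1 + 1) * (M2 + 1) : ℕ) : ℝ) ≤ ((N : ℝ) + 1) ^ 2 := by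
    have : (M1 + 1) * (M2 + 1) ≤ (N + 1) ^ 2 := by
      rw [sq]
      exact Nat.mul_le_mul (by omega) (by omega)
    exact_mod_cast this
  have h6 : ((N : ℝ) + 1) ^ 2 * ((N : ℝ) + 1) ^ 2 ≤ q N 24 := by
    have h7 := pow_le_q hN 8
    norm_num at h7
    refine le_trans ?_ h7
    have h8 : (N : ℝ) + 1 ≤ (N : ℝ) ^ 2 := by nlinarith
    calc ((N : ℝ) + 1) ^ 2 * ((N : ℝ) + 1) ^ 2 = ((N : ℝ) + 1) ^ 4 := by ring
      _ ≤ ((N : ℝ) ^ 2) ^ 4 := pow_le_pow_left₀ (by positivity) h8 4
      _ = (N : ℝ) ^ 8 := by ring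
  calc (((M1 + 1) * (M2 + 1) : ℕ) : ℝ) * (((N : ℝ) + 1) ^ 2 * (q N (2 * K) * G))
      ≤ ((N : ℝ) + 1) ^ 2 * (((N : ℝ) + 1) ^ 2 * (q N (2 * K) * G)) :=
        mul_le_mul_of_nonneg_right h5 (by positivity)
    _ = (((N : ℝ) + 1) ^ 2 * ((N : ℝ) + 1) ^ 2) * (q N (2 * K) * G) := by ring
    _ ≤ q N 24 * (q N (2 * K) * G) := mul_le_mul_of_nonneg_right h6 (by positivity)
    _ = (q N 24 * q N (2 * K)) * G := by ring
    _ = q N (24 + 2 * K) * G := by rw [q_mul]
    _ = _ := by rw [add_comm 24 (2 * K)]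

theorem hp_le_ic {S : ℤ × ℤ → Prop} {P v : ℤ × ℤ} (h : ∀ z, 0 ≤ AR.det v (z - P) → S z) (m : ℕ) :
    hp v.2 (-v.1) m v.1 v.2 ≤ ic S P v m := by
  unfold hp ic
  apply Finset.card_le_card
  intro w hw
  rw [mem_fs] at hw ⊢
  refine ⟨⟨hw.1.1, fun k => h _ ?_⟩, hw.2⟩
  have h1 := hw.1.2 k
  unfold fn at h1
  unfold AR.det
  have e : P + path w k - P = path w k := by abel
  rw [e]
  linarith

/-- **chains of half-plane words** -/
theorem chain : ∃ K : ℝ, 0 ≤ K ∧ ∀ N : ℕ, 2 ≤ N → ∀ E : List (ℕ × (ℤ × ℤ)), E ≠ [] →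
    (E.map Prod.fst).sum ≤ N → ∀ (S : ℤ × ℤ → Prop) (P : ℤ × ℤ),
    (∀ A e B, E = A ++ e :: B → ∀ z, 0 ≤ AR.det e.2 (z - (P + (A.map Prod.snd).sum)) → S z) →
    (E.map (fun e => (a e.1 e.2.1 e.2.2 : ℝ) / mu ^ e.1)).prod ≤
      q N (K * E.length) * gs (E.map Prod.fst).sum (ic S P (E.map Prod.snd).sum) := by
  obtain ⟨K1, hK1, h1⟩ := a_le_hp
  obtain ⟨K2, hK2, h2⟩ := gs_glue
  refine ⟨K1 + K2, by positivity, ?_⟩
  intro N hN E
  have hmu := mu_pos
  induction E with
  | nil => intro h; exact absurd rfl h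
  | cons e E' ih =>
    intro _ hsum S P hS
    have hS0 : ∀ z, 0 ≤ AR.det e.2 (z - P) → S z := by
      intro z hz
      apply hS [] e E' rfl z
      simpa using hz
    rw [List.map_cons, List.sum_cons] at hsum
    have g1 : (a e.1 e.2.1 e.2.2 : ℝ) / mu ^ e.1 ≤ q N K1 * gs e.1 (ic S P e.2) := by
      refine (h1 N hN e.1 (by omega) e.2.2 (-e.2.1) e.2.1 e.2.2 ?_).trans ?_
      · unfold fn
        simp only
        linarith
      · apply mul_le_mul_of_nonneg_left _ (q_pos _ _).le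
        exact gs_mono le_rfl (fun m => hp_le_ic hS0 m)
    rcases eq_or_ne E' [] with h0 | h0
    · subst h0
      simp only [List.map_cons, List.map_nil, List.prod_cons, List.prod_nil, mul_one,
        List.sum_cons, List.sum_nil, add_zero, List.length_cons, List.length_nil, zero_add,
        Nat.cast_one]
      refine g1.trans ?_
      apply mul_le_mul_of_nonneg_right (q_mono hN (by linarith)) (gs_nonneg _ _)
    · have g2 := ih h0 (by omega) S (P + e.2) (by
        intro A e' B hE z hz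
        apply hS (e :: A) e' B (by rw [hE]; rfl) z
        rw [List.map_cons, List.sum_cons, ← add_assoc]
        exact hz)
      have g3 := h2 N hN e.1 (E'.map Prod.fst).sum hsum S P e.2 (E'.map Prod.snd).sum
      have hp0 : 0 ≤ (E'.map (fun e => (a e.1 e.2.1 e.2.2 : ℝ) / mu ^ e.1)).prod := by
        apply List.prod_nonneg
        intro x hx
        rw [List.mem_map] at hx
        obtain ⟨y, -, rfl⟩ := hx
        positivity
      have hq1 := q_pos N K1
      have hq2 := q_pos N ((K1 + K2) * E'.length)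
      have hg1 := gs_nonneg e.1 (ic S P e.2)
      simp only [List.map_cons, List.prod_cons, List.sum_cons, List.length_cons]
      calc (a e.1 e.2.1 e.2.2 : ℝ) / mu ^ e.1 *
            (E'.map (fun e => (a e.1 e.2.1 e.2.2 : ℝ) / mu ^ e.1)).prod
          ≤ (q N K1 * gs e.1 (ic S P e.2)) * (q N ((K1 + K2) * E'.length) *
            gs (E'.map Prod.fst).sum (ic S (P + e.2) (E'.map Prod.snd).sum)) :=
            mul_le_mul g1 g2 hp0 (by positivity)
        _ = (q N K1 * q N ((K1 + K2) * E'.length)) * (gs e.1 (ic S P e.2) *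
            gs (E'.map Prod.fst).sum (ic S (P + e.2) (E'.map Prod.snd).sum)) := by ring
        _ ≤ (q N K1 * q N ((K1 + K2) * E'.length)) * (q N K2 *
            gs (e.1 + (E'.map Prod.fst).sum) (ic S P (e.2 + (E'.map Prod.snd).sum))) :=
            mul_le_mul_of_nonneg_left g3 (by positivity)
        _ = (q N K1 * q N ((K1 + K2) * E'.length) * q N K2) *
            gs (e.1 + (E'.map Prod.fst).sum) (ic S P (e.2 + (E'.map Prod.snd).sum)) := by ring
        _ = _ := by
            rw [q_mul, q_mul]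
            congr 2
            push_cast
            ring

end Pool.Agent.T6.H44.PG
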