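import Pool.Agent.Y981.L2.PolyE

/-!
Self-avoiding words in a half plane with an arbitrary direction: the cyclic shift at the extreme
point, and the normalised generating sums.
-/

set_option autoImplicit false

namespace Pool.Agent.T6.H44.PG

open Pool.Agent.TH795.EP Pool.Agent.TH795.EP2 Pool.Agent.TH795.SE2 Pool.Agent.TH262.SawL
  Pool.Agent.Y981.L2 H981 Finset

/-- the linear functional `α x + β y` -/
def fn (α β : ℤ) (z : ℤ × ℤ) : ℤ := α * z.1 + β * z.2

/-- the word stays in the half plane `α x + β y ≤ 0` -/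
def Hf (α β : ℤ) (w : List St) : Prop := ∀ k, fn α β (path w k) ≤ 0

/-- number of self-avoiding words in the half plane with displacement `(x, y)` -/
noncomputable def hp (α β : ℤ) (m : ℕ) (x y : ℤ) : ℕ :=
  (fs (fun w => (Saw w ∧ dx w = x ∧ dy w = y) ∧ Hf α β w) m).card

theorem cyc_exists' (α β : ℤ) (w : List St) :
    ∃ t, t ≤ w.length ∧ (∀ k, fn α β (path (w.drop t) k) ≤ 0) ∧
    ∀ k, fn α β (path (w.take t) k) ≤ fn α β (dx (w.take t), dy (w.take t)) := by
  obtain ⟨t, ht, hmax⟩ : ∃ t ∈ range (w.length + 1), ∀ k ∈ range (w.length + 1),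
      fn α β (path w k) ≤ fn α β (path w t) :=
    Finset.exists_max_image (range (w.length + 1)) (fun k => fn α β (path w k)) ⟨0, by simp⟩
  rw [Finset.mem_range] at ht
  have hmax' : ∀ k, fn α β (path w k) ≤ fn α β (path w t) := by
    intro k
    rcases le_or_gt k w.length with h | h
    · exact hmax k (by rw [Finset.mem_range]; omega)
    · rw [path_ge h.le]
      exact hmax _ (by rw [Finset.mem_range]; omega)
  refine ⟨t, by omega, fun k => ?_, fun k => ?_⟩
  · have h1 := path_drop w t k
    have h2 := hmax' (t + k)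
    rw [h1] at h2
    unfold fn at h2 ⊢
    simp only at h2
    linarith
  · have h1 : path w t = (dx (w.take t), dy (w.take t)) := rfl
    rw [← h1]
    rcases le_or_gt k t with h | h
    · rw [path_take h]
      exact hmax' k
    · have h2 : (w.take t).length = t := by rw [List.length_take]; omega
      rw [path_ge (by omega : (w.take t).length ≤ k), h2, path_take le_rfl]

theorem hf_glue {α β : ℤ} {u v : List St} {i j : ℕ} (hi : i ≤ u.length)
    (hu : ∀ k, fn α β (path u k) ≤ 0) (hv : ∀ k, fn α β (path v k) ≤ fn α β (dx v, dy v))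
    (huv : fn α β (dx u + dx v, dy u + dy v) ≤ 0)
    (h1 : dx (u.take i ++ v.drop j) = dx u + dx v)
    (h2 : dy (u.take i ++ v.drop j) = dy u + dy v) : Hf α β (u.take i ++ v.drop j) := by
  have hlen : (u.take i).length = i := by rw [List.length_take]; omega
  intro k
  rcases le_or_gt k i with h | h
  · rw [path_append_left (by omega), path_take h]
    exact hu k
  · obtain ⟨l, rfl⟩ : ∃ l, k = i + l := ⟨k - i, by omega⟩
    have g := path_append_right (u.take i) (v.drop j) l
    rw [hlen] at g
    rw [g]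
    have g2 : path v j = (dx (v.take j), dy (v.take j)) := rfl
    have f1 : dx v = dx (v.take j) + dx (v.drop j) := by
      rw [← dx_append, List.take_append_drop]
    have f2 : dy v = dy (v.take j) + dy (v.drop j) := by
      rw [← dy_append, List.take_append_drop]
    rw [dx_append] at h1
    rw [dy_append] at h2
    have g3 := hv (j + l)
    rw [path_drop v j l, g2] at g3
    unfold fn at g3 huv ⊢
    simp only at g3 huv ⊢
    have e1 : dx (u.take i) = dx u + dx v - dx (v.drop j) := by linarith
    have e2 : dy (u.take i) = dy u + dy v - dy (v.drop j) := by linarith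
    rw [e1, e2]
    have e3 : dx (v.drop j) = dx v - dx (v.take j) := by linarith
    have e4 : dy (v.drop j) = dy v - dy (v.take j) := by linarith
    rw [e3, e4]
    linarith

theorem cyc_card' (α β : ℤ) (m : ℕ) {x y : ℤ} (hy : fn α β (x, y) ≤ 0) :
    a m x y ≤ ∑ p ∈ (range (m + 1)).sigma (fun t => range (m - t + 1) ×ˢ range (t + 1)),
      hp α β (p.2.1 + (p.1 - p.2.2)) x y * (c (m - p.1 - p.2.1) * c p.2.2) := by
  classical
  unfold a hp c
  have e : ∀ p : (_ : ℕ) × (ℕ × ℕ),
      (fs (fun w => (Saw w ∧ dx w = x ∧ dy w = y) ∧ Hf α β w) (p.2.1 + (p.1 - p.2.2))).card *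
        ((fs Saw (m - p.1 - p.2.1)).card * (fs Saw p.2.2).card) =
      (fs (fun w => (Saw w ∧ dx w = x ∧ dy w = y) ∧ Hf α β w) (p.2.1 + (p.1 - p.2.2)) ×ˢ
        (fs Saw (m - p.1 - p.2.1) ×ˢ fs Saw p.2.2)).card := by
    intro p
    rw [Finset.card_product, Finset.card_product]
  simp only [e]
  rw [← Finset.card_sigma]
  apply card_le_of_decode (fun q => (q.2.2.2 ++ q.2.1.drop q.1.2.1) ++
    (q.2.1.take q.1.2.1 ++ q.2.2.1))
  intro w hw
  rw [mem_fs] at hw
  obtain ⟨⟨hw1, hwx, hwy⟩, hwl⟩ := hw
  obtain ⟨t, ht, hu, hv⟩ := cyc_exists' α β w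
  have hsu : Saw (w.drop t) := hw1.subw (List.drop_suffix _ _).isInfix
  have hsv : Saw (w.take t) := hw1.subw (List.take_prefix _ _).isInfix
  have hlu : (w.drop t).length = m - t := by rw [List.length_drop, hwl]
  have hlv : (w.take t).length = t := by rw [List.length_take]; omega
  have f1 : dx w = dx (w.take t) + dx (w.drop t) := by rw [← dx_append, List.take_append_drop]
  have f2 : dy w = dy (w.take t) + dy (w.drop t) := by rw [← dy_append, List.take_append_drop]
  obtain ⟨i, j, hi, hj, h1, h2, h3⟩ := glue_exists hsu hsv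
  have hlen : ((w.drop t).take i).length = i := by rw [List.length_take]; omega
  refine ⟨⟨⟨t, (i, j)⟩, ((w.drop t).take i ++ (w.take t).drop j, (w.drop t).drop i,
    (w.take t).take j)⟩, ?_, ?_⟩
  · rw [Finset.mem_sigma, Finset.mem_sigma, Finset.mem_product, Finset.mem_product,
      Finset.mem_product, mem_fs, mem_fs, mem_fs, Finset.mem_range, Finset.mem_range,
      Finset.mem_range]
    simp only
    refine ⟨⟨by omega, by omega, by omega⟩, ⟨⟨⟨h1, by omega, by omega⟩, ?_⟩, ?_⟩, ⟨?_, ?_⟩, ?_, ?_⟩
    · apply hf_glue hi hu hv _ h2 h3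
      have e1 : dx (w.drop t) + dx (w.take t) = x := by omega
      have e2 : dy (w.drop t) + dy (w.take t) = y := by omega
      rw [e1, e2]
      exact hy
    · rw [List.length_append, hlen, List.length_drop, hlv]
    · exact hsu.subw (List.drop_suffix _ _).isInfix
    · rw [List.length_drop, hlu]
    · exact hsv.subw (List.take_prefix _ _).isInfix
    · rw [List.length_take]; omega
  · simp only
    have g1 : ((w.drop t).take i ++ (w.take t).drop j).take i = (w.drop t).take i := by
      have := List.take_left (l₁ := (w.drop t).take i) (l₂ := (w.take t).drop j)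
      rwa [hlen] at this
    have g2 : ((w.drop t).take i ++ (w.take t).drop j).drop i = (w.take t).drop j := by
      have := List.drop_left (l₁ := (w.drop t).take i) (l₂ := (w.take t).drop j)
      rwa [hlen] at this
    rw [g1, g2, List.take_append_drop, List.take_append_drop, List.take_append_drop]

/-- the normalised sum of a sequence of numbers of words -/
noncomputable def gs (M : ℕ) (g : ℕ → ℕ) : ℝ := ∑ m ∈ range (M + 1), (g m : ℝ) / mu ^ m

theorem gs_nonneg (M : ℕ) (g : ℕ → ℕ) : 0 ≤ gs M g := by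
  have := mu_pos
  unfold gs
  positivity

theorem le_gs {M m : ℕ} (g : ℕ → ℕ) (h : m ≤ M) : (g m : ℝ) / mu ^ m ≤ gs M g := by
  have hmu := mu_pos
  unfold gs
  exact Finset.single_le_sum (f := fun m => (g m : ℝ) / mu ^ m) (fun i _ => by positivity)
    (by rw [Finset.mem_range]; omega)

/-- **half-plane words are as numerous as all the words with the same ends** -/
theorem a_le_hp : ∃ K : ℝ, 0 ≤ K ∧ ∀ n : ℕ, 2 ≤ n → ∀ m ≤ n, ∀ α β x y : ℤ, fn α β (x, y) ≤ 0 →
    (a m x y : ℝ) / mu ^ m ≤ q n K * gs m (fun l => hp α β l x y) := by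
  obtain ⟨K, hK0, hup, hlow⟩ := exists_K
  refine ⟨2 * K + 18, by positivity, ?_⟩
  intro n hn m hm α β x y hxy
  have hmu := mu_pos
  have hn0 : (2 : ℝ) ≤ n := by exact_mod_cast hn
  rw [div_le_iff₀ (pow_pos hmu _)]
  have hcard : (a m x y : ℝ) ≤
      ∑ p ∈ (range (m + 1)).sigma (fun t => range (m - t + 1) ×ˢ range (t + 1)),
      (hp α β (p.2.1 + (p.1 - p.2.2)) x y : ℝ) * (c (m - p.1 - p.2.1) * c p.2.2) := by
    exact_mod_cast cyc_card' α β m hxy
  have hterm : ∀ p ∈ (range (m + 1)).sigma (fun t => range (m - t + 1) ×ˢ range (t + 1)),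
      (hp α β (p.2.1 + (p.1 - p.2.2)) x y : ℝ) * (c (m - p.1 - p.2.1) * c p.2.2) ≤
        q n (2 * K) * (gs m (fun l => hp α β l x y) * mu ^ m) := by
    intro p hp'
    rw [Finset.mem_sigma, Finset.mem_product, Finset.mem_range, Finset.mem_range,
      Finset.mem_range] at hp'
    obtain ⟨ht, hp1, hp2⟩ := hp'
    have e2 := hup n hn (m - p.1 - p.2.1) (by omega)
    have e3 := hup n hn p.2.2 (by omega)
    have hl : p.2.1 + (p.1 - p.2.2) ≤ m := by omega
    have e4 := le_gs (fun l => hp α β l x y) hl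
    rw [div_le_iff₀ (pow_pos hmu _)] at e4
    have g2 := q_pos n K
    calc (hp α β (p.2.1 + (p.1 - p.2.2)) x y : ℝ) * (c (m - p.1 - p.2.1) * c p.2.2)
        ≤ (gs m (fun l => hp α β l x y) * mu ^ (p.2.1 + (p.1 - p.2.2))) *
          ((mu ^ (m - p.1 - p.2.1) * q n K) * (mu ^ p.2.2 * q n K)) := by
          have := gs_nonneg m (fun l => hp α β l x y)
          gcongr
      _ = (q n K * q n K) * (gs m (fun l => hp α β l x y) *
          (mu ^ (p.2.1 + (p.1 - p.2.2)) * mu ^ (m - p.1 - p.2.1) * mu ^ p.2.2)) := by ring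
      _ = q n (2 * K) * (gs m (fun l => hp α β l x y) * mu ^ m) := by
          rw [← pow_add, ← pow_add, q_mul, two_mul]
          congr 3
          omega
  have hsum := Finset.sum_le_card_nsmul _ _ _ hterm
  have hcardS : ((range (m + 1)).sigma (fun t => range (m - t + 1) ×ˢ range (t + 1))).card ≤
      n ^ 6 := by
    rw [Finset.card_sigma]
    have h1 : ∀ t ∈ range (m + 1), (range (m - t + 1) ×ˢ range (t + 1)).card ≤ (n + 1) * (n + 1) := by
      intro t ht
      rw [Finset.mem_range] at ht
      rw [Finset.card_product, Finset.card_range, Finset.card_range]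
      exact Nat.mul_le_mul (by omega) (by omega)
    refine (Finset.sum_le_card_nsmul _ _ _ h1).trans ?_
    rw [Finset.card_range, smul_eq_mul]
    have h2 : n + 1 ≤ n ^ 2 := by nlinarith
    calc (m + 1) * ((n + 1) * (n + 1)) ≤ n ^ 2 * (n ^ 2 * n ^ 2) :=
          Nat.mul_le_mul (by omega) (Nat.mul_le_mul h2 h2)
      _ = n ^ 6 := by ring
  rw [nsmul_eq_mul] at hsum
  have hnum : ((((range (m + 1)).sigma (fun t => range (m - t + 1) ×ˢ range (t + 1))).card : ℕ) : ℝ)
      ≤ q n 18 := by
    have h3 := pow_le_q hn 6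
    norm_num at h3
    refine le_trans ?_ h3
    exact_mod_cast hcardS
  have hQ := q_pos n (2 * K)
  have hg := gs_nonneg m (fun l => hp α β l x y)
  calc (a m x y : ℝ) ≤ _ := hcard.trans hsum
    _ ≤ q n 18 * (q n (2 * K) * (gs m (fun l => hp α β l x y) * mu ^ m)) :=
        mul_le_mul_of_nonneg_right hnum (by positivity)
    _ = (q n 18 * q n (2 * K)) * (gs m (fun l => hp α β l x y) * mu ^ m) := by ring
    _ = q n (18 + 2 * K) * (gs m (fun l => hp α β l x y) * mu ^ m) := by rw [q_mul]
    _ = _ := by rw [add_comm 18 (2 * K)]; ring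

end Pool.Agent.T6.H44.PG
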