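import Pool.Agent.T6.H44.PG.CW

/-!
An upper and a lower arc make a simple closed curve which encloses all the cells between them.
-/

set_option autoImplicit false

namespace Pool.Agent.T6.H44.PG

open Pool.Agent.TH795.EP Pool.Agent.TH795.EP2 Pool.Agent.TH795.SE2 Pool.Agent.TH262.SawL
  Pool.Agent.Y981.L2 H981 Finset

theorem card_above_closed {W : List St} (hl : 1 ≤ W.length) (hx : dx W = 0) (hy : dy W = 0)
    (a b : ℤ) : Nat.card {k : ZMod W.length //
      Y981.L2.Above W.length (fun i : ZMod W.length => path W i.val) a b k} =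
    ∑ j ∈ range W.length, ix a b (path W j) (path W (j + 1)) := by
  obtain ⟨M, hM⟩ : ∃ M, M = W.length := ⟨_, rfl⟩
  rw [← hM]
  have : NeZero M := ⟨by omega⟩
  obtain ⟨V, hV⟩ : ∃ V, V = W.take (M - 1) := ⟨_, rfl⟩
  have hVl : V.length = M - 1 := by rw [hV, List.length_take]; omega
  have hp : ∀ t ≤ M - 1, path V t = path W t := by
    intro t ht
    rw [hV, path_take ht]
  have hfun : (fun i : ZMod M => path W i.val) = (fun i : ZMod M => path V i.val) := by
    funext i
    rw [hp _ (by have := ZMod.val_lt i; omega)]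
  rw [hfun, card_above' (by omega : M = V.length + 1)]
  unfold ccr
  have e1 : M = M - 1 + 1 := by omega
  rw [hVl]
  conv_rhs => rw [e1]
  rw [Finset.sum_range_succ, hp _ le_rfl, ← e1]
  have e2 : path W M = (0, 0) := by rw [hM, path_len, hx, hy]
  rw [e2]
  congr 1
  apply Finset.sum_congr rfl
  intro j hj
  rw [Finset.mem_range] at hj
  rw [hp j (by omega), hp (j + 1) (by omega)]

/-- the loop made of an upper and of a lower arc -/
theorem arc_loop {k l : ℤ} (hk : 2 ≤ k) {SU SW : ℤ × ℤ → Prop}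
    (hd : ∀ z, SU z → SW z → z.1 ≤ 0 ∨ k ≤ z.1) {u v : List St} (hu : Saw u) (hux : dx u = k)
    (huy : dy u = l) (huS : In SU 0 u) (hv : Saw v) (hvx : dx v = -k) (hvy : dy v = -l)
    (hvS : In SW (k, l) v) {X : Finset (ℤ × ℤ)} (hX : ∀ p ∈ X, 0 < p.1 ∧ p.1 < k ∧
      (∀ z, SU z → z.1 = p.1 → p.2 < z.2) ∧ ∀ z, SW z → z.1 = p.1 → z.2 < p.2) :
    ∃ j1 m2 j3 m1, j1 + m2 ≤ u.length ∧ j3 + m1 ≤ v.length ∧
      Clw X.card ((v.drop j3).take m1 ++ (u.drop j1).take m2) := by
  classical
  have huS' : ∀ i, SU (path u i) := by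
    intro i
    have := huS i
    rwa [zero_add] at this
  have hP : ∃ i, k ≤ (path u i).1 ∧ ∃ j, j ≤ v.length ∧ path u i = (k, l) + path v j := by
    refine ⟨u.length, ?_, 0, Nat.zero_le _, ?_⟩
    · rw [path_len, hux]
    · rw [path_len, hux, huy, path_zero']; simp
  obtain ⟨i2, hi2⟩ : ∃ i2, i2 = Nat.find hP := ⟨_, rfl⟩
  have hspec := Nat.find_spec hP
  rw [← hi2] at hspec
  obtain ⟨n1, j3, hj3, hj3e⟩ := hspec
  have hmin2 : ∀ i, k ≤ (path u i).1 → (∃ j, j ≤ v.length ∧ path u i = (k, l) + path v j) →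
      i2 ≤ i := by
    intro i g1 g2
    rw [hi2]
    exact Nat.find_min' hP ⟨g1, g2⟩
  have hi2l : i2 ≤ u.length := by
    apply hmin2
    · rw [path_len, hux]
    · exact ⟨0, Nat.zero_le _, by rw [path_len, hux, huy, path_zero']; simp⟩
  have hj3l : j3 < v.length := by
    rcases Nat.lt_or_ge j3 v.length with h | h
    · exact h
    · exfalso
      have h1 : j3 = v.length := le_antisymm hj3 h
      rw [h1, path_len, hvx, hvy] at hj3e
      have h2 := congrArg Prod.fst hj3e
      simp only [Prod.fst_add] at h2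
      omega
  have hQ : ∃ j, j3 < j ∧ j ≤ v.length ∧ ∃ i, i ≤ i2 ∧ path u i = (k, l) + path v j := by
    refine ⟨v.length, hj3l, le_rfl, 0, Nat.zero_le _, ?_⟩
    rw [path_zero', path_len, hvx, hvy]
    ext <;> simp
  obtain ⟨i4, hi4⟩ : ∃ i4, i4 = Nat.find hQ := ⟨_, rfl⟩
  have hspec4 := Nat.find_spec hQ
  rw [← hi4] at hspec4
  obtain ⟨q1, q2, j1, hj1, hj1e⟩ := hspec4
  have hmin4 : ∀ j, j3 < j → j < i4 → ∀ i ≤ i2, path u i ≠ (k, l) + path v j := by
    intro j g1 g2 i g3 g4
    rw [hi4] at g2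
    exact Nat.find_min hQ g2 ⟨g1, by omega, i, g3, g4⟩
  -- the left junction
  have hnear : (path u j1).1 ≤ 0 := by
    have h1 := hvS i4
    rw [← hj1e] at h1
    rcases hd _ (huS' j1) h1 with h | h
    · exact h
    · exfalso
      have h3 := hmin2 j1 h ⟨i4, q2, hj1e⟩
      have h4 : j1 = i2 := le_antisymm hj1 h3
      rw [h4, hj3e] at hj1e
      exact saw_iff'.1 hv j3 i4 q1 q2 (add_left_cancel hj1e)
  have hstep : ∀ t, j1 + t ≤ u.length → (path u (j1 + t)).1 ≤ (path u j1).1 + t := by
    intro t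
    induction t with
    | zero => intro _; simp
    | succ t ih =>
      intro ht
      have h1 := ih (by omega)
      have h2 := adj_path (w := u) (i := j1 + t) (by omega)
      have h3 := le_abs_self ((path u (j1 + t + 1)).1 - (path u (j1 + t)).1)
      have h4 := abs_nonneg ((path u (j1 + t + 1)).2 - (path u (j1 + t)).2)
      rw [show j1 + (t + 1) = j1 + t + 1 by ring]
      push_cast
      omega
  obtain ⟨m2, hm2⟩ : ∃ m2, m2 = i2 - j1 := ⟨_, rfl⟩
  obtain ⟨m1, hm1⟩ : ∃ m1, m1 = i4 - j3 := ⟨_, rfl⟩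
  have hm2' : 2 ≤ m2 := by
    have h1 := hstep (i2 - j1) (by omega)
    rw [show j1 + (i2 - j1) = i2 by omega] at h1
    omega
  refine ⟨j1, m2, j3, m1, by omega, by omega, ?_⟩
  obtain ⟨P1, hP1⟩ : ∃ P1, P1 = (v.drop j3).take m1 := ⟨_, rfl⟩
  obtain ⟨P2, hP2⟩ : ∃ P2, P2 = (u.drop j1).take m2 := ⟨_, rfl⟩
  rw [← hP1, ← hP2]
  have hl1 : P1.length = m1 := by
    rw [hP1, List.length_take, List.length_drop]; omega
  have hl2 : P2.length = m2 := by
    rw [hP2, List.length_take, List.length_drop]; omega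
  obtain ⟨z, hz⟩ : ∃ z, z = path u i2 := ⟨_, rfl⟩
  rw [← hz] at n1 hj3e
  -- positions
  have pos1 : ∀ s ≤ m1, path (P1 ++ P2) s = (k, l) + path v (j3 + s) - z := by
    intro s hs
    rw [path_append_left (by omega), hP1, path_take hs]
    have h1 := path_drop v j3 s
    rw [h1, hj3e]
    ext
    · simp
    · simp
  have hd1 : (dx P1, dy P1) = path u j1 - z := by
    have h1 := pos1 m1 le_rfl
    rw [path_append_left (by omega), ← hl1, path_len, hl1, show j3 + m1 = i4 by omega,
      ← hj1e] at h1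
    exact h1
  have pos2 : ∀ t ≤ m2, path (P1 ++ P2) (m1 + t) = path u (j1 + t) - z := by
    intro t ht
    have h1 := path_append_right P1 P2 t
    rw [hl1] at h1
    rw [h1, hP2, path_take ht]
    have h2 := path_drop u j1 t
    rw [h2]
    have e1 := congrArg Prod.fst hd1
    have e2 := congrArg Prod.snd hd1
    simp only [Prod.fst_sub, Prod.snd_sub] at e1 e2
    ext
    · simp only [Prod.fst_sub]; omega
    · simp only [Prod.snd_sub]; omega
  have hlen : (P1 ++ P2).length = m1 + m2 := by rw [List.length_append, hl1, hl2]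
  have hend : (dx (P1 ++ P2), dy (P1 ++ P2)) = ((0, 0) : ℤ × ℤ) := by
    have h1 := pos2 m2 le_rfl
    rw [← hlen, path_len, show j1 + m2 = i2 by omega, ← hz, sub_self] at h1
    exact h1
  have hclx : dx (P1 ++ P2) = 0 := (Prod.mk.inj hend).1
  have hcly : dy (P1 ++ P2) = 0 := (Prod.mk.inj hend).2
  have hinj : ∀ i j, i < j → j < (P1 ++ P2).length → path (P1 ++ P2) i ≠ path (P1 ++ P2) j := by
    intro i j hij hj
    rw [hlen] at hj
    rcases le_or_gt j m1 with h1 | h1
    · rw [pos1 i (by omega), pos1 j h1]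
      intro he
      have he' := add_left_cancel (sub_left_injective he)
      exact saw_iff'.1 hv (j3 + i) (j3 + j) (by omega) (by omega) he'
    · obtain ⟨t, rfl⟩ : ∃ t, j = m1 + t := ⟨j - m1, by omega⟩
      rw [pos2 t (by omega)]
      rcases Nat.lt_or_ge i m1 with h2 | h2
      · rw [pos1 i h2.le]
        intro he
        have he' := sub_left_injective he
        rcases Nat.eq_zero_or_pos i with h3 | h3
        · subst h3
          rw [add_zero, ← hj3e, hz] at he'
          exact saw_iff'.1 hu (j1 + t) i2 (by omega) hi2l he'.symm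
        · exact hmin4 (j3 + i) (by omega) (by omega) (j1 + t) (by omega) he'.symm
      · obtain ⟨s, rfl⟩ : ∃ s, i = m1 + s := ⟨i - m1, by omega⟩
        rw [pos2 s (by omega)]
        intro he
        have he' := sub_left_injective he
        exact saw_iff'.1 hu (j1 + s) (j1 + t) (by omega) (by omega) he'
  refine ⟨hclx, hcly, by omega, hinj, ?_⟩
  -- the enclosed cells
  have : NeZero (P1 ++ P2).length := ⟨by omega⟩
  have hodd : ∀ p ∈ X, Y981.L2.Encl (P1 ++ P2).length
      (fun i : ZMod (P1 ++ P2).length => path (P1 ++ P2) i.val) (p - z) := by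
    intro p hp
    obtain ⟨p1, p2, p3, p4⟩ := hX p hp
    unfold Y981.L2.Encl
    rw [card_above_closed (by omega) hclx hcly, hlen, Finset.sum_range_add]
    have hS1 : ∑ s ∈ range m1, ix (p - z).1 (p - z).2 (path (P1 ++ P2) s)
        (path (P1 ++ P2) (s + 1)) = 0 := by
      apply Finset.sum_eq_zero
      intro s hs
      rw [Finset.mem_range] at hs
      rw [pos1 s hs.le, pos1 (s + 1) (by omega)]
      have w1 := hvS (j3 + s)
      have w2 := hvS (j3 + (s + 1))
      have h2 := adj_path (w := v) (i := j3 + s) (by omega)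
      obtain ⟨A, hA⟩ : ∃ A, A = ((k, l) : ℤ × ℤ) + path v (j3 + s) := ⟨_, rfl⟩
      obtain ⟨B, hB⟩ : ∃ B, B = ((k, l) : ℤ × ℤ) + path v (j3 + (s + 1)) := ⟨_, rfl⟩
      rw [← hA] at w1
      rw [← hB] at w2
      rw [← hA, ← hB]
      have hAB : |B.1 - A.1| + |B.2 - A.2| = 1 := by
        rw [hA, hB]
        simp only [Prod.fst_add, Prod.snd_add]
        rw [show j3 + (s + 1) = j3 + s + 1 by ring, add_sub_add_left_eq_sub,
          add_sub_add_left_eq_sub]
        exact h2
      unfold ix
      rw [if_neg]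
      rintro ⟨h3, h4⟩
      simp only [Prod.fst_sub, Prod.snd_sub] at h3 h4
      have h5 : |B.1 - A.1| = 1 := by
        rcases h3 with h | h
        · have : B.1 - A.1 = 1 := by omega
          rw [this]; rfl
        · have : B.1 - A.1 = -1 := by omega
          rw [this]; rfl
      have h6 : |B.2 - A.2| = 0 := by omega
      rw [abs_eq_zero] at h6
      rcases h3 with h | h
      · have := p4 A w1 (by omega)
        omega
      · have := p4 B w2 (by omega)
        omega
    rw [hS1, zero_add, ← ZMod.natCast_eq_one_iff_odd]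
    have hS2 : ((∑ t ∈ range m2, ix (p - z).1 (p - z).2 (path (P1 ++ P2) (m1 + t))
        (path (P1 ++ P2) (m1 + t + 1)) : ℕ) : ZMod 2) =
        ∑ t ∈ range m2, ((if (path u (j1 + t)).1 ≤ p.1 then 1 else 0 : ZMod 2) +
          (if (path u (j1 + (t + 1))).1 ≤ p.1 then 1 else 0)) := by
      rw [Nat.cast_sum]
      apply Finset.sum_congr rfl
      intro t ht
      rw [Finset.mem_range] at ht
      rw [pos2 t ht.le, show m1 + t + 1 = m1 + (t + 1) by ring, pos2 (t + 1) (by omega)]
      have w1 := huS' (j1 + t)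
      have w2 := huS' (j1 + (t + 1))
      have h2 := adj_path (w := u) (i := j1 + t) (by omega)
      rw [show j1 + t + 1 = j1 + (t + 1) by ring] at h2
      obtain ⟨A, hA⟩ : ∃ A, A = path u (j1 + t) := ⟨_, rfl⟩
      obtain ⟨B, hB⟩ : ∃ B, B = path u (j1 + (t + 1)) := ⟨_, rfl⟩
      rw [← hA] at w1 h2
      rw [← hB] at w2 h2
      rw [← hA, ← hB]
      have h3 : |B.1 - A.1| ≤ 1 := by
        have := abs_nonneg (B.2 - A.2)
        omega
      rw [abs_le] at h3
      unfold ix
      simp only [Prod.fst_sub, Prod.snd_sub]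
      by_cases h4 : A.1 ≤ p.1 <;> by_cases h5 : B.1 ≤ p.1
      · rw [if_neg (by rintro ⟨h6, -⟩; omega), if_pos h4, if_pos h5]
        decide
      · have e1 : A.1 = p.1 := by omega
        have e2 : B.1 = p.1 + 1 := by omega
        have := p3 A w1 e1
        rw [if_pos ⟨Or.inl ⟨by omega, by omega⟩, by omega⟩, if_pos h4, if_neg h5]
        decide
      · have e1 : A.1 = p.1 + 1 := by omega
        have e2 : B.1 = p.1 := by omega
        have h6 := p3 B w2 e2
        have h7 : |B.1 - A.1| = 1 := by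
          have : B.1 - A.1 = -1 := by omega
          rw [this]; rfl
        have h8 : |B.2 - A.2| = 0 := by omega
        rw [abs_eq_zero] at h8
        rw [if_pos ⟨Or.inr ⟨by omega, by omega⟩, by omega⟩, if_neg h4, if_pos h5]
        decide
      · rw [if_neg (by rintro ⟨h6, -⟩; omega), if_neg h4, if_neg h5]
        decide
    rw [hS2, tele (fun t => if (path u (j1 + t)).1 ≤ p.1 then 1 else 0) m2]
    simp only [add_zero]
    rw [if_pos (by omega), if_neg (by rw [show j1 + m2 = i2 by omega, ← hz]; omega)]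
    decide
  have hfin : {c : ℤ × ℤ | Y981.L2.Encl (P1 ++ P2).length
      (fun i : ZMod (P1 ++ P2).length => path (P1 ++ P2) i.val) c}.Finite := by
    have hloop := loop_of (M := (P1 ++ P2).length) (by omega) rfl hclx hcly hinj
    exact finite_encl hloop.2.2
  have hcard : (X.image (fun p => p - z)).card = X.card :=
    Finset.card_image_of_injective _ (fun a b h => sub_left_injective h)
  rw [← hcard, wa_eq, ← Set.ncard_coe_finset]
  apply Set.ncard_le_ncard _ hfin
  intro c hc
  rw [Finset.mem_coe, Finset.mem_image] at hc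
  obtain ⟨p, hp, rfl⟩ := hc
  exact hodd p hp

end Pool.Agent.T6.H44.PG
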