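import Pool.Agent.T6.H44.PG.HP
import Pool.Agent.Y981.L2.Area4

/-!
Lengthening of closed words by the insertion of an arch at the bottom, for any property that
survives the insertion.
-/

set_option autoImplicit false

namespace Pool.Agent.T6.H44.PG

open Pool.Agent.TH795.EP Pool.Agent.TH795.EP2 Pool.Agent.TH795.SE2 Pool.Agent.TH262.SawL
  Pool.Agent.Y981.L2 H981 Finset

/-- `Q` survives the insertion of an arch below a bottom edge -/
def Stab (Q : List St → Prop) : Prop :=
  ∀ (V : List St) (i : ℕ) (hi : i < V.length) (t' : List St), dx t' = (V[i]).x →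
    dy t' = (V[i]).y → (∀ k, (path t' k).2 ≤ 0) → (∀ k, (path V i).2 ≤ (path V k).2) → Q V →
    Q (ins V i t')

/-- the words of the polygons with the property `Q` and with a bottom edge -/
def Cq (Q : List St → Prop) (V : List St) : Prop := Saw V ∧ |dx V| + |dy V| = 1 ∧ Bot V ∧ Q V

noncomputable def cq (Q : List St → Prop) (m : ℕ) : ℕ := (fs (Cq Q) m).card

/-- the words of the polygons with the property `Q` -/
def Cq' (Q : List St → Prop) (V : List St) : Prop := Saw V ∧ |dx V| + |dy V| = 1 ∧ Q V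

noncomputable def cq' (Q : List St → Prop) (m : ℕ) : ℕ := (fs (Cq' Q) m).card

variable {Q : List St → Prop}

theorem cq_le_cq' (m : ℕ) : cq Q m ≤ cq' Q m := by
  unfold cq cq'
  apply Finset.card_le_card
  intro w hw
  rw [mem_fs] at hw ⊢
  exact ⟨⟨hw.1.1, hw.1.2.1, hw.1.2.2.2⟩, hw.2⟩

theorem cq_mul_ar (hQ : Stab Q) (m L : ℕ) : cq Q m * ar L ≤ m * cq' Q (m + L + 1) := by
  classical
  unfold cq cq' ar
  have e : m * (fs (Cq' Q) (m + L + 1)).card = (range m ×ˢ fs (Cq' Q) (m + L + 1)).card := by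
    rw [Finset.card_product, Finset.card_range]
  rw [← Finset.card_product, e]
  apply card_le_of_decode (fun q => (q.2.take q.1 ++
    ((if dx ((q.2.drop (q.1 + 1)).take L) = 1 then St.E else St.W) ::
      q.2.drop (q.1 + 1 + L + 1)),
    (if dx ((q.2.drop (q.1 + 1)).take L) = 1 then (q.2.drop (q.1 + 1)).take L else
      sg ((q.2.drop (q.1 + 1)).take L))))
  rintro ⟨w, t⟩ h
  rw [Finset.mem_product, mem_fs, mem_fs] at h
  obtain ⟨⟨⟨hw, hadj, hbot, henc⟩, hwl⟩, ⟨ht, htx, hty, htn⟩, htl⟩ := h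
  simp only at hw hadj hbot henc hwl ht htx hty htn htl
  obtain ⟨i, hi, hs, hmin⟩ := hbot
  have hx : dx (tw w[i] t) = (w[i]).x := dx_tw hs htx
  have hy : dy (tw w[i] t) = (w[i]).y := by
    rw [dy_tw, hty]
    rcases hs with h | h <;> rw [h] <;> rfl
  have hlt : (tw w[i] t).length = L := by rw [length_tw, htl]
  have hd := disp_ins hi hx hy
  have hneg : ∀ k, (path (tw w[i] t) k).2 ≤ 0 := fun k => by rw [path_tw_snd]; exact htn k
  refine ⟨(i, ins w i (tw w[i] t)), ?_, ?_⟩
  · rw [Finset.mem_product, mem_fs, Finset.mem_range]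
    refine ⟨by omega, ⟨saw_ins hw hi (saw_tw ht) hx hy hmin hneg, ?_, ?_⟩, ?_⟩
    · rw [hd.1, hd.2]; exact hadj
    · exact hQ w i hi _ hx hy hneg hmin henc
    · simp only
      rw [length_ins hi, hlt, hwl]
  · simp only
    have hlen : (w.take i).length = i := by rw [List.length_take]; omega
    have g1 : (ins w i (tw w[i] t)).take i = w.take i := by
      unfold ins
      have := List.take_left (l₁ := w.take i)
        (l₂ := St.S :: (tw w[i] t ++ (St.N :: w.drop (i + 1))))
      rwa [hlen] at this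
    have g2 : (ins w i (tw w[i] t)).drop (i + 1) = tw w[i] t ++ (St.N :: w.drop (i + 1)) := by
      unfold ins
      have := List.drop_left (l₁ := w.take i)
        (l₂ := St.S :: (tw w[i] t ++ (St.N :: w.drop (i + 1))))
      rw [hlen] at this
      rw [← List.drop_drop, this, List.drop_succ_cons, List.drop_zero]
    have g3 : ((ins w i (tw w[i] t)).drop (i + 1)).take L = tw w[i] t := by
      rw [g2]
      have := List.take_left (l₁ := tw w[i] t) (l₂ := St.N :: w.drop (i + 1))
      rwa [hlt] at this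
    have g4 : (ins w i (tw w[i] t)).drop (i + 1 + L + 1) = w.drop (i + 1) := by
      have := List.drop_left (l₁ := tw w[i] t) (l₂ := St.N :: w.drop (i + 1))
      rw [hlt] at this
      rw [show i + 1 + L + 1 = (i + 1) + L + 1 by ring, ← List.drop_drop, ← List.drop_drop, g2,
        this, List.drop_succ_cons, List.drop_zero]
    rw [g1, g3, g4, hx]
    have hw2 : w.take i ++ (w[i] :: w.drop (i + 1)) = w := by
      rw [← List.drop_eq_getElem_cons hi, List.take_append_drop]
    rcases hs with h | h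
    · rw [h, St.x_E, if_pos rfl, if_pos rfl]
      rw [h] at hw2
      simp only [hw2, tw, if_true]
    · rw [h, St.x_W, if_neg (by norm_num), if_neg (by norm_num)]
      rw [h] at hw2
      have : tw St.W t = sg t := by simp [tw]
      rw [hw2, this, sg_sg]

theorem cq_lengthen {n : ℕ} (hn : 2 ≤ n) {K : ℝ} (hK0 : 0 ≤ K)
    (hlow : ∀ j : ℕ, 2 ≤ j → j ≤ n → mu ^ (2 * j) * q n (-K) ≤ ar (2 * j - 1)) (hQ : Stab Q)
    {m j : ℕ} (hmn : m + 2 * j ≤ n) :
    (cq Q m : ℝ) * mu ^ (2 * j) ≤ q n (K + 21) * cq' Q (m + 2 * j) := by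
  have hmu := mu_pos
  have hn0 : (2 : ℝ) ≤ n := by exact_mod_cast hn
  have hmn' : (m : ℝ) ≤ n := by exact_mod_cast (by omega : m ≤ n)
  rcases Nat.eq_zero_or_pos j with h0 | h0
  · subst h0
    simp only [mul_zero, pow_zero, mul_one, add_zero]
    have h1 := one_le_q hn (by linarith : (0 : ℝ) ≤ K + 21)
    have h2 : (cq Q m : ℝ) ≤ cq' Q m := by exact_mod_cast cq_le_cq' m
    have h3 : (0 : ℝ) ≤ cq' Q m := Nat.cast_nonneg _
    nlinarith
  · rcases Nat.lt_or_ge j 2 with h1 | h1
    · obtain rfl : j = 1 := by omega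
      have h2 := cq_mul_ar hQ m 1
      have h3 := one_le_ar (j := 1) le_rfl
      norm_num at h3
      have h4 : (cq Q m : ℝ) ≤ m * cq' Q (m + 2) := by
        have : cq Q m ≤ m * cq' Q (m + 2) := by
          calc cq Q m = cq Q m * 1 := (mul_one _).symm
            _ ≤ cq Q m * ar 1 := Nat.mul_le_mul_left _ h3
            _ ≤ _ := h2
        exact_mod_cast this
      have h5 : mu ^ 2 ≤ 16 := by
        have := mu_le_four
        nlinarith
      have h6 : (n : ℝ) ^ 7 ≤ q n (K + 21) := by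
        have h7 := pow_le_q hn 7
        norm_num at h7
        exact h7.trans (q_mono hn (by linarith))
      have hA : (0 : ℝ) ≤ cq' Q (m + 2) := Nat.cast_nonneg _
      have h8 : (16 : ℝ) * m ≤ (n : ℝ) ^ 7 := by
        have h9 : (16 : ℝ) ≤ (n : ℝ) ^ 6 := by
          calc (16 : ℝ) ≤ 2 ^ 6 := by norm_num
            _ ≤ (n : ℝ) ^ 6 := pow_le_pow_left₀ (by norm_num) hn0 6
        calc (16 : ℝ) * m ≤ (n : ℝ) ^ 6 * n := mul_le_mul h9 hmn' (Nat.cast_nonneg _) (by positivity)
          _ = (n : ℝ) ^ 7 := by ring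
      calc (cq Q m : ℝ) * mu ^ (2 * 1) ≤ (m * cq' Q (m + 2)) * 16 := by
            rw [mul_one]
            exact mul_le_mul h4 h5 (by positivity) (by positivity)
        _ = (16 * m) * cq' Q (m + 2) := by ring
        _ ≤ q n (K + 21) * cq' Q (m + 2) := mul_le_mul_of_nonneg_right (h8.trans h6) hA
        _ = _ := by norm_num
    · have h2 := hlow j h1 (by omega)
      have h3 := cq_mul_ar hQ m (2 * j - 1)
      rw [show m + (2 * j - 1) + 1 = m + 2 * j by omega] at h3
      have h4 : (cq Q m : ℝ) * ar (2 * j - 1) ≤ m * cq' Q (m + 2 * j) := by exact_mod_cast h3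
      have hA : (0 : ℝ) ≤ cq' Q (m + 2 * j) := Nat.cast_nonneg _
      have hA' : (0 : ℝ) ≤ cq Q m := Nat.cast_nonneg _
      have hq := q_pos n K
      have h5 : (cq Q m : ℝ) * (mu ^ (2 * j) * q n (-K)) ≤ m * cq' Q (m + 2 * j) :=
        (mul_le_mul_of_nonneg_left h2 hA').trans h4
      have h6 : (m : ℝ) ≤ q n 9 := by
        have h7 := pow_le_q hn 3
        norm_num at h7
        refine le_trans ?_ h7
        nlinarith [sq_nonneg ((n : ℝ) - 1)]
      calc (cq Q m : ℝ) * mu ^ (2 * j)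
          = ((cq Q m : ℝ) * (mu ^ (2 * j) * q n (-K))) * q n K := by
            rw [show (cq Q m : ℝ) * (mu ^ (2 * j) * q n (-K)) * q n K =
              (cq Q m : ℝ) * mu ^ (2 * j) * (q n K * q n (-K)) by ring, q_cancel, mul_one]
        _ ≤ (m * cq' Q (m + 2 * j)) * q n K := mul_le_mul_of_nonneg_right h5 hq.le
        _ ≤ (q n 9 * cq' Q (m + 2 * j)) * q n K := by gcongr
        _ = (q n K * q n 9) * cq' Q (m + 2 * j) := by ring
        _ = q n (K + 9) * cq' Q (m + 2 * j) := by rw [q_mul]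
        _ ≤ _ := mul_le_mul_of_nonneg_right (q_mono hn (by linarith)) hA

theorem cq_odd {m : ℕ} (h : 0 < cq Q m) : m % 2 = 1 := by
  unfold cq at h
  obtain ⟨w, hw⟩ := Finset.card_pos.1 h
  rw [mem_fs] at hw
  obtain ⟨⟨-, hadj, -⟩, hl⟩ := hw
  have h1 := parity w
  rcases abs_cases (dx w) with h2 | h2 <;> rcases abs_cases (dy w) with h3 | h3 <;> omega

/-- **all lengths are as good as the largest one** -/
theorem gs_cq : ∃ K : ℝ, 0 ≤ K ∧ ∀ n : ℕ, 1 ≤ n → ∀ Q : List St → Prop, Stab Q →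
    gs (2 * n - 1) (cq Q) * mu ^ (2 * n - 1) ≤ q (2 * n) K * cq' Q (2 * n - 1) := by
  obtain ⟨K, hK, -, hlow⟩ := exists_K
  refine ⟨K + 21 + 3, by positivity, ?_⟩
  intro n hn Q hQ
  have hmu := mu_pos
  have hN2 : 2 ≤ 2 * n := by omega
  unfold gs
  rw [Finset.sum_mul]
  have hterm : ∀ m ∈ range (2 * n - 1 + 1), (cq Q m : ℝ) / mu ^ m * mu ^ (2 * n - 1) ≤
      q (2 * n) (K + 21) * cq' Q (2 * n - 1) := by
    intro m hm
    rw [Finset.mem_range] at hm
    rcases Nat.eq_zero_or_pos (cq Q m) with h0 | h0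
    · rw [h0]
      have := q_pos (2 * n) (K + 21)
      simp only [Nat.cast_zero, zero_div, zero_mul]
      positivity
    · have hodd := cq_odd h0
      obtain ⟨j, hj⟩ : ∃ j, m + 2 * j = 2 * n - 1 := ⟨(2 * n - 1 - m) / 2, by omega⟩
      have h1 := cq_lengthen hN2 hK (hlow (2 * n) hN2) hQ (m := m) (j := j) (by omega)
      rw [hj] at h1
      have e1 : mu ^ (2 * n - 1) = mu ^ m * mu ^ (2 * j) := by rw [← pow_add, hj]
      rw [e1, ← mul_assoc, div_mul_cancel₀ _ (pow_pos hmu _).ne']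
      exact h1
  have hsum := Finset.sum_le_card_nsmul _ _ _ hterm
  rw [Finset.card_range, nsmul_eq_mul] at hsum
  refine hsum.trans ?_
  have h2 : ((2 * n - 1 + 1 : ℕ) : ℝ) ≤ q (2 * n) 3 := by
    have h3 := pow_le_q hN2 1
    norm_num at h3
    refine le_trans ?_ h3
    rw [Nat.sub_add_cancel (by omega)]
    push_cast
    exact le_rfl
  have h4 : (0 : ℝ) ≤ cq' Q (2 * n - 1) := Nat.cast_nonneg _
  have h5 := q_pos (2 * n) (K + 21)
  calc ((2 * n - 1 + 1 : ℕ) : ℝ) * (q (2 * n) (K + 21) * cq' Q (2 * n - 1))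
      ≤ q (2 * n) 3 * (q (2 * n) (K + 21) * cq' Q (2 * n - 1)) :=
        mul_le_mul_of_nonneg_right h2 (by positivity)
    _ = (q (2 * n) (K + 21) * q (2 * n) 3) * cq' Q (2 * n - 1) := by ring
    _ = _ := by rw [q_mul]

/-- from the words to the loops -/
theorem cq_loops {n : ℕ} (hn : 1 ≤ n) {Q : List St → Prop} {P : (ZMod (2 * n) → ℤ × ℤ) → Prop}
    (h : ∀ V : List St, Cq' Q V → V.length + 1 = 2 * n → P (fun i : ZMod (2 * n) => path V i.val)) :
    cq' Q (2 * n - 1) ≤ {f : ZMod (2 * n) → ℤ × ℤ | IsLoop (2 * n) f ∧ P f}.ncard := by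
  classical
  have hfin := loops_finite hn
  have hfin2 : {f : ZMod (2 * n) → ℤ × ℤ | IsLoop (2 * n) f ∧ P f}.Finite :=
    hfin.subset (fun f hf => hf.1)
  unfold cq'
  have hinj : ((fs (Cq' Q) (2 * n - 1)).image
      (fun V : List St => fun i : ZMod (2 * n) => path V i.val)).card =
      (fs (Cq' Q) (2 * n - 1)).card := by
    apply Finset.card_image_of_injOn
    intro V hV V' hV' he
    rw [Finset.mem_coe, mem_fs] at hV hV'
    apply word_ext (by omega)
    intro j hj
    have h1 := congrFun he (j : ZMod (2 * n))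
    simp only at h1
    rwa [ZMod.val_cast_of_lt (by omega)] at h1
  rw [← hinj, ← Set.ncard_coe_finset]
  apply Set.ncard_le_ncard _ hfin2
  intro f hf
  rw [Finset.mem_coe, Finset.mem_image] at hf
  obtain ⟨V, hV, rfl⟩ := hf
  rw [mem_fs] at hV
  obtain ⟨hV1, hV2⟩ := hV
  exact ⟨loop_close (by omega) (by omega) hV1.1 hV1.2.1, h V hV1 (by omega)⟩

end Pool.Agent.T6.H44.PG
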