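import Pool.Agent.T6.H44.PG.Fin
import Pool.Agent.T6.H44.AR.Defs3

/-!
The sublevel sets of the logarithmic moment generating function of the end point of the
self-avoiding walk in terms of the rate function.
-/

set_option autoImplicit false

namespace Pool.Agent.T6.H44.PG

open Pool.Agent.TH795.EP Pool.Agent.TH795.EP2 Pool.Agent.TH795.SE2 Pool.Agent.TH262.SawL
  Pool.Agent.Y981.L2 H981 Finset Pool.Agent.T6.H53.AL Filter Topology

theorem Z_upper {K : ℝ} (hK : ∀ n : ℕ, 2 ≤ n → ∀ x y : ℤ, 0 < a n x y →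
    Real.log (a n x y) ≤ n * Real.log mu - n * Rate ((x : ℝ) / n, (y : ℝ) / n) +
      K * Real.log n ^ 2) {h : ℝ × ℝ} {E : ℝ} (hh : h ∈ AR.KE Rate E) {n : ℕ} (hn : 2 ≤ n) :
    Z h n ≤ ((2 * n + 1) ^ 2 : ℕ) *
      Real.exp (n * Real.log mu + n * E + K * Real.log n ^ 2) := by
  have hn0 : (0 : ℝ) < n := by exact_mod_cast (by omega : 0 < n)
  rw [Z_eq, ← card_Bx, ← nsmul_eq_mul]
  apply Finset.sum_le_card_nsmul
  intro z _
  rcases Nat.eq_zero_or_pos (a n z.1 z.2) with h0 | h0
  · rw [h0, Nat.cast_zero, zero_mul]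
    exact (Real.exp_pos _).le
  · have h1 := hK n hn z.1 z.2 h0
    obtain ⟨w, -, g1, g2, g3⟩ := exists_of_a h0
    have g4 := abs_add_abs_le w
    rw [g1, g2, g3] at g4
    have h2 : ((z.1 : ℝ) / n, (z.2 : ℝ) / n) ∈ AR.Dia := by
      show |(z.1 : ℝ) / n| + |(z.2 : ℝ) / n| ≤ 1
      rw [abs_div, abs_div, abs_of_pos hn0, ← add_div, div_le_one hn0]
      exact_mod_cast g4
    have h3 := hh _ h2
    simp only at h3
    have h4 : h.1 * z.1 + h.2 * z.2 ≤ n * (E + Rate ((z.1 : ℝ) / n, (z.2 : ℝ) / n)) := by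
      have := mul_le_mul_of_nonneg_left h3 hn0.le
      have e : (n : ℝ) * (h.1 * ((z.1 : ℝ) / n) + h.2 * ((z.2 : ℝ) / n)) =
          h.1 * z.1 + h.2 * z.2 := by field_simp
      rw [e] at this
      exact this
    have h5 : (0 : ℝ) < a n z.1 z.2 := by exact_mod_cast h0
    rw [← Real.exp_log h5, ← Real.exp_add]
    apply Real.exp_le_exp.2
    linarith

theorem lam_iff (h : ℝ × ℝ) (E : ℝ) : Lam h ≤ E ↔ h ∈ AR.KE Rate E := by
  constructor
  · intro hE w hw
    have := le_rate (show w ∈ Dia from hw) h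
    linarith
  · intro hh
    obtain ⟨K, hK0, hK⟩ := Y981.L2.a_le
    have ht := Lam_tendsto h
    have hc : Tendsto (fun n : ℕ => (2 * (Real.log ((2 * n + 1 : ℕ) : ℝ)) / n +
        K * (Real.log (n : ℝ) ^ 2 / n)) + (Real.log mu + E)) atTop
        (𝓝 ((0 + K * 0) + (Real.log mu + E))) := by
      apply Tendsto.add_const
      apply Tendsto.add
      · have h1 : Tendsto (fun n : ℕ => 2 * (Real.log (3 * n : ℝ) / (3 * n)) * 3) atTop
            (𝓝 (2 * 0 * 3)) := by
          apply Tendsto.mul_const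
          apply Tendsto.const_mul
          have h2 : Tendsto (fun x : ℝ => Real.log x / x) atTop (𝓝 0) := by
            have := (Real.isLittleO_pow_log_id_atTop (n := 1)).tendsto_div_nhds_zero
            simpa using this
          exact h2.comp (tendsto_natCast_atTop_atTop.const_mul_atTop (by norm_num : (0 : ℝ) < 3))
        rw [mul_zero, zero_mul] at h1
        refine tendsto_of_tendsto_of_tendsto_of_le_of_le' tendsto_const_nhds h1 ?_ ?_
        · filter_upwards [eventually_ge_atTop 1] with n hn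
          have : 0 ≤ Real.log ((2 * n + 1 : ℕ) : ℝ) :=
            Real.log_nonneg (by exact_mod_cast (by omega : 1 ≤ 2 * n + 1))
          positivity
        · filter_upwards [eventually_ge_atTop 1] with n hn
          have hn0 : (0 : ℝ) < n := by exact_mod_cast hn
          have h3 : Real.log ((2 * n + 1 : ℕ) : ℝ) ≤ Real.log (3 * n : ℝ) := by
            apply Real.log_le_log (by positivity)
            have : (1 : ℝ) ≤ n := by exact_mod_cast hn
            push_cast
            linarith
          have e : 2 * (Real.log (3 * n : ℝ) / (3 * n)) * 3 = 2 * Real.log (3 * n : ℝ) / n := by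
            field_simp
          rw [e]
          exact div_le_div_of_nonneg_right (by linarith) hn0.le
      · apply Tendsto.const_mul
        have h2 : Tendsto (fun x : ℝ => Real.log x ^ 2 / x) atTop (𝓝 0) :=
          (Real.isLittleO_pow_log_id_atTop (n := 2)).tendsto_div_nhds_zero
        exact h2.comp tendsto_natCast_atTop_atTop
    have hle := le_of_tendsto_of_tendsto ht hc (by
      filter_upwards [eventually_ge_atTop 2] with n hn
      have hn0 : (0 : ℝ) < n := by exact_mod_cast (by omega : 0 < n)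
      have h1 := Real.log_le_log (Z_pos h n) (Z_upper hK hh hn)
      have hb : (0 : ℝ) < ((2 * n + 1 : ℕ) : ℝ) := by positivity
      have e : (((2 * n + 1) ^ 2 : ℕ) : ℝ) = ((2 * n + 1 : ℕ) : ℝ) ^ 2 := by push_cast; ring
      rw [e, Real.log_mul (by positivity) (Real.exp_pos _).ne', Real.log_exp, Real.log_pow] at h1
      rw [div_le_iff₀ hn0]
      have e2 : (2 * (Real.log ((2 * n + 1 : ℕ) : ℝ)) / n + K * (Real.log (n : ℝ) ^ 2 / n) +
          (Real.log mu + E)) * n = 2 * Real.log ((2 * n + 1 : ℕ) : ℝ) +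
          (n * Real.log mu + n * E + K * Real.log n ^ 2) := by
        field_simp
        ring
      rw [e2]
      exact_mod_cast h1)
    linarith

theorem rt_rate : AR.Rt Rate where
  conv := convex_rate
  zero := R_zero
  nonneg := fun _ hv => rate_nonneg hv
  bdd := ⟨Real.log mu, fun _ hv => rate_le hv⟩
  refl := by
    intro x y hxy
    have hv : ((x, y) : ℝ × ℝ) ∈ Dia := hxy
    have hv1 : ((-x, y) : ℝ × ℝ) ∈ Dia := by
      show |-x| + |y| ≤ 1
      rw [abs_neg]; exact hxy
    have hv2 : ((x, -y) : ℝ × ℝ) ∈ Dia := by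
      show |x| + |-y| ≤ 1
      rw [abs_neg]; exact hxy
    have h0 := rate_abs hv
    have h1 := rate_abs hv1
    have h2 := rate_abs hv2
    simp only [abs_neg] at h0 h1 h2
    exact ⟨by rw [← h1, h0], by rw [← h2, h0]⟩
  swp := by
    intro x y hxy
    exact rate_sw (v := (x, y)) hxy

theorem Lam_conv (h : ℝ × ℝ) : Tendsto (fun n : ℕ => Real.log (Z h n / c n) / n) atTop
    (𝓝 (Lam h)) := by
  have h1 := Lam_tendsto h
  have h2 : Tendsto (fun n : ℕ => Real.log (c n : ℝ) / n) atTop (𝓝 (Real.log mu)) := by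
    have h3 := (Real.continuousAt_log mu_pos.ne').tendsto.comp
      (H981.tendsto_root)
    refine h3.congr ?_
    intro n
    simp only [Function.comp]
    rw [← TH795.EP.c_eq, Real.log_rpow (c_pos n)]
    ring
  have h3 := h1.sub h2
  have e : Lam h + Real.log mu - Real.log mu = Lam h := by ring
  rw [e] at h3
  refine h3.congr ?_
  intro n
  rw [Real.log_div (Z_pos h n).ne' (c_pos n).ne', sub_div]

end Pool.Agent.T6.H44.PG
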