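import Pool.Agent.T6.H44.PG.Len

/-!
Two half-plane words make a polygon of given width and height.
-/

set_option autoImplicit false

namespace Pool.Agent.T6.H44.PG

open Pool.Agent.TH795.EP Pool.Agent.TH795.EP2 Pool.Agent.TH795.SE2 Pool.Agent.TH262.SawL
  Pool.Agent.Y981.L2 H981 Finset

/-- the closed word is at least `k` wide and at least `l` high -/
def Wh (k l : ℤ) (V : List St) : Prop :=
  (∃ i j, k ≤ (path V i).1 - (path V j).1) ∧ ∃ i j, l ≤ (path V i).2 - (path V j).2

theorem site_ins {V : List St} {i : ℕ} (hi : i < V.length) {t' : List St}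
    (hx : dx t' = (V[i]).x) (hy : dy t' = (V[i]).y) (k : ℕ) :
    ∃ k', path (ins V i t') k' = path V k := by
  rcases le_or_gt k i with h | h
  · exact ⟨k, path_ins_left hi t' h⟩
  · obtain ⟨l, rfl⟩ : ∃ l, k = i + 1 + l := ⟨k - i - 1, by omega⟩
    exact ⟨_, path_ins_right hi hx hy l⟩

theorem stab_Wh (k l : ℤ) : Stab (Wh k l) := by
  rintro V i hi t' hx hy - - ⟨⟨a, b, h1⟩, c, d, h2⟩
  obtain ⟨a', ha⟩ := site_ins hi hx hy a
  obtain ⟨b', hb⟩ := site_ins hi hx hy b
  obtain ⟨c', hc⟩ := site_ins hi hx hy c
  obtain ⟨d', hd⟩ := site_ins hi hx hy d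
  exact ⟨⟨a', b', by rw [ha, hb]; exact h1⟩, c', d', by rw [hc, hd]; exact h2⟩

theorem ng_sg_invol (w : List St) : ng (sg (ng (sg w))) = w := by
  rw [show sg (ng (sg w)) = ng (sg (sg w)) by
    unfold sg ng
    rw [List.map_map, List.map_map, List.map_map, List.map_map]
    congr 1
    funext s
    cases s <;> rfl, sg_sg, ng_ng]

/-- two half-plane words with the same ends make a closed word -/
theorem two_hp {m1 m2 : ℕ} {x y : ℤ} (hx : 1 ≤ x) :
    hp (-y) x m1 x y * hp (-y) x m2 x y ≤ cq (Wh x (y + 1)) (m1 + m2 + 1) := by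
  classical
  unfold hp cq
  rw [← Finset.card_product]
  apply card_le_of_decode (fun V => (V.take m1, ng (sg (V.drop (m1 + 1)))))
  rintro ⟨u, v⟩ h
  rw [Finset.mem_product, mem_fs, mem_fs] at h
  obtain ⟨⟨⟨⟨hu, hux, huy⟩, huh⟩, hul⟩, ⟨⟨hv, hvx, hvy⟩, hvh⟩, hvl⟩ := h
  simp only at hu hux huy huh hul hv hvx hvy hvh hvl
  obtain ⟨V, hV⟩ : ∃ V, V = u ++ (St.N :: ng (sg v)) := ⟨_, rfl⟩
  have hl : V.length = m1 + m2 + 1 := by
    rw [hV, List.length_append, List.length_cons, length_ng, length_sg]; omega
  have p1 : ∀ k ≤ m1, path V k = path u k := by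
    intro k hk
    rw [hV]
    exact path_append_left (by omega)
  have p2 : ∀ l, path V (m1 + (l + 1)) = (x - (path v l).1, y + 1 - (path v l).2) := by
    intro l
    have h1 := path_append_right u (St.N :: ng (sg v)) (l + 1)
    rw [hul] at h1
    rw [hV, h1, path_cons_succ, path_rot]
    simp only [St.x_N, St.y_N, Prod.mk.injEq]
    constructor <;> omega
  have hm1 : 1 ≤ m1 := by
    by_contra hcon
    have : u = [] := List.length_eq_zero_iff.1 (by omega)
    subst this
    have : dx ([] : List St) = 0 := rfl
    omega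
  have hm2 : 1 ≤ m2 := by
    by_contra hcon
    have : v = [] := List.length_eq_zero_iff.1 (by omega)
    subst this
    have : dx ([] : List St) = 0 := rfl
    omega
  have hdx : dx V = 0 := by
    rw [hV, dx_append, dx_cons, dx_ng, dx_sg]
    simp only [St.x_N]
    omega
  have hdy : dy V = 1 := by
    rw [hV, dy_append, dy_cons, dy_ng, dy_sg]
    simp only [St.y_N]
    omega
  have hsaw : Saw V := by
    rw [saw_iff']
    intro i j hij hj
    rw [hl] at hj
    rcases Nat.lt_or_ge m1 j with h2 | h2
    · obtain ⟨l, rfl⟩ : ∃ l, j = m1 + (l + 1) := ⟨j - m1 - 1, by omega⟩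
      rw [p2 l]
      rcases Nat.lt_or_ge m1 i with h3 | h3
      · obtain ⟨l', rfl⟩ : ∃ l', i = m1 + (l' + 1) := ⟨i - m1 - 1, by omega⟩
        rw [p2 l']
        intro he
        obtain ⟨e1, e2⟩ := Prod.mk.inj he
        exact saw_iff'.1 hv l' l (by omega) (by omega) (Prod.ext (by omega) (by omega))
      · rw [p1 i h3]
        intro he
        have h4 := huh i
        have h5 := hvh l
        rw [he] at h4
        unfold fn at h4 h5
        simp only at h4 h5
        nlinarith
    · rw [p1 i (by omega), p1 j h2]
      exact saw_iff'.1 hu i j hij (by omega)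
  refine ⟨V, ?_, ?_⟩
  · rw [mem_fs]
    refine ⟨⟨hsaw, by rw [hdx, hdy]; norm_num, ?_, ⟨m1 + (0 + 1), 0, ?_⟩, m1 + (0 + 1), 0, ?_⟩, hl⟩
    · -- a bottom edge
      obtain ⟨i0, hi0, hmax⟩ : ∃ i ∈ range (V.length + 1),
          ∀ k ∈ range (V.length + 1), (path V i).2 ≤ (path V k).2 :=
        Finset.exists_min_image (range (V.length + 1))
          (fun k => (path V k).2) ⟨0, by simp⟩
      have hmin' : ∀ k, (path V i0).2 ≤ (path V k).2 := by
        intro k
        rcases le_or_gt k V.length with h | h
        · exact hmax k (by rw [Finset.mem_range]; omega)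
        · rw [path_ge h.le]
          exact hmax _ (by rw [Finset.mem_range]; omega)
      rw [Finset.mem_range] at hi0
      rcases Nat.eq_zero_or_pos i0 with h0 | h0
      · subst h0
        apply bot_of_min hsaw (i := 1) one_pos (by omega)
        intro k
        refine le_trans ?_ (hmin' k)
        rw [path_zero', p1 1 hm1]
        have h1 := path_succ (w := u) (i := 0) (by omega)
        rw [path_zero'] at h1
        simp only [zero_add] at h1
        have h2 := huh 1
        unfold fn at h2
        rw [h1.1, h1.2] at h2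
        simp only
        rw [h1.2]
        cases hc : (u[0]'(by omega)) with
        | E => simp
        | W => simp
        | N =>
          rw [hc] at h2
          simp at h2
          omega
        | S => simp
      · rcases Nat.lt_or_ge i0 V.length with h1 | h1
        · exact bot_of_min hsaw h0 h1 hmin'
        · exfalso
          have h2 : i0 = V.length := by omega
          have h3 := hmin' 0
          rw [h2, path_len, hdy, path_zero'] at h3
          simp at h3
    · rw [p2 0, path_zero', path_zero']
      simp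
    · rw [p2 0, path_zero', path_zero']
      simp
  · show (V.take m1, ng (sg (V.drop (m1 + 1)))) = (u, v)
    have g1 : V.take m1 = u := by
      rw [hV]
      have := List.take_left (l₁ := u) (l₂ := St.N :: ng (sg v))
      rwa [hul] at this
    have g2 : V.drop (m1 + 1) = ng (sg v) := by
      have := List.drop_left (l₁ := u) (l₂ := St.N :: ng (sg v))
      rw [hul] at this
      rw [← List.drop_drop, hV, this, List.drop_succ_cons, List.drop_zero]
    rw [g1, g2, ng_sg_invol]

end Pool.Agent.T6.H44.PG
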