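import Pool.Agent.T6.H44.PG.Geo
import Pool.Agent.T6.H44.AR.J

/-!
The number of polygons of large area, upper bound: cut of the polygons into pieces.
-/

set_option autoImplicit false

namespace Pool.Agent.T6.H44.PG

open Pool.Agent.TH795.EP Pool.Agent.TH795.EP2 Pool.Agent.TH795.SE2 Pool.Agent.TH262.SawL
  Pool.Agent.Y981.L2 H981 Finset

/-- the steps of a word as vectors -/
def stp (w : List St) : List (ℤ × ℤ) := w.map (fun s => (s.x, s.y))

theorem stp_sum (w : List St) : (stp w).sum = (dx w, dy w) := by
  induction w with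
  | nil => rfl
  | cons s w ih =>
    unfold stp at ih ⊢
    rw [List.map_cons, List.sum_cons, ih]
    simp [dx, dy]

theorem stp_append (u v : List St) : stp (u ++ v) = stp u ++ stp v := List.map_append

/-- the sum of `y dx` along the word -/
def TT : List St → ℤ
  | [] => 0
  | s :: V => s.y * dx V + TT V

theorem xy_zero (s : St) : s.x * s.y = 0 := by cases s <;> rfl

theorem TT_eq (V : List St) : TT V =
    ∑ k ∈ range V.length, (path V k).2 * ((path V (k + 1)).1 - (path V k).1) := by
  induction V with
  | nil => rfl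
  | cons s V ih =>
    rw [TT, ih, List.length_cons, Finset.sum_range_succ']
    have h0 : path (s :: V) 0 = (0, 0) := path_zero' _
    rw [h0]
    simp only [path_cons_succ, zero_mul, add_zero]
    have h1 : ∑ k ∈ range V.length, ((path V (k + 1)).1 - (path V k).1) = dx V := by
      rw [Finset.sum_range_sub (fun k => (path V k).1), path_len, path_zero']
      simp
    rw [← h1, Finset.mul_sum, ← Finset.sum_add_distrib]
    apply Finset.sum_congr rfl
    intro k _
    ring

theorem S2_stp (V : List St) : AR.S2 (stp V) = 2 * TT V - dx V * dy V := by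
  induction V with
  | nil => rfl
  | cons s V ih =>
    have h1 := stp_sum V
    have e : stp (s :: V) = (s.x, s.y) :: stp V := rfl
    rw [e, AR.S2, ih, h1, TT]
    have h2 : dx (s :: V) = s.x + dx V := by simp [dx]
    have h3 : dy (s :: V) = s.y + dy V := by simp [dy]
    rw [h2, h3]
    unfold AR.det
    simp only
    linear_combination xy_zero s

theorem sum_zmod {M : ℕ} [NeZero M] (g : ℕ → ℤ) : ∑ k : ZMod M, g k.val = ∑ j ∈ range M, g j := by
  apply Finset.sum_bij (fun k _ => k.val)
  · intro k _
    rw [Finset.mem_range]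
    exact ZMod.val_lt k
  · intro k _ l _ h
    exact ZMod.val_injective M h
  · intro j hj
    rw [Finset.mem_range] at hj
    exact ⟨(j : ZMod M), Finset.mem_univ _, ZMod.val_cast_of_lt hj⟩
  · intro k _
    rfl

theorem area_word {n : ℕ} (hn : 2 ≤ n) {V : List St} (hl : V.length = 2 * n - 1)
    (hf : IsLoop (2 * n) (fun i => path V i.val)) :
    2 * (area (2 * n) (fun i => path V i.val) : ℤ) = |AR.S2 (stp V)| := by
  have hne : NeZero (2 * n) := ⟨by omega⟩
  have : Fact (1 < 2 * n) := ⟨by omega⟩
  have hJ := AR.j (2 * n) (by omega) hne (fun i => path V i.val) hf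
  have hval : ∀ k : ZMod (2 * n), (k + 1).val = if k.val + 1 < 2 * n then k.val + 1 else 0 := by
    intro k
    split_ifs with h
    · rw [ZMod.val_add_of_lt (by rw [ZMod.val_one]; exact h), ZMod.val_one]
    · rw [ZMod.val_add_of_le (by rw [ZMod.val_one]; omega), ZMod.val_one]
      have := ZMod.val_lt k
      omega
  have hadj : |dx V| + |dy V| = 1 := by
    have h1 := hf.2.2 ((2 * n - 1 : ℕ) : ZMod (2 * n))
    simp only at h1
    rw [hval, ZMod.val_cast_of_lt (by omega), if_neg (by omega), path_zero', ← hl, path_len] at h1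
    simpa using h1
  have hxy : dx V * dy V = 0 := by
    rcases eq_or_ne (dx V) 0 with h | h
    · rw [h, zero_mul]
    · have : 1 ≤ |dx V| := Int.one_le_abs h
      have h2 : |dy V| = 0 := by
        have := abs_nonneg (dy V)
        omega
      rw [abs_eq_zero] at h2
      rw [h2, mul_zero]
  have h2 : ∑ k : ZMod (2 * n), (path V k.val).2 * ((path V (k + 1).val).1 - (path V k.val).1) =
      TT V := by
    simp only [hval]
    rw [sum_zmod (fun j => (path V j).2 *
      ((path V (if j + 1 < 2 * n then j + 1 else 0)).1 - (path V j).1))]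
    rw [show 2 * n = (2 * n - 1) + 1 by omega, Finset.sum_range_succ, if_neg (by omega),
      path_zero', ← hl, path_len]
    simp only
    have h3 : dy V * (0 - dx V) = 0 := by linear_combination -hxy
    rw [h3, add_zero, TT_eq]
    apply Finset.sum_congr rfl
    intro k hk
    rw [Finset.mem_range] at hk
    rw [if_pos (by omega)]
  have h4 : (area (2 * n) (fun i : ZMod (2 * n) => path V i.val) : ℤ) = |TT V| := by
    rw [← h2]
    exact hJ
  rw [h4, S2_stp, hxy, sub_zero, abs_mul]
  norm_num

/-! ### the cut -/

/-- cut of a word into pieces of given lengths: lengths and displacements -/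
def cut : List ℕ → List St → List (ℕ × (ℤ × ℤ))
  | [], _ => []
  | m :: ms, w => (m, (dx (w.take m), dy (w.take m))) :: cut ms (w.drop m)

theorem cut_fst (ms : List ℕ) : ∀ w, (cut ms w).map Prod.fst = ms := by
  induction ms with
  | nil => intro w; rfl
  | cons m ms ih =>
    intro w
    rw [cut, List.map_cons, ih]

theorem cut_sum (ms : List ℕ) : ∀ w : List St, w.length = ms.sum →
    ((cut ms w).map Prod.snd).sum = (dx w, dy w) := by
  induction ms with
  | nil =>
    intro w hw
    rw [List.sum_nil, List.length_eq_zero_iff] at hw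
    subst hw
    rfl
  | cons m ms ih =>
    intro w hw
    rw [List.sum_cons] at hw
    rw [cut, List.map_cons, List.sum_cons, ih _ (by rw [List.length_drop]; omega)]
    have h1 : dx w = dx (w.take m) + dx (w.drop m) := by rw [← dx_append, List.take_append_drop]
    have h2 : dy w = dy (w.take m) + dy (w.drop m) := by rw [← dy_append, List.take_append_drop]
    rw [h1, h2]
    rfl

theorem S2_stp_le (V : List St) : |AR.S2 (stp V)| ≤ (V.length : ℤ) ^ 2 := by
  induction V with
  | nil => simp [stp, AR.S2]
  | cons s V ih =>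
    have e : stp (s :: V) = (s.x, s.y) :: stp V := rfl
    rw [e, AR.S2, stp_sum]
    have h1 := abs_add_abs_le V
    have h2 : |AR.det (dx V, dy V) (s.x, s.y)| ≤ |dx V| + |dy V| := by
      unfold AR.det
      simp only
      cases s <;> simp [abs_nonneg, abs_neg]
    have h3 := abs_add_le (AR.det (dx V, dy V) (s.x, s.y)) (AR.S2 (stp V))
    rw [List.length_cons]
    push_cast
    nlinarith [Nat.cast_nonneg (α := ℤ) V.length]

theorem cut_S2 (ms : List ℕ) : ∀ w : List St, w.length = ms.sum →
    |AR.S2 (stp w) - AR.S2 ((cut ms w).map Prod.snd)| ≤ ((ms.map (fun m => m ^ 2)).sum : ℕ) := by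
  induction ms with
  | nil =>
    intro w hw
    rw [List.sum_nil, List.length_eq_zero_iff] at hw
    subst hw
    simp [cut, stp, AR.S2]
  | cons m ms ih =>
    intro w hw
    rw [List.sum_cons] at hw
    have hd : (w.drop m).length = ms.sum := by rw [List.length_drop]; omega
    have h1 := ih (w.drop m) hd
    have h2 : AR.S2 (stp w) = AR.S2 (stp (w.take m)) + AR.S2 (stp (w.drop m)) +
        AR.det (stp (w.drop m)).sum (stp (w.take m)).sum := by
      conv_lhs => rw [← List.take_append_drop m w, stp_append]
      exact AR.ModR1.S2_append _ _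
    rw [stp_sum, stp_sum] at h2
    have h3 : AR.S2 ((cut (m :: ms) w).map Prod.snd) =
        AR.det (dx (w.drop m), dy (w.drop m)) (dx (w.take m), dy (w.take m)) +
        AR.S2 ((cut ms (w.drop m)).map Prod.snd) := by
      rw [cut, List.map_cons, AR.S2, cut_sum ms _ hd]
    have h4 := S2_stp_le (w.take m)
    have h5 : ((w.take m).length : ℤ) = m := by
      rw [List.length_take]
      have : min m w.length = m := min_eq_left (by omega)
      rw [this]
    rw [h5] at h4
    rw [List.map_cons, List.sum_cons]
    push_cast at h1 ⊢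
    have h6 : AR.S2 (stp w) - AR.S2 ((cut (m :: ms) w).map Prod.snd) =
        AR.S2 (stp (w.take m)) +
        (AR.S2 (stp (w.drop m)) - AR.S2 ((cut ms (w.drop m)).map Prod.snd)) := by
      rw [h2, h3]; ring
    rw [h6]
    exact (abs_add_le _ _).trans (add_le_add h4 h1)

theorem S2_reverse (L : List (ℤ × ℤ)) : AR.S2 L.reverse = -AR.S2 L := by
  induction L with
  | nil => rfl
  | cons v L ih =>
    rw [List.reverse_cons, AR.ModR1.S2_append, ih, List.sum_reverse, AR.S2, AR.S2]
    simp only [List.sum_cons, List.sum_nil, AR.det, AR.S2, Prod.fst_add, Prod.snd_add,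
      Prod.fst_zero, Prod.snd_zero]
    ring

/-! ### counting by the cut -/

theorem cut_count (B : ℕ) (ms : List ℕ) : ∀ S : Finset (List St), S.Nonempty →
    (∀ w ∈ S, Saw w ∧ w.length = ms.sum) → (∀ m ∈ ms, (2 * m + 1) ^ 2 ≤ B) →
    ∃ w ∈ S, S.card ≤ B ^ ms.length * ((cut ms w).map (fun e => a e.1 e.2.1 e.2.2)).prod := by
  classical
  induction ms with
  | nil =>
    intro S hS hw _
    obtain ⟨w, hwS⟩ := hS
    refine ⟨w, hwS, ?_⟩
    simp only [cut, List.length_nil, pow_zero, List.map_nil, List.prod_nil, mul_one]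
    rw [Finset.card_le_one]
    intro u hu v hv
    have h1 := (hw u hu).2
    have h2 := (hw v hv).2
    rw [List.sum_nil, List.length_eq_zero_iff] at h1 h2
    rw [h1, h2]
  | cons m ms ih =>
    intro S hS hw hB
    have hBm := hB m (by simp)
    obtain ⟨box, hbox⟩ : ∃ box : Finset (ℤ × ℤ), box =
      Finset.Icc (-(m : ℤ)) m ×ˢ Finset.Icc (-(m : ℤ)) m := ⟨_, rfl⟩
    have hcard : box.card = (2 * m + 1) ^ 2 := by
      rw [hbox, Finset.card_product, Int.card_Icc]
      have : ((m : ℤ) + 1 - -(m : ℤ)).toNat = 2 * m + 1 := by omega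
      rw [this]
      ring
    obtain ⟨D, hD⟩ : ∃ D : List St → ℤ × ℤ, D = fun w => (dx (w.take m), dy (w.take m)) := ⟨_, rfl⟩
    have hmaps : ∀ w ∈ S, D w ∈ box := by
      intro w hwS
      have h1 := abs_add_abs_le (w.take m)
      have h2 : (w.take m).length ≤ m := by rw [List.length_take]; exact min_le_left _ _
      have h3 := abs_nonneg (dx (w.take m))
      have h4 := abs_nonneg (dy (w.take m))
      have h5 : |dx (w.take m)| ≤ m := by omega
      have h6 : |dy (w.take m)| ≤ m := by omega
      rw [hbox, hD, Finset.mem_product, Finset.mem_Icc, Finset.mem_Icc]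
      exact ⟨abs_le.1 h5, abs_le.1 h6⟩
    obtain ⟨v, hv, hvmax⟩ : ∃ v ∈ box, ∀ v' ∈ box,
        (S.filter (fun w => D w = v')).card ≤ (S.filter (fun w => D w = v)).card := by
      apply Finset.exists_max_image
      rw [← Finset.card_pos, hcard]
      positivity
    have hSc : S.card ≤ B * (S.filter (fun w => D w = v)).card := by
      rw [Finset.card_eq_sum_card_fiberwise (f := D) (t := box) hmaps]
      calc ∑ b ∈ box, (S.filter (fun w => D w = b)).card
          ≤ ∑ b ∈ box, (S.filter (fun w => D w = v)).card := Finset.sum_le_sum hvmax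
        _ = box.card * (S.filter (fun w => D w = v)).card := by
            rw [Finset.sum_const, smul_eq_mul]
        _ ≤ B * (S.filter (fun w => D w = v)).card :=
            Nat.mul_le_mul_right _ (by rw [hcard]; exact hBm)
    obtain ⟨Sv, hSv⟩ : ∃ Sv, Sv = S.filter (fun w => D w = v) := ⟨_, rfl⟩
    rw [← hSv] at hSc
    have hSvne : Sv.Nonempty := by
      rw [← Finset.card_pos]
      by_contra h
      have h0 : Sv.card = 0 := by omega
      rw [h0, mul_zero] at hSc
      have := Finset.card_pos.2 hS
      omega
    obtain ⟨w', hw', hle⟩ := ih (Sv.image (fun w => w.drop m)) (hSvne.image _) (by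
      intro w'' hw''
      rw [Finset.mem_image] at hw''
      obtain ⟨w, hwSv, rfl⟩ := hw''
      rw [hSv, Finset.mem_filter] at hwSv
      obtain ⟨g1, g2⟩ := hw w hwSv.1
      refine ⟨g1.subw (List.drop_suffix _ _).isInfix, ?_⟩
      rw [List.sum_cons] at g2
      rw [List.length_drop]
      omega) (fun m' hm' => hB m' (by simp [hm']))
    rw [Finset.mem_image] at hw'
    obtain ⟨w, hwSv, rfl⟩ := hw'
    have hDw : D w = v := by
      rw [hSv, Finset.mem_filter] at hwSv
      exact hwSv.2
    have hwS : w ∈ S := by
      rw [hSv, Finset.mem_filter] at hwSv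
      exact hwSv.1
    refine ⟨w, hwS, ?_⟩
    have hinj : Sv.card ≤ a m v.1 v.2 * (Sv.image (fun w => w.drop m)).card := by
      unfold a
      rw [← Finset.card_product]
      apply card_le_of_decode (fun p : List St × List St => p.1 ++ p.2)
      intro u hu
      refine ⟨(u.take m, u.drop m), ?_, List.take_append_drop m u⟩
      rw [Finset.mem_product]
      refine ⟨?_, Finset.mem_image_of_mem _ hu⟩
      rw [hSv, Finset.mem_filter] at hu
      obtain ⟨g1, g2⟩ := hw u hu.1
      have g3 := hu.2
      rw [hD] at g3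
      rw [mem_fs]
      refine ⟨⟨g1.subw (List.take_prefix _ _).isInfix, ?_, ?_⟩, ?_⟩
      · rw [← g3]
      · rw [← g3]
      · simp only
        rw [List.sum_cons] at g2
        rw [List.length_take]
        omega
    have e1 : (cut (m :: ms) w).map (fun e => a e.1 e.2.1 e.2.2) =
        a m v.1 v.2 :: (cut ms (w.drop m)).map (fun e => a e.1 e.2.1 e.2.2) := by
      rw [cut, List.map_cons, ← hDw, hD]
    rw [e1, List.prod_cons, List.length_cons]
    calc S.card ≤ B * Sv.card := hSc
      _ ≤ B * (a m v.1 v.2 * (Sv.image (fun w => w.drop m)).card) := Nat.mul_le_mul_left _ hinj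
      _ ≤ B * (a m v.1 v.2 * (B ^ ms.length *
          ((cut ms (w.drop m)).map (fun e => a e.1 e.2.1 e.2.2)).prod)) :=
          Nat.mul_le_mul_left _ (Nat.mul_le_mul_left _ hle)
      _ = _ := by ring

theorem exists_ms {s : ℕ} (hs : 1 ≤ s) (M : ℕ) : ∃ ms : List ℕ, ms.sum = M ∧
    (∀ m ∈ ms, 1 ≤ m ∧ m ≤ s) ∧ ms.length ≤ M / s + 1 := by
  induction M using Nat.strong_induction_on with
  | _ M ih =>
    rcases Nat.eq_zero_or_pos M with h0 | h0
    · subst h0
      exact ⟨[], rfl, by simp, by simp⟩
    rcases le_or_gt M s with h1 | h1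
    · exact ⟨[M], by simp, by simp; omega, by simp⟩
    · obtain ⟨ms, g1, g2, g3⟩ := ih (M - s) (by omega)
      refine ⟨s :: ms, by rw [List.sum_cons]; omega, ?_, ?_⟩
      · intro m hm
        rw [List.mem_cons] at hm
        rcases hm with rfl | hm
        · exact ⟨hs, le_rfl⟩
        · exact g2 m hm
      · rw [List.length_cons]
        have : M / s = (M - s) / s + 1 := by
          rw [← Nat.sub_add_cancel h1.le, Nat.add_div_right _ (by omega)]
          simp
        omega

end Pool.Agent.T6.H44.PG
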