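import Pool.Agent.T6.H44.PG.Up

/-!
The number of polygons of large area, upper bound: conclusion.
-/

set_option autoImplicit false

namespace Pool.Agent.T6.H44.PG

open Pool.Agent.TH795.EP Pool.Agent.TH795.EP2 Pool.Agent.TH795.SE2 Pool.Agent.TH262.SawL
  Pool.Agent.Y981.L2 H981 Finset

theorem sq_sum_le {s : ℕ} (ms : List ℕ) (h : ∀ m ∈ ms, m ≤ s) :
    (ms.map (fun m => m ^ 2)).sum ≤ s * ms.sum := by
  induction ms with
  | nil => simp
  | cons m ms ih =>
    rw [List.map_cons, List.sum_cons, List.sum_cons]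
    have h1 := ih (fun m' hm' => h m' (by simp [hm']))
    have h2 := h m (by simp)
    nlinarith

theorem an_le_card {n : ℕ} (hn : 2 ≤ n) (A : ℕ) :
    ∃ S : Finset (List St), an n A ≤ S.card ∧ ∀ V ∈ S, Saw V ∧ V.length = 2 * n - 1 ∧
      IsLoop (2 * n) (fun i => path V i.val) ∧ A ≤ area (2 * n) (fun i => path V i.val) := by
  classical
  have : NeZero (2 * n) := ⟨by omega⟩
  refine ⟨(fs Saw (2 * n - 1)).filter (fun V => IsLoop (2 * n) (fun i => path V i.val) ∧
    A ≤ area (2 * n) (fun i => path V i.val)), ?_, ?_⟩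
  · unfold an
    obtain ⟨S, hS⟩ : ∃ S, S = (fs Saw (2 * n - 1)).filter (fun V => IsLoop (2 * n)
      (fun i => path V i.val) ∧ A ≤ area (2 * n) (fun i => path V i.val)) := ⟨_, rfl⟩
    rw [← hS]
    have hsub : {f : ZMod (2 * n) → ℤ × ℤ | IsLoop (2 * n) f ∧ A ≤ area (2 * n) f} ⊆
        (fun V : List St => fun i : ZMod (2 * n) => path V i.val) '' (S : Set (List St)) := by
      rintro f ⟨hf, hfA⟩
      obtain ⟨w, h1, h2, h3⟩ := loop_word (by omega) hf 0
      have e : (fun i : ZMod (2 * n) => path w i.val) = f := by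
        funext i
        rw [h3 _ (ZMod.val_lt i), ZMod.natCast_zmod_val, zero_add, hf.1]
        simp
      refine ⟨w, ?_, e⟩
      rw [Finset.mem_coe, hS, Finset.mem_filter, mem_fs, e]
      exact ⟨⟨h1, h2⟩, hf, hfA⟩
    refine (Set.ncard_le_ncard hsub (S.finite_toSet.image _)).trans ?_
    refine (Set.ncard_image_le S.finite_toSet).trans ?_
    rw [Set.ncard_coe_finset]
  · intro V hV
    rw [Finset.mem_filter, mem_fs] at hV
    exact ⟨hV.1.1, hV.1.2, hV.2.1, hV.2.2⟩

theorem up_main {n : ℕ} (hn : 2 ≤ n) {s : ℕ} (hs : 1 ≤ s) {A : ℕ} (hA : 0 < an n A) :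
    ∃ E : List (ℕ × (ℤ × ℤ)), (∀ e ∈ E, 1 ≤ e.1 ∧ |e.2.1| + |e.2.2| ≤ (e.1 : ℤ) ∧
      0 < a e.1 e.2.1 e.2.2) ∧ (E.map Prod.fst).sum = 2 * n ∧ (E.map Prod.snd).sum = 0 ∧
      E.length ≤ 2 * n / s + 2 ∧ 2 * (A : ℤ) ≤ AR.S2 (E.map Prod.snd) + 2 * n * s ∧
      an n A ≤ ((2 * s + 1) ^ 2) ^ (2 * n / s + 1) *
        (E.map (fun e => a e.1 e.2.1 e.2.2)).prod := by
  classical
  obtain ⟨ms, hm1, hm2, hm3⟩ := exists_ms hs (2 * n - 1)
  have hm3' : ms.length ≤ 2 * n / s + 1 :=
    hm3.trans (Nat.add_le_add_right (Nat.div_le_div_right (by omega)) 1)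
  obtain ⟨S, hS1, hS2⟩ := an_le_card hn A
  have hSne : S.Nonempty := by
    rw [← Finset.card_pos]
    omega
  obtain ⟨V, hVS, hcount⟩ := cut_count ((2 * s + 1) ^ 2) ms S hSne
    (fun w hw => ⟨(hS2 w hw).1, by rw [hm1]; exact (hS2 w hw).2.1⟩)
    (fun m hm => Nat.pow_le_pow_left (by have := (hm2 m hm).2; omega) 2)
  obtain ⟨hV1, hV2, hV3, hV4⟩ := hS2 V hVS
  have hlen : V.length = ms.sum := by rw [hV2, hm1]
  have harea := area_word hn hV2 hV3
  have hadj : |dx V| + |dy V| = 1 := by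
    have h1 := hV3.2.2 ((2 * n - 1 : ℕ) : ZMod (2 * n))
    have hne : NeZero (2 * n) := ⟨by omega⟩
    have : Fact (1 < 2 * n) := ⟨by omega⟩
    have e : ((2 * n - 1 : ℕ) : ZMod (2 * n)) + 1 = 0 := by
      have : (((2 * n - 1) + 1 : ℕ) : ZMod (2 * n)) = 0 := by
        rw [Nat.sub_add_cancel (by omega)]
        exact ZMod.natCast_self _
      rw [← this]
      push_cast
      rfl
    simp only at h1
    rw [e, ZMod.val_cast_of_lt (by omega), ZMod.val_zero, path_zero', ← hV2, path_len] at h1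
    simpa using h1
  obtain ⟨C, hC⟩ : ∃ C, C = cut ms V := ⟨_, rfl⟩
  have hCsum : (C.map Prod.snd).sum = (dx V, dy V) := by rw [hC]; exact cut_sum ms V hlen
  have hCfst : C.map Prod.fst = ms := by rw [hC]; exact cut_fst ms V
  have hCS2 := cut_S2 ms V hlen
  rw [← hC] at hCS2 hcount
  have hsq := sq_sum_le ms (fun m hm => (hm2 m hm).2)
  rw [hm1] at hsq
  have hsq' : (((ms.map (fun m => m ^ 2)).sum : ℕ) : ℤ) ≤ 2 * n * s := by
    have h1 : s * (2 * n - 1) ≤ 2 * n * s := by
      rw [mul_comm s]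
      exact Nat.mul_le_mul_right _ (by omega)
    exact_mod_cast hsq.trans h1
  have hCS3 := abs_le.1 (hCS2.trans hsq')
  have ha1 : 1 ≤ a 1 (-dx V) (-dy V) := by
    have h5 : |dx V| = 0 ∨ |dx V| = 1 := by
      have := abs_nonneg (dx V)
      have := abs_nonneg (dy V)
      omega
    apply one_le_a
    · intro h0
      rw [Prod.mk.injEq, neg_eq_zero, neg_eq_zero] at h0
      rw [h0.1, h0.2] at hadj
      simp at hadj
    · rcases h5 with h5 | h5
      · have h6 : |dy V| = 1 := by omega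
        rw [abs_eq_zero] at h5
        rcases (abs_eq (by norm_num)).1 h6 with h6 | h6 <;> rw [h5, h6] <;> norm_num
      · have h6 : |dy V| = 0 := by omega
        rw [abs_eq_zero] at h6
        rcases (abs_eq (by norm_num)).1 h5 with h5 | h5 <;> rw [h5, h6] <;> norm_num
    · rw [abs_neg, abs_neg, hadj]
      norm_num
  obtain ⟨F, hF⟩ : ∃ F : List (ℕ × (ℤ × ℤ)), F = C ++ [(1, (-dx V, -dy V))] := ⟨_, rfl⟩
  have hprod : an n A ≤ ((2 * s + 1) ^ 2) ^ (2 * n / s + 1) *
      (F.map (fun e => a e.1 e.2.1 e.2.2)).prod := by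
    rw [hF, List.map_append, List.prod_append]
    simp only [List.map_cons, List.map_nil, List.prod_cons, List.prod_nil, mul_one]
    calc an n A ≤ S.card := hS1
      _ ≤ ((2 * s + 1) ^ 2) ^ ms.length * (C.map (fun e => a e.1 e.2.1 e.2.2)).prod := hcount
      _ ≤ ((2 * s + 1) ^ 2) ^ (2 * n / s + 1) *
          ((C.map (fun e => a e.1 e.2.1 e.2.2)).prod * a 1 (-dx V) (-dy V)) := by
          apply Nat.mul_le_mul
          · exact Nat.pow_le_pow_right (by positivity) hm3'
          · exact Nat.le_mul_of_pos_right _ ha1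
  have hpos : ∀ e ∈ F, 0 < a e.1 e.2.1 e.2.2 := by
    intro e he
    rw [Nat.pos_iff_ne_zero]
    intro h0
    have h1 : (F.map (fun e => a e.1 e.2.1 e.2.2)).prod = 0 := by
      apply List.prod_eq_zero
      rw [List.mem_map]
      exact ⟨e, he, h0⟩
    rw [h1, mul_zero] at hprod
    omega
  have hall : ∀ e ∈ F, 1 ≤ e.1 ∧ |e.2.1| + |e.2.2| ≤ (e.1 : ℤ) ∧ 0 < a e.1 e.2.1 e.2.2 := by
    intro e he
    have h1 := hpos e he
    refine ⟨?_, ?_, h1⟩
    · rw [hF, List.mem_append] at he
      rcases he with he | he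
      · have h2 : e.1 ∈ C.map Prod.fst := List.mem_map_of_mem he
        rw [hCfst] at h2
        exact (hm2 _ h2).1
      · rw [List.mem_singleton] at he
        rw [he]
    · obtain ⟨w, -, g1, g2, g3⟩ := exists_of_a h1
      have := abs_add_abs_le w
      rw [g1, g2, g3] at this
      exact this
  have hfst : (F.map Prod.fst).sum = 2 * n := by
    rw [hF, List.map_append, List.sum_append, hCfst, hm1]
    simp only [List.map_cons, List.map_nil, List.sum_cons, List.sum_nil]
    omega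
  have hsnd : (F.map Prod.snd).sum = 0 := by
    rw [hF, List.map_append, List.sum_append, hCsum]
    simp
  have hFlen : F.length ≤ 2 * n / s + 2 := by
    rw [hF, List.length_append, List.length_singleton]
    have : C.length = ms.length := by rw [← hCfst, List.length_map]
    omega
  have hFS2 : AR.S2 (F.map Prod.snd) = AR.S2 (C.map Prod.snd) := by
    rw [hF, List.map_append, AR.ModR1.S2_append, hCsum]
    simp only [List.map_cons, List.map_nil, List.sum_cons, List.sum_nil, AR.S2, AR.det, add_zero,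
      Prod.fst_zero, Prod.snd_zero]
    ring
  rcases le_total 0 (AR.S2 (stp V)) with h | h
  · refine ⟨F, hall, hfst, hsnd, hFlen, ?_, hprod⟩
    rw [abs_of_nonneg h] at harea
    rw [hFS2]
    have : (A : ℤ) ≤ area (2 * n) (fun i : ZMod (2 * n) => path V i.val) := by exact_mod_cast hV4
    omega
  · refine ⟨F.reverse, ?_, ?_, ?_, ?_, ?_, ?_⟩
    · intro e he
      exact hall e (List.mem_reverse.1 he)
    · rw [List.map_reverse, List.sum_reverse, hfst]
    · rw [List.map_reverse, List.sum_reverse, hsnd]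
    · rw [List.length_reverse]
      exact hFlen
    · rw [abs_of_nonpos h] at harea
      rw [List.map_reverse, S2_reverse, hFS2]
      have : (A : ℤ) ≤ area (2 * n) (fun i : ZMod (2 * n) => path V i.val) := by exact_mod_cast hV4
      omega
    · rw [List.map_reverse, List.prod_reverse]
      exact hprod

end Pool.Agent.T6.H44.PG
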