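import Pool.Agent.T6.H44.PG.Lmb
import Pool.Agent.T6.H44.AR.WZ
import Pool.Agent.T6.H44.AR.VZ
import Pool.Agent.T6.H44.AR.PZ
import Pool.Agent.T6.H44.AR.WUL
import Pool.Agent.T6.H44.AR.BMG
import Pool.Agent.T6.H44.AR.APX
import Pool.Agent.T6.H44.AR.SYM
import Pool.Agent.T6.H44.AR.ARR
import Pool.Agent.T6.H44.AR.LEG
import Pool.Agent.T6.H44.AR.KEP
import Pool.Agent.T6.H44.AR.FRM
import Pool.Agent.H354R3.ZN.All3

/-!
The Wulff formula for the large deviation rate of the area.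
-/

set_option autoImplicit false

namespace Pool.Agent.T6.H44.PG

open Pool.Agent.TH795.EP Pool.Agent.TH795.EP2 Pool.Agent.TH795.SE2 Pool.Agent.TH262.SawL
  Pool.Agent.Y981.L2 H981 Finset Pool.Agent.T6.H53.AL Filter Topology MeasureTheory

theorem all_wz : AR.StmtWZ := AR.wz H354ZN.a_LOG H354ZN.a_KSUM

theorem all_vz : AR.StmtVZ := AR.vz H354ZN.a_TILE H354ZN.a_VOL H354ZN.a_KSUM

theorem all_pz : AR.StmtPZ := AR.pz H354ZN.a_PLZ H354ZN.t_SAND

theorem all_wul : AR.StmtWUL := AR.wul all_wz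

theorem all_bmg : AR.StmtBMG := AR.bmg all_wul all_vz

theorem all_apx : AR.StmtAPX := AR.apx all_wz all_vz all_pz

theorem all_frm : AR.StmtFRM :=
  AR.frm AR.sym AR.arr all_wul all_bmg all_apx AR.leg AR.kep

/-- the area of `{h : Λ h ≤ E}` -/
noncomputable def AL (E : ℝ) : ℝ := volume.real {h : ℝ × ℝ | Lam h ≤ E}

theorem ke_eq (E : ℝ) : {h : ℝ × ℝ | Lam h ≤ E} = AR.KE Rate E := by
  ext h
  exact lam_iff h E

theorem wulff {u : ℝ} (hu : 0 < u) (hu4 : u < 1 / 4) :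
    BddAbove ((fun E : ℝ => 2 * (√(u * AL E) - E)) '' Set.Ioi 0) ∧
    Phi u = sSup ((fun E : ℝ => 2 * (√(u * AL E) - E)) '' Set.Ioi 0) := by
  obtain ⟨h1, h2⟩ := all_frm Rate rt_rate u hu hu4
  have e : (fun E : ℝ => 2 * (√(u * AL E) - E)) =
      fun E : ℝ => 2 * √(u * volume.real (AR.KE Rate E)) - 2 * E := by
    funext E
    unfold AL
    rw [ke_eq]
    ring
  rw [e]
  exact ⟨h1, h2⟩

end Pool.Agent.T6.H44.PG
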