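import Pool.Agent.T6.H44.PG.Wul
import Pool.Agent.T6.H53.AL.Area2

/-!
Properties of the rate function of the area.
-/

set_option autoImplicit false

namespace Pool.Agent.T6.H44.PG

open Pool.Agent.TH795.EP Pool.Agent.TH795.EP2 Pool.Agent.TH795.SE2 Pool.Agent.TH262.SawL
  Pool.Agent.Y981.L2 H981 Finset Pool.Agent.T6.H53.AL Filter Topology MeasureTheory

/-- the formula -/
noncomputable def Wf (A : ℝ → ℝ) (u : ℝ) : ℝ :=
  sSup ((fun E : ℝ => 2 * (√(u * A E) - E)) '' Set.Ioi 0)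

theorem phi_eq {u : ℝ} (hu : 0 < u) (hu4 : u < 1 / 4) : Phi u = Wf AL u := (wulff hu hu4).2

theorem le_Wf {u : ℝ} (hu : 0 < u) (hu4 : u < 1 / 4) {E : ℝ} (hE : 0 < E) :
    2 * (√(u * AL E) - E) ≤ Wf AL u :=
  le_csSup (wulff hu hu4).1 ⟨E, hE, rfl⟩

theorem AL_nonneg (E : ℝ) : 0 ≤ AL E := measureReal_nonneg

theorem Wf_le {A : ℝ → ℝ} {u x : ℝ} (h : ∀ E : ℝ, 0 < E → 2 * (√(u * A E) - E) ≤ x) :
    Wf A u ≤ x := by
  unfold Wf
  apply csSup_le
  · exact ⟨_, 1, by norm_num, rfl⟩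
  · rintro _ ⟨E, hE, rfl⟩
    exact h E hE

theorem Wf_convex : ConvexOn ℝ (Set.Ioo (0 : ℝ) (1 / 2)) (fun r => Wf AL (r ^ 2)) := by
  have hsq : ∀ r : ℝ, r ∈ Set.Ioo (0 : ℝ) (1 / 2) → 0 < r ^ 2 ∧ r ^ 2 < 1 / 4 := by
    rintro r ⟨h1, h2⟩
    exact ⟨by positivity, by nlinarith⟩
  refine ⟨convex_Ioo _ _, ?_⟩
  intro x hx y hy a b ha hb hab
  obtain ⟨x1, x2⟩ := hsq x hx
  obtain ⟨y1, y2⟩ := hsq y hy
  simp only [smul_eq_mul]
  apply Wf_le
  intro E hE
  have h1 := le_Wf x1 x2 hE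
  have h2 := le_Wf y1 y2 hE
  have hA := AL_nonneg E
  have e : ∀ r : ℝ, 0 ≤ r → √(r ^ 2 * AL E) = r * √(AL E) := by
    intro r hr
    rw [Real.sqrt_mul (sq_nonneg r), Real.sqrt_sq hr]
  rw [e _ (add_nonneg (mul_nonneg ha hx.1.le) (mul_nonneg hb hy.1.le))]
  rw [e _ hx.1.le] at h1
  rw [e _ hy.1.le] at h2
  have k1 := mul_le_mul_of_nonneg_left h1 ha
  have k2 := mul_le_mul_of_nonneg_left h2 hb
  have k3 : E = a * E + b * E := by rw [← add_mul, hab, one_mul]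
  calc 2 * ((a * x + b * y) * √(AL E) - E)
      = a * (2 * (x * √(AL E) - E)) + b * (2 * (y * √(AL E) - E)) := by
        linear_combination (-2) * k3
    _ ≤ _ := add_le_add k1 k2

theorem Wf_pos {u : ℝ} (hu : 0 < u) (hu4 : u < 1 / 4) :
    2 * Rate (√u, √u) ≤ Wf AL u ∧ 0 < Wf AL u := by
  obtain ⟨K, hK, h1⟩ := area_upper
  have hs : √u < 1 / 2 := by
    rw [Real.sqrt_lt' (by norm_num)]
    linarith
  have hs0 : 0 < √u := Real.sqrt_pos.2 hu
  have hD : ((√u, √u) : ℝ × ℝ) ∈ Dia := by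
    show |√u| + |√u| ≤ 1
    rw [abs_of_pos hs0]
    linarith
  have hr : 0 < Rate (√u, √u) := rate_pos hD (by
    intro h0
    have := congrArg Prod.fst h0
    simp only [Prod.fst_zero] at this
    linarith)
  have hle : 2 * Rate (√u, √u) ≤ Wf AL u := by
    rw [← phi_eq hu hu4]
    have ht := rate_area hu hu4
    have hc : Tendsto (fun n : ℕ => -(2 * Rate (√u, √u)) + K * (Real.log (n : ℝ) ^ 2 / n)) atTop
        (𝓝 (-(2 * Rate (√u, √u)) + K * 0)) := by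
      apply Tendsto.const_add
      apply Tendsto.const_mul
      have h2 : Tendsto (fun x : ℝ => Real.log x ^ 2 / x) atTop (𝓝 0) :=
        (Real.isLittleO_pow_log_id_atTop (n := 2)).tendsto_div_nhds_zero
      exact h2.comp tendsto_natCast_atTop_atTop
    have := le_of_tendsto_of_tendsto ht hc (by
      filter_upwards [lower hu hu4 one_pos, eventually_ge_atTop 2] with n hn hn2
      have hn0 : (0 : ℝ) < n := by exact_mod_cast (by omega : 0 < n)
      have h2 := h1 n hn2 (√u * n) (by positivity)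
      have e1 : (√u * (n : ℝ)) ^ 2 = u * (n : ℝ) ^ 2 := by
        rw [mul_pow, Real.sq_sqrt hu.le]
      have e2 : √u * (n : ℝ) / n = √u := by field_simp
      rw [e1, e2] at h2
      have h3 := Real.log_le_log hn.1 h2
      rw [Real.log_exp] at h3
      rw [div_le_iff₀ hn0]
      have e3 : (-(2 * Rate (√u, √u)) + K * (Real.log (n : ℝ) ^ 2 / n)) * n =
          -(2 * n * Rate (√u, √u)) + K * Real.log n ^ 2 := by
        field_simp
      rw [e3]
      exact h3)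
    linarith
  exact ⟨hle, by linarith⟩

theorem Wf_mono {u v : ℝ} (hu : 0 < u) (huv : u < v) (hv4 : v < 1 / 4) :
    √v * Wf AL u ≤ √u * Wf AL v ∧ Wf AL u < Wf AL v := by
  have hv : 0 < v := hu.trans huv
  have su : 0 < √u := Real.sqrt_pos.2 hu
  have sv : 0 < √v := Real.sqrt_pos.2 hv
  have suv : √u < √v := Real.sqrt_lt_sqrt hu.le huv
  have h1 : √v * Wf AL u ≤ √u * Wf AL v := by
    rw [mul_comm, ← le_div_iff₀ sv]
    apply Wf_le
    intro E hE
    rw [le_div_iff₀ sv]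
    have h2 := le_Wf hv hv4 hE
    have h3 := mul_le_mul_of_nonneg_left h2 su.le
    rw [Real.sqrt_mul hv.le] at h3
    rw [Real.sqrt_mul hu.le]
    nlinarith [mul_pos (sub_pos.2 suv) hE]
  refine ⟨h1, ?_⟩
  have h4 := (Wf_pos hv hv4).2
  by_contra hcon
  push Not at hcon
  have h5 := mul_le_mul_of_nonneg_left hcon sv.le
  have h6 := mul_pos (sub_pos.2 suv) h4
  nlinarith

theorem Wf_cont : ContinuousOn (Wf AL) (Set.Ioo (0 : ℝ) (1 / 4)) := by
  have h1 : ContinuousOn (fun r => Wf AL (r ^ 2)) (Set.Ioo (0 : ℝ) (1 / 2)) :=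
    Wf_convex.continuousOn isOpen_Ioo
  have h2 : ContinuousOn (fun u : ℝ => √u) (Set.Ioo (0 : ℝ) (1 / 4)) :=
    Real.continuous_sqrt.continuousOn
  have h3 := h1.comp h2 (by
    rintro u ⟨hu, hu4⟩
    refine ⟨Real.sqrt_pos.2 hu, ?_⟩
    rw [Real.sqrt_lt' (by norm_num)]
    linarith)
  apply h3.congr
  rintro u ⟨hu, hu4⟩
  simp only [Function.comp]
  rw [Real.sq_sqrt hu.le]

end Pool.Agent.T6.H44.PG
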